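import Pool.Agent.P.MP_365d4e_co.Data

set_option autoImplicit false

open MeasureTheory Set

namespace Pool.Agent.P.MP_365d4e_co

lemma bend {κ : Type} (J : Finset κ) (x0 x1 x2 : κ → ℝ) {t s k δ0 δ1 δ2 : ℝ}
    (ht : 0 ≤ t) (hk : 0 ≤ k) (hs : t + k ≤ s) (hkt : 10 * k ≤ t)
    (p1 : ∀ j, 0 ≤ x1 j) (p2 : ∀ j, 0 ≤ x2 j) (q1 : ∀ j, x1 j ≤ 1)
    (hC : ∀ j ∈ J, x1 j + x2 j + 1 / 10 * (x1 j * x2 j) ≤ 1)
    (a0 : δ0 ≤ 1) (b0 : δ0 ≤ ∑ j ∈ J, x0 j) (a1 : 0 ≤ δ1) (b1 : δ1 ≤ ∑ j ∈ J, x1 j)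
    (a2 : 0 ≤ δ2) (c2 : δ2 ≤ 1) (b2 : δ2 ≤ ∑ j ∈ J, x2 j) :
    t * (δ1 + δ2) + (s - t) * δ0 + k * (δ1 * δ2) ≤
      ∑ j ∈ J, if x0 j = 0 then (t + k) * (x1 j + x2 j) else s := by
  classical
  have hE : ∀ j ∈ J, (t + k) * (x1 j + x2 j) ≤ if x0 j = 0 then (t + k) * (x1 j + x2 j) else s := by
    intro j hj
    split_ifs
    · exact le_rfl
    · have h1 := hC j hj
      have h2 := mul_nonneg (p1 j) (p2 j)
      have h3 : x1 j + x2 j ≤ 1 := by linarith
      nlinarith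
  by_cases hex : ∃ j ∈ J, x0 j ≠ 0
  · obtain ⟨j, hj, hj0⟩ := hex
    rw [← Finset.add_sum_erase J _ hj] at b1 b2 ⊢
    rw [if_neg hj0]
    have X1 : 0 ≤ ∑ i ∈ J.erase j, x1 i := Finset.sum_nonneg fun i _ => p1 i
    have X2 : 0 ≤ ∑ i ∈ J.erase j, x2 i := Finset.sum_nonneg fun i _ => p2 i
    have h1 : (t + k) * (∑ i ∈ J.erase j, x1 i + ∑ i ∈ J.erase j, x2 i) ≤
        ∑ i ∈ J.erase j, (if x0 i = 0 then (t + k) * (x1 i + x2 i) else s) := by
      rw [← Finset.sum_add_distrib, Finset.mul_sum]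
      exact Finset.sum_le_sum fun i hi => hE i (Finset.mem_of_mem_erase hi)
    set A := ∑ i ∈ J.erase j, x1 i
    set B := ∑ i ∈ J.erase j, x2 i
    have h2 : δ1 * δ2 ≤ x1 j * x2 j + A + B := by
      have e1 : δ1 * δ2 ≤ (x1 j + A) * δ2 := mul_le_mul_of_nonneg_right b1 a2
      have e2 : A * δ2 ≤ A := by nlinarith
      have e3 : x1 j * δ2 ≤ x1 j * (x2 j + B) := mul_le_mul_of_nonneg_left b2 (p1 j)
      have e4 : x1 j * B ≤ B := by nlinarith [q1 j]
      nlinarith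
    have h3 := hC j hj
    have h4 := mul_nonneg (p1 j) (p2 j)
    have h5 : t * (x1 j + x2 j) + k * (x1 j * x2 j) ≤ t := by nlinarith
    have h6 : (s - t) * δ0 ≤ s - t := by nlinarith
    have h7 : t * (δ1 + δ2) ≤ t * (x1 j + A + (x2 j + B)) := mul_le_mul_of_nonneg_left (by linarith) ht
    have h8 : k * (δ1 * δ2) ≤ k * (x1 j * x2 j + A + B) := mul_le_mul_of_nonneg_left h2 hk
    nlinarith
  · push Not at hex
    have h0 : ∑ j ∈ J, x0 j = 0 := Finset.sum_eq_zero hex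
    have h1 : (t + k) * (∑ i ∈ J, x1 i + ∑ i ∈ J, x2 i) ≤
        ∑ i ∈ J, (if x0 i = 0 then (t + k) * (x1 i + x2 i) else s) := by
      rw [← Finset.sum_add_distrib, Finset.mul_sum]
      exact Finset.sum_le_sum fun i hi => hE i hi
    have h2 : δ1 * δ2 ≤ δ1 + δ2 := by nlinarith
    have h6 : (s - t) * δ0 ≤ 0 := mul_nonpos_of_nonneg_of_nonpos (by linarith) (by linarith)
    have h7 : (t + k) * (δ1 + δ2) ≤ (t + k) * (∑ i ∈ J, x1 i + ∑ i ∈ J, x2 i) :=
      mul_le_mul_of_nonneg_left (by linarith) (by linarith)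
    have h8 : k * (δ1 * δ2) ≤ k * (δ1 + δ2) := mul_le_mul_of_nonneg_left h2 hk
    nlinarith

/-- relative loss of a test triangle -/
noncomputable def dl (U : Set ℂ) (k : Fin 16) : ℝ := volume.real (tri k \ U) / arQ k

lemma vol_tri_ne_top (k : Fin 16) : volume (tri k) ≠ ⊤ := vol_ctri_ne_top _ _ _

lemma dl_nonneg (U : Set ℂ) (k : Fin 16) : 0 ≤ dl U k :=
  div_nonneg measureReal_nonneg (arQ_pos' k).le

lemma dl_le_one (U : Set ℂ) (k : Fin 16) : dl U k ≤ 1 := by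
  rw [dl, div_le_one (arQ_pos' k), ← volr_tri]
  exact measureReal_mono sdiff_subset (vol_tri_ne_top k)

lemma volr_tri_inter {U : Set ℂ} (hU : MeasurableSet U) (k : Fin 16) :
    volume.real (tri k ∩ U) = arQ k * (1 - dl U k) := by
  have := measureReal_inter_add_sdiff (μ := volume) (s := tri k) hU (vol_tri_ne_top k)
  rw [volr_tri] at this
  rw [dl, mul_sub, mul_div_cancel₀ _ (arQ_pos' k).ne']
  linarith

lemma dl_le_sum {κ : Type} (J : Finset κ) (h : κ → ℝ × ℝ × ℝ) (k : Fin 16) :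
    dl {z | ∀ j ∈ J, aff (h j) z ≤ 0} k ≤ ∑ j ∈ J, xl (h j) k := by
  unfold xl
  rw [← Finset.sum_div, dl]
  refine div_le_div_of_nonneg_right ?_ (arQ_pos' k).le
  have hsub : tri k \ {z | ∀ j ∈ J, aff (h j) z ≤ 0} ⊆ ⋃ j ∈ J, (tri k ∩ {z | 0 < aff (h j) z}) := by
    rintro z ⟨h1, h2⟩
    simp only [mem_ofPred_eq, not_forall, not_le] at h2
    obtain ⟨j, hj, h2⟩ := h2
    exact mem_biUnion hj ⟨h1, h2⟩
  refine (measureReal_mono hsub ?_).trans (measureReal_biUnion_finset_le _ _)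
  exact ne_top_of_le_ne_top (vol_tri_ne_top k)
    (measure_mono (iUnion₂_subset fun _ _ => inter_subset_left))

lemma isClosed_hp {κ : Type} (J : Finset κ) (h : κ → ℝ × ℝ × ℝ) :
    IsClosed {z | ∀ j ∈ J, aff (h j) z ≤ 0} := by
  have : {z | ∀ j ∈ J, aff (h j) z ≤ 0} = ⋂ j ∈ J, {z | aff (h j) z ≤ 0} := by ext z; simp
  rw [this]
  exact isClosed_biInter fun j _ => isClosed_le (continuous_aff _) continuous_const

lemma arQ_vals : arQ 0 = 6615000 / 23 ∧ arQ 1 = 6615000 / 23 ∧ arQ 2 = 17640000 / 53 ∧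
    arQ 3 = 17640000 / 53 ∧ 350000 - 6615000 / 23 ≤ arQ 4 ∧ 350000 - 17640000 / 53 ≤ arQ 5 ∧
    350000 ≤ arQ 6 ∧ 350000 ≤ arQ 7 ∧ 350000 ≤ arQ 8 ∧ 350000 ≤ arQ 9 ∧
    arQ 10 + arQ 11 + arQ 12 + arQ 13 + arQ 14 + arQ 15 =
      23760000 - 6615000 / 23 - 17640000 / 53 := by decide +kernel

theorem area_bound {κ : Type} (J : Finset κ) (h : κ → ℝ × ℝ × ℝ) (hS : ∀ j ∈ J, Sup (h j))
    {U : Set ℂ} (hU : U = {z | ∀ j ∈ J, aff (h j) z ≤ 0}) (hfin : volume U ≠ ⊤) :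
    23760000 + 350000 * (6 - (J.card : ℝ)) + 10000 * (dl U 0 * dl U 1 + dl U 2 * dl U 3) ≤
      volume.real U := by
  classical
  have hm : MeasurableSet U := by rw [hU]; exact (isClosed_hp J h).measurableSet
  have h1 := sum_tri_le hm hfin
  simp only [volr_tri_inter hm] at h1
  have hb : ∀ k, dl U k ≤ ∑ j ∈ J, xl (h j) k := fun k => by rw [hU]; exact dl_le_sum J h k
  have ba := bend J (fun j => xl (h j) 4) (fun j => xl (h j) 0) (fun j => xl (h j) 1)
    (t := 6615000 / 23) (s := 350000) (k := 10000) (by norm_num) (by norm_num) (by norm_num)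
    (by norm_num) (fun j => xl_nonneg _ _) (fun j => xl_nonneg _ _) (fun j => xl_le_one _ _)
    (fun j hj => (perh (hS j hj)).2.2.2.1) (dl_le_one U 4) (hb 4) (dl_nonneg U 0) (hb 0)
    (dl_nonneg U 1) (dl_le_one U 1) (hb 1)
  have bc := bend J (fun j => xl (h j) 5) (fun j => xl (h j) 2) (fun j => xl (h j) 3)
    (t := 17640000 / 53) (s := 350000) (k := 10000) (by norm_num) (by norm_num) (by norm_num)
    (by norm_num) (fun j => xl_nonneg _ _) (fun j => xl_nonneg _ _) (fun j => xl_le_one _ _)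
    (fun j hj => (perh (hS j hj)).2.2.2.2.1) (dl_le_one U 5) (hb 5) (dl_nonneg U 2) (hb 2)
    (dl_nonneg U 3) (dl_le_one U 3) (hb 3)
  have tot : ∑ j ∈ J, ((if xl (h j) 4 = 0 then (6615000 / 23 + 10000) * (xl (h j) 0 + xl (h j) 1)
      else 350000) + (if xl (h j) 5 = 0 then (17640000 / 53 + 10000) * (xl (h j) 2 + xl (h j) 3)
      else 350000) + 350000 * (xl (h j) 6 + xl (h j) 7 + xl (h j) 8 + xl (h j) 9)) ≤
      ∑ j ∈ J, (350000 : ℝ) := by
    refine Finset.sum_le_sum fun j hj => ?_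
    obtain ⟨B, Aa, Ac, -, -, -⟩ := perh (hS j hj)
    have n0 := xl_nonneg (h j) 0
    have n1 := xl_nonneg (h j) 1
    have n2 := xl_nonneg (h j) 2
    have n3 := xl_nonneg (h j) 3
    by_cases a : xl (h j) 4 = 0
    · by_cases c : xl (h j) 5 = 0
      · rw [if_pos a, if_pos c]; linarith
      · obtain ⟨e0, e1, e6, e7, e8, e9⟩ := Ac c
        rw [if_pos a, if_neg c, e0, e1, e6, e7, e8, e9]; norm_num
    · obtain ⟨e2, e3, e5, e6, e7, e8, e9⟩ := Aa a
      rw [if_neg a, if_pos e5, e2, e3, e6, e7, e8, e9]; norm_num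
  rw [Finset.sum_add_distrib, Finset.sum_add_distrib, ← Finset.mul_sum, Finset.sum_add_distrib,
    Finset.sum_add_distrib, Finset.sum_add_distrib, Finset.sum_const, nsmul_eq_mul] at tot
  have fz : ∀ k : Fin 16, (∀ j ∈ J, xl (h j) k = 0) → dl U k = 0 := fun k hk =>
    le_antisymm ((hb k).trans (le_of_eq (Finset.sum_eq_zero hk))) (dl_nonneg U k)
  have f10 := fz 10 fun j hj => (perh (hS j hj)).2.2.2.2.2.1
  have f11 := fz 11 fun j hj => (perh (hS j hj)).2.2.2.2.2.2.1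
  have f12 := fz 12 fun j hj => (perh (hS j hj)).2.2.2.2.2.2.2.1
  have f13 := fz 13 fun j hj => (perh (hS j hj)).2.2.2.2.2.2.2.2.1
  have f14 := fz 14 fun j hj => (perh (hS j hj)).2.2.2.2.2.2.2.2.2.1
  have f15 := fz 15 fun j hj => (perh (hS j hj)).2.2.2.2.2.2.2.2.2.2
  obtain ⟨v0, v1, v2, v3, v4, v5, v6, v7, v8, v9, v10⟩ := arQ_vals
  have u0 : (arQ 0 : ℝ) = 6615000 / 23 := by rw [v0]; norm_num
  have u1 : (arQ 1 : ℝ) = 6615000 / 23 := by rw [v1]; norm_num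
  have u2 : (arQ 2 : ℝ) = 17640000 / 53 := by rw [v2]; norm_num
  have u3 : (arQ 3 : ℝ) = 17640000 / 53 := by rw [v3]; norm_num
  have u4 : (350000 - 6615000 / 23 : ℝ) ≤ arQ 4 := by
    have := (Rat.cast_le (K := ℝ)).2 v4; push_cast at this; exact this
  have u5 : (350000 - 17640000 / 53 : ℝ) ≤ arQ 5 := by
    have := (Rat.cast_le (K := ℝ)).2 v5; push_cast at this; exact this
  have u6 : (350000 : ℝ) ≤ arQ 6 := by exact_mod_cast v6
  have u7 : (350000 : ℝ) ≤ arQ 7 := by exact_mod_cast v7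
  have u8 : (350000 : ℝ) ≤ arQ 8 := by exact_mod_cast v8
  have u9 : (350000 : ℝ) ≤ arQ 9 := by exact_mod_cast v9
  have u10 : (arQ 10 + arQ 11 + arQ 12 + arQ 13 + arQ 14 + arQ 15 : ℝ) =
      23760000 - 6615000 / 23 - 17640000 / 53 := by
    have := congrArg (fun x : ℚ => (x : ℝ)) v10; push_cast at this; exact this
  have ex : ∀ g : Fin 16 → ℝ, ∑ k, g k = g 0 + g 1 + g 2 + g 3 + g 4 + g 5 + g 6 + g 7 + g 8 + g 9 +
      g 10 + g 11 + g 12 + g 13 + g 14 + g 15 := by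
    intro g
    simp only [Fin.sum_univ_succ, Fin.sum_univ_zero]
    simp only [Fin.succ_zero_eq_one, Fin.succ_one_eq_two, Fin.reduceSucc]
    ring
  rw [ex, f10, f11, f12, f13, f14, f15, u0, u1, u2, u3] at h1
  have g : ∀ (k : Fin 16) (w : ℝ), w ≤ arQ k → w * (1 - dl U k) ≤ arQ k * (1 - dl U k) :=
    fun k w hw => mul_le_mul_of_nonneg_right hw (by linarith [dl_le_one U k])
  have g4 := g 4 _ u4
  have g5 := g 5 _ u5
  have g6 := g 6 _ u6
  have g7 := g 7 _ u7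
  have g8 := g 8 _ u8
  have g9 := g 9 _ u9
  have := hb 6
  have := hb 7
  have := hb 8
  have := hb 9
  linarith

/-- the eight supporting lines of the octagon -/
def kl : Fin 8 → ℝ × ℝ × ℝ :=
  ![(-2500, -771, 1260000), (-4, -3, 0), (0, -1, 0), (2500, -2829, 6240000), (4, -3, 12000),
    (4, 3, 28800), (-28, 117, 529800), (-4, 3, 12600)]

/-- the octagon -/
def K : Set ℂ := {z | ∀ m, aff (kl m) z ≤ 0}
/-- the open octagon -/
def Ko : Set ℂ := {z | ∀ m, aff (kl m) z < 0}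

lemma mem_K {z : ℂ} : z ∈ K ↔ -2500 * z.re - 771 * z.im ≤ 1260000 ∧ -4 * z.re - 3 * z.im ≤ 0 ∧
    0 ≤ z.im ∧ 2500 * z.re - 2829 * z.im ≤ 6240000 ∧ 4 * z.re - 3 * z.im ≤ 12000 ∧
    4 * z.re + 3 * z.im ≤ 28800 ∧ -28 * z.re + 117 * z.im ≤ 529800 ∧
    -4 * z.re + 3 * z.im ≤ 12600 := by
  simp only [K, mem_ofPred_eq, Fin.forall_fin_succ, kl, aff]
  simp

lemma mem_Ko {z : ℂ} : z ∈ Ko ↔ -2500 * z.re - 771 * z.im < 1260000 ∧ -4 * z.re - 3 * z.im < 0 ∧
    0 < z.im ∧ 2500 * z.re - 2829 * z.im < 6240000 ∧ 4 * z.re - 3 * z.im < 12000 ∧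
    4 * z.re + 3 * z.im < 28800 ∧ -28 * z.re + 117 * z.im < 529800 ∧
    -4 * z.re + 3 * z.im < 12600 := by
  simp only [Ko, mem_ofPred_eq, Fin.forall_fin_succ, kl, aff]
  simp
  constructor <;> rintro ⟨a, b, c, d, e, f, g, h⟩ <;>
    exact ⟨by linarith, by linarith, by linarith, by linarith, by linarith, by linarith,
      by linarith, by linarith⟩

lemma Ko_subset_K : Ko ⊆ K := fun _ hz m => (hz m).le

lemma isOpen_Ko : IsOpen Ko := by
  have : Ko = ⋂ m, {z | aff (kl m) z < 0} := by ext z; simp [Ko]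
  rw [this]
  exact isOpen_iInter_of_finite fun m => isOpen_lt (continuous_aff _) continuous_const

lemma isClosed_K : IsClosed K := by
  have : K = ⋂ m, {z | aff (kl m) z ≤ 0} := by ext z; simp [K]
  rw [this]
  exact isClosed_iInter fun m => isClosed_le (continuous_aff _) continuous_const

lemma aff_comb (h : ℝ × ℝ × ℝ) (p q : ℂ) {a b : ℝ} (hab : a + b = 1) :
    aff h (a • p + b • q) = a * aff h p + b * aff h q := by
  unfold aff; simp; linear_combination (h.2.2) * hab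

lemma convex_K : Convex ℝ K := by
  intro p hp q hq a b ha hb hab m
  rw [aff_comb _ _ _ hab]
  nlinarith [hp m, hq m]

lemma convex_Ko : Convex ℝ Ko := by
  intro p hp q hq a b ha hb hab m
  rw [aff_comb _ _ _ hab]
  rcases ha.eq_or_lt with rfl | ha'
  · have : b = 1 := by linarith
    rw [this]; linarith [hq m]
  · nlinarith [hp m, hq m]

/-- a reference point of the octagon -/
def o : ℂ := ⟨1800, 2500⟩

lemma dist_coord {z w : ℂ} {r : ℝ} (h : dist z w ≤ r) :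
    |z.re - w.re| ≤ r ∧ |z.im - w.im| ≤ r := by
  rw [Complex.dist_eq] at h
  exact ⟨by simpa using (Complex.abs_re_le_norm (z - w)).trans h,
    by simpa using (Complex.abs_im_le_norm (z - w)).trans h⟩

lemma ball_subset_Ko : Metric.closedBall o 2 ⊆ Ko := by
  intro z hz
  obtain ⟨a, b⟩ := dist_coord (Metric.mem_closedBall.1 hz)
  rw [abs_le] at a b
  simp only [o] at a b
  rw [mem_Ko]
  refine ⟨?_, ?_, ?_, ?_, ?_, ?_, ?_, ?_⟩ <;> linarith [a.1, a.2, b.1, b.2]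

lemma o_mem_Ko : o ∈ Ko := ball_subset_Ko (by simp)

lemma dist_le_coord {z w : ℂ} {a b : ℝ} (h1 : |z.re - w.re| ≤ a) (h2 : |z.im - w.im| ≤ b) :
    dist z w ≤ a + b := by
  rw [Complex.dist_eq]
  refine (Complex.norm_le_abs_re_add_abs_im _).trans ?_
  simp only [Complex.sub_re, Complex.sub_im]; linarith

lemma interior_K : interior K = Ko := by
  refine Subset.antisymm ?_ (interior_maximal Ko_subset_K isOpen_Ko)
  intro z hz m
  obtain ⟨ε, hε, hb⟩ := Metric.isOpen_iff.1 isOpen_interior z hz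
  have hle := interior_subset hz m
  rcases hle.lt_or_eq with h | h
  · exact h
  · exfalso
    set d := dist z o + 1 with hd
    have hd0 : 0 < d := by positivity
    set t := ε / (2 * d) with ht
    have ht0 : 0 < t := by positivity
    have hmem : (1 + t) • z + (-t) • o ∈ Metric.ball z ε := by
      rw [Metric.mem_ball, dist_eq_norm]
      have : (1 + t) • z + (-t) • o - z = t • (z - o) := by
        simp only [add_smul, one_smul, neg_smul, smul_sub]; abel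
      rw [this, norm_smul, Real.norm_eq_abs, abs_of_pos ht0, ← dist_eq_norm]
      have : t * d = ε / 2 := by rw [ht]; field_simp
      nlinarith
    have := interior_subset (hb hmem) m
    rw [aff_comb _ _ _ (by ring), h] at this
    nlinarith [o_mem_Ko m]

lemma sup_of_Ko {h : ℝ × ℝ × ℝ} (hh : ∀ z ∈ Ko, aff h z < 0) {z : ℂ} (hz : z ∈ K) :
    aff h z ≤ 0 := by
  by_contra hc
  push Not at hc
  have ho := hh o o_mem_Ko
  have hden : 0 < aff h z - aff h o := by linarith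
  set t := aff h z / (aff h z - aff h o) with ht
  have ht0 : 0 < t := div_pos hc hden
  have ht1 : t ≤ 1 := by rw [ht, div_le_one hden]; linarith
  have hmem : (1 - t) • z + t • o ∈ Ko := by
    intro m
    rw [aff_comb _ _ _ (by ring)]
    nlinarith [hz m, o_mem_Ko m]
  have := hh _ hmem
  rw [aff_comb _ _ _ (by ring)] at this
  have e : t * (aff h z - aff h o) = aff h z := by rw [ht]; field_simp
  nlinarith

lemma Sup_of_K {h : ℝ × ℝ × ℝ} (hh : ∀ z ∈ K, aff h z ≤ 0) : Sup h := by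
  refine ⟨hh _ ?_, hh _ ?_, hh _ ?_, hh _ ?_, hh _ ?_, hh _ ?_, hh _ ?_, hh _ ?_⟩ <;>
    rw [mem_K] <;> norm_num [qp, pX, pV1, pO, pY, pV3, pZ, pW, pV]

end Pool.Agent.P.MP_365d4e_co
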