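import Pool.Agent.P.MP_365d4e_co.Vis

set_option autoImplicit false

open Set

namespace Pool.Agent.P.MP_365d4e_co

/-- closed axis-parallel square -/
def sq (x0 y0 L : ℝ) : Set ℂ := {z | |z.re - x0| ≤ L ∧ |z.im - y0| ≤ L}

/-- four convex sets partitioning the complement of a square -/
def outer (x0 y0 L : ℝ) : Fin 4 → Set ℂ
  | 0 => {z | x0 + L < z.re} ∩ {z | y0 - L ≤ z.im}
  | 1 => {z | y0 + L < z.im} ∩ {z | z.re ≤ x0 + L}
  | 2 => {z | z.re < x0 - L} ∩ {z | z.im ≤ y0 + L}
  | 3 => {z | z.im < y0 - L} ∩ {z | x0 - L ≤ z.re}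

lemma outer_convex (x0 y0 L : ℝ) (k : Fin 4) : Convex ℝ (outer x0 y0 L k) := by
  fin_cases k
  · exact (convex_halfSpace_re_gt _).inter (convex_halfSpace_im_ge _)
  · exact (convex_halfSpace_im_gt _).inter (convex_halfSpace_re_le _)
  · exact (convex_halfSpace_re_lt _).inter (convex_halfSpace_im_le _)
  · exact (convex_halfSpace_im_lt _).inter (convex_halfSpace_re_ge _)

lemma outer_nonempty (x0 y0 L : ℝ) (k : Fin 4) : (outer x0 y0 L k).Nonempty := by
  fin_cases k
  · exact ⟨⟨x0 + L + 1, y0 - L⟩, by simp [outer]⟩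
  · exact ⟨⟨x0 + L, y0 + L + 1⟩, by simp [outer]⟩
  · exact ⟨⟨x0 - L - 1, y0 + L⟩, by simp [outer]⟩
  · exact ⟨⟨x0 - L, y0 - L - 1⟩, by simp [outer]⟩

lemma outer_disj (x0 y0 : ℝ) {L : ℝ} (hL : 0 ≤ L) :
    Pairwise fun k l => Disjoint (outer x0 y0 L k) (outer x0 y0 L l) := by
  intro k l hkl
  rw [Set.disjoint_left]
  intro z h1 h2
  fin_cases k <;> fin_cases l <;> simp only [outer, mem_inter_iff, mem_ofPred_eq] at h1 h2 <;>
    first | exact hkl rfl | linarith [h1.1, h1.2, h2.1, h2.2]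

lemma outer_sq (x0 y0 L : ℝ) (k : Fin 4) : Disjoint (sq x0 y0 L) (outer x0 y0 L k) := by
  rw [Set.disjoint_left]
  intro z h1 h2
  obtain ⟨a, b⟩ := h1
  rw [abs_le] at a b
  fin_cases k <;> simp only [outer, mem_inter_iff, mem_ofPred_eq] at h2 <;>
    linarith [a.1, a.2, b.1, b.2, h2.1, h2.2]

lemma mem_sq_of (x0 y0 L : ℝ) (hL : 0 ≤ L) {z : ℂ} (h : ∀ k, z ∉ outer x0 y0 L k) : z ∈ sq x0 y0 L := by
  have h0 := h 0
  have h1 := h 1
  have h2 := h 2
  have h3 := h 3
  simp only [outer, mem_inter_iff, mem_ofPred_eq, not_and, not_le] at h0 h1 h2 h3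
  have a : z.re ≤ x0 + L := by
    by_contra a; push Not at a
    have b := h0 a
    have := h3 b
    linarith
  have b : z.im ≤ y0 + L := by
    by_contra b; push Not at b
    have := h1 b; linarith
  have c : x0 - L ≤ z.re := by
    by_contra c; push Not at c
    have := h2 c; linarith
  have d : y0 - L ≤ z.im := by
    by_contra d; push Not at d
    have := h3 d; linarith
  exact ⟨abs_le.2 ⟨by linarith, by linarith⟩, abs_le.2 ⟨by linarith, by linarith⟩⟩

lemma exists_maximal_family {ι : Type} (A : ι → Set ℂ) (S : Set ℂ)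
    (hA : ∀ i, IsOpen (A i) ∧ Convex ℝ (A i)) (hd : Pairwise fun i j => Disjoint (A i) (A j))
    (hs : ∀ i, A i ⊆ S) :
    ∃ U : ι → Set ℂ, (∀ i, IsOpen (U i) ∧ Convex ℝ (U i) ∧ A i ⊆ U i ∧ U i ⊆ S) ∧
      (Pairwise fun i j => Disjoint (U i) (U j)) ∧
      ∀ i V, IsOpen V → Convex ℝ V → U i ⊆ V → V ⊆ S → (∀ j, j ≠ i → Disjoint V (U j)) → V = U i := by
  classical
  let 𝒮 : Set (ι → Set ℂ) := {U | (∀ i, IsOpen (U i) ∧ Convex ℝ (U i) ∧ A i ⊆ U i ∧ U i ⊆ S) ∧
      (Pairwise fun i j => Disjoint (U i) (U j))}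
  have hA' : A ∈ 𝒮 := ⟨fun i => ⟨(hA i).1, (hA i).2, subset_rfl, hs i⟩, hd⟩
  obtain ⟨U, -, hU⟩ := zorn_le_nonempty₀ 𝒮 (fun c hc hch V hV => by
    refine ⟨fun i => ⋃ V ∈ c, V i, ⟨fun i => ⟨?_, ?_, ?_, ?_⟩, ?_⟩, ?_⟩
    · exact isOpen_biUnion fun V hV => ((hc hV).1 i).1
    · intro p hp q hq a b ha hb hab
      simp only [mem_iUnion] at hp hq ⊢
      obtain ⟨V1, h1, hp⟩ := hp
      obtain ⟨V2, h2, hq⟩ := hq
      rcases hch.total h1 h2 with h | h
      · exact ⟨V2, h2, ((hc h2).1 i).2.1 (h i hp) hq ha hb hab⟩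
      · exact ⟨V1, h1, ((hc h1).1 i).2.1 hp (h i hq) ha hb hab⟩
    · exact (((hc hV).1 i).2.2.1).trans (subset_biUnion_of_mem (u := fun V => V i) hV)
    · exact iUnion₂_subset fun V hV => ((hc hV).1 i).2.2.2
    · intro i j hij
      rw [Set.disjoint_left]
      intro z hp hq
      simp only [mem_iUnion] at hp hq
      obtain ⟨V1, h1, hp⟩ := hp
      obtain ⟨V2, h2, hq⟩ := hq
      rcases hch.total h1 h2 with h | h
      · exact Set.disjoint_left.1 ((hc h2).2 hij) (h i hp) hq
      · exact Set.disjoint_left.1 ((hc h1).2 hij) hp (h j hq)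
    · intro V hV i
      exact subset_biUnion_of_mem (u := fun V => V i) hV) A hA'
  refine ⟨U, hU.prop.1, hU.prop.2, fun i V h1 h2 h3 h4 h5 => ?_⟩
  have hmem : Function.update U i V ∈ 𝒮 := by
    refine ⟨fun j => ?_, fun j k hjk => ?_⟩
    · by_cases hj : j = i
      · subst hj
        simp only [Function.update_self]
        exact ⟨h1, h2, (hU.prop.1 j).2.2.1.trans h3, h4⟩
      · simp only [Function.update_of_ne hj]; exact hU.prop.1 j
    · by_cases hj : j = i
      · subst hj
        simp only [Function.update_self, Function.update_of_ne hjk.symm]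
        exact h5 k hjk.symm
      · by_cases hk : k = i
        · subst hk
          simp only [Function.update_self, Function.update_of_ne hj]
          exact (h5 j hj).symm
        · simp only [Function.update_of_ne hj, Function.update_of_ne hk]
          exact hU.prop.2 hjk
  have hle : U ≤ Function.update U i V := by
    intro j
    by_cases hj : j = i
    · subst hj; simpa using h3
    · simp [Function.update_of_ne hj]
  have := hU.le_of_ge hmem hle i
  simp only [Function.update_self] at this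
  exact Subset.antisymm this h3

lemma open_hp {κ : Type} (J : Finset κ) (φ : κ → ℂ →L[ℝ] ℝ) (c : κ → ℝ) :
    IsOpen {z | ∀ j ∈ J, φ j z < c j} := by
  have : {z | ∀ j ∈ J, φ j z < c j} = ⋂ j ∈ J, {z | φ j z < c j} := by ext z; simp
  rw [this]
  exact isOpen_biInter_finset fun j _ => isOpen_lt (φ j).continuous continuous_const

lemma convex_hp {κ : Type} (J : Finset κ) (φ : κ → ℂ →L[ℝ] ℝ) (c : κ → ℝ) :
    Convex ℝ {z | ∀ j ∈ J, φ j z < c j} := by
  have : {z | ∀ j ∈ J, φ j z < c j} = ⋂ j ∈ J, {z | φ j z < c j} := by ext z; simp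
  rw [this]
  exact convex_iInter₂ fun j _ => convex_halfSpace_lt (φ j).toLinearMap.isLinear _

theorem FT {ι : Type} [Fintype ι] (A : ι → Set ℂ)
    (hA : ∀ i, IsOpen (A i) ∧ Convex ℝ (A i) ∧ (A i).Nonempty)
    (hd : Pairwise fun i j => Disjoint (A i) (A j)) (x0 y0 L : ℝ) (hL : 0 ≤ L)
    (hs : ∀ i, A i ⊆ sq x0 y0 L) :
    ∃ (J : ι → Finset (ι ⊕ Fin 4)) (φ : ι → ι ⊕ Fin 4 → ℂ →L[ℝ] ℝ) (c : ι → ι ⊕ Fin 4 → ℝ),
      (∀ i, A i ⊆ {z | ∀ j ∈ J i, φ i j z < c i j}) ∧
      (∀ i, {z | ∀ j ∈ J i, φ i j z < c i j} ⊆ sq x0 y0 L) ∧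
      (Pairwise fun i k => Disjoint {z | ∀ j ∈ J i, φ i j z < c i j}
        {z | ∀ j ∈ J k, φ k j z < c k j}) ∧
      ∑ i, (J i).card ≤ 6 * (Fintype.card ι + 4) := by
  classical
  obtain ⟨U, hU, hUd, hmax⟩ := exists_maximal_family A (sq x0 y0 L)
    (fun i => ⟨(hA i).1, (hA i).2.1⟩) hd hs
  let W : ι ⊕ Fin 4 → Set ℂ := Sum.elim U (outer x0 y0 L)
  have hWc : ∀ j, Convex ℝ (W j) := by
    rintro (j | j)
    · exact (hU j).2.1
    · exact outer_convex _ _ _ _
  have hWn : ∀ j, (W j).Nonempty := by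
    rintro (j | j)
    · exact (hA j).2.2.mono (hU j).2.2.1
    · exact outer_nonempty _ _ _ _
  have hWd : Pairwise fun i j => Disjoint (W i) (W j) := by
    rintro (i | i) (j | j) hij
    · exact hUd (fun h => hij (by rw [h]))
    · exact (outer_sq _ _ _ _).mono_left (hU i).2.2.2
    · exact ((outer_sq _ _ _ _).mono_left (hU j).2.2.2).symm
    · exact outer_disj _ _ hL (fun h => hij (by rw [h]))
  have hsep : ∀ (i : ι) (j : ι ⊕ Fin 4), ∃ (f : ℂ →L[ℝ] ℝ) (u : ℝ), j ≠ Sum.inl i →
      (∀ a ∈ U i, f a < u) ∧ ∀ b ∈ W j, u ≤ f b := by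
    intro i j
    by_cases hj : j = Sum.inl i
    · exact ⟨0, 0, fun h => (h hj).elim⟩
    · obtain ⟨f, u, h⟩ := geometric_hahn_banach_open (hU i).2.1 (hU i).1 (hWc j)
        (hWd (Ne.symm hj) : Disjoint (W (Sum.inl i)) (W j))
      exact ⟨f, u, fun _ => h⟩
  choose φ c hφ using hsep
  -- maximality in usable form
  have hmax' : ∀ i V, IsOpen V → Convex ℝ V → U i ⊆ V → (∀ j, j ≠ Sum.inl i → Disjoint V (W j)) →
      V = U i := by
    intro i V h1 h2 h3 h4
    refine hmax i V h1 h2 h3 (fun z hz => mem_sq_of _ _ _ hL fun k hk => ?_) fun j hj => ?_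
    · exact Set.disjoint_left.1 (h4 (Sum.inr k) (by simp)) hz hk
    · exact h4 (Sum.inl j) (fun h => hj (Sum.inl_injective h))
  have hall : ∀ i, {z | ∀ j ∈ Finset.univ.filter (fun j => j ≠ Sum.inl i), φ i j z < c i j} = U i := by
    intro i
    refine hmax' i _ (open_hp _ _ _) (convex_hp _ _ _) ?_ ?_
    · intro z hz j hj
      exact (hφ i j (Finset.mem_filter.1 hj).2).1 z hz
    · intro j hj
      rw [Set.disjoint_left]
      intro z h1 h2
      have := h1 j (Finset.mem_filter.2 ⟨Finset.mem_univ _, hj⟩)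
      exact absurd ((hφ i j hj).2 z h2) (not_le.2 this)
  -- a generic direction
  obtain ⟨θ, hθ⟩ : ∃ θ : ℝ, ∀ i j, j ≠ Sum.inl i → φ i j (θ + Complex.I) ≠ 0 := by
    obtain ⟨θ, hθ⟩ := (Finset.univ.image fun p : ι × (ι ⊕ Fin 4) =>
      -(φ p.1 p.2 Complex.I) / φ p.1 p.2 1).exists_notMem
    refine ⟨θ, fun i j hj h0 => ?_⟩
    have e1 : φ i j (θ + Complex.I) = θ * φ i j 1 + φ i j Complex.I := by
      rw [map_add, ← smul_eq_mul θ, ← map_smul]; simp
    rw [e1] at h0
    by_cases h1 : φ i j 1 = 0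
    · have h2 : φ i j Complex.I = 0 := by rw [h1] at h0; simpa using h0
      have hz : ∀ z, φ i j z = 0 := by
        intro z
        have : z = z.re • (1 : ℂ) + z.im • Complex.I := by simp
        rw [this, map_add, map_smul, map_smul, h1, h2]; simp
      obtain ⟨a, ha⟩ := hWn (Sum.inl i)
      obtain ⟨b, hb⟩ := hWn j
      have := ((hφ i j hj).1 a ha).trans_le ((hφ i j hj).2 b hb)
      rw [hz, hz] at this
      exact lt_irrefl _ this
    · apply hθ
      refine Finset.mem_image.2 ⟨(i, j), Finset.mem_univ _, ?_⟩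
      field_simp
      linarith
  set v : ℂ := θ + Complex.I with hv
  let P : ℝ × ℝ →ₗ[ℝ] ℂ := (LinearMap.fst ℝ ℝ ℝ).smulRight (1 : ℂ) + (LinearMap.snd ℝ ℝ ℝ).smulRight v
  have hP : ∀ x y : ℝ, P (x, y) = x + y • v := by intro x y; simp [P]
  have hPs : ∀ z : ℂ, P (z.re - θ * z.im, z.im) = z := by
    intro z; rw [hP]; apply Complex.ext <;> simp [hv] <;> ring
  let W' : ι ⊕ Fin 4 → Set (ℝ × ℝ) := fun j => P ⁻¹' W j
  have hW'c : ∀ j, Convex ℝ (W' j) := fun j => (hWc j).linear_preimage P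
  have hW'd : Pairwise fun i j => Disjoint (W' i) (W' j) := fun i j hij => (hWd hij).preimage P
  let J : ι → Finset (ι ⊕ Fin 4) := fun i =>
    Finset.univ.filter fun j => vis W' (Sum.inl i) j ∨ vis W' j (Sum.inl i)
  have hJne : ∀ i, ∀ j ∈ J i, j ≠ Sum.inl i := by
    intro i j hj
    rcases (Finset.mem_filter.1 hj).2 with ⟨x, h⟩ | ⟨x, h⟩
    · exact h.1.symm
    · exact h.1
  have hUV : ∀ i, U i ⊆ {z | ∀ j ∈ J i, φ i j z < c i j} := fun i z hz j hj =>
    (hφ i j (hJne i j hj)).1 z hz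
  -- strip representation
  have hstrip : ∀ i, {z | ∀ j ∈ J i, φ i j z < c i j} ∩ {z | ∃ t : ℝ, z + t • v ∈ U i} = U i := by
    intro i
    refine hmax' i _ ((open_hp _ _ _).inter ?_) ((convex_hp _ _ _).inter ?_) ?_ ?_
    · have : {z | ∃ t : ℝ, z + t • v ∈ U i} = ⋃ t : ℝ, (fun z => z + t • v) ⁻¹' U i := by
        ext z; simp
      rw [this]
      exact isOpen_iUnion fun t => (hU i).1.preimage (by fun_prop)
    · rintro p ⟨s, hp⟩ q ⟨t, hq⟩ a b ha hb hab
      refine ⟨a * s + b * t, ?_⟩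
      have := (hU i).2.1 hp hq ha hb hab
      convert this using 1
      simp only [smul_add, add_smul, smul_smul]; abel
    · intro z hz
      exact ⟨hUV i hz, 0, by simpa using hz⟩
    · intro j hj
      rw [Set.disjoint_left]
      rintro z ⟨h1, t, h2⟩ h3
      set x := z.re - θ * z.im
      have ez : P (x, z.im) = z := hPs z
      have ey : ∀ y : ℝ, P (x, y) = z + (y - z.im) • v := by
        intro y
        conv_rhs => rw [← ez]
        rw [hP, hP, sub_smul]
        simp [hv]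
      have m1 : (x, z.im + t) ∈ W' (Sum.inl i) := by
        change P _ ∈ U i
        rw [ey]; simpa using h2
      have m2 : (x, z.im) ∈ W' j := by
        change P _ ∈ W j
        rw [ez]; exact h3
      have hconv := convex_hp (J i) (φ i) (c i)
      have seg : ∀ y : ℝ, y ∈ uIcc z.im (z.im + t) → P (x, y) ∈ {z | ∀ j ∈ J i, φ i j z < c i j} := by
        intro y hy
        have hc2 : Convex ℝ {y : ℝ | P (x, y) ∈ {z | ∀ j ∈ J i, φ i j z < c i j}} := by
          intro a ha b hb s t hs ht hst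
          have := hconv ha hb hs ht hst
          simp only [mem_ofPred_eq] at this ⊢
          have e : P (x, s • a + t • b) = s • P (x, a) + t • P (x, b) := by
            rw [← map_smul, ← map_smul, ← map_add]
            congr 1
            ext
            · simp only [Prod.smul_mk, smul_eq_mul, Prod.mk_add_mk]
              linear_combination (-x) * hst
            · simp
          rw [e]; exact this
        refine hc2.ordConnected.uIcc_subset ?_ ?_ hy
        · change P (x, z.im) ∈ {z | ∀ j ∈ J i, φ i j z < c i j}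
          rw [ez]; exact h1
        · exact hUV i m1
      have fin : ∀ m y, (vis W' (Sum.inl i) m ∨ vis W' m (Sum.inl i)) → (x, y) ∈ W' m →
          y ∈ uIcc z.im (z.im + t) → False := by
        intro m y hm hy hyy
        have hmJ : m ∈ J i := Finset.mem_filter.2 ⟨Finset.mem_univ _, hm⟩
        exact absurd ((hφ i m (hJne i m hmJ)).2 _ hy) (not_le.2 (seg y hyy m hmJ))
      rcases lt_trichotomy t 0 with ht | ht | ht
      · obtain ⟨m, y, a1, a2, a3, a4⟩ := exists_vis_up hW'c hW'd hj.symm m1 m2 (by linarith)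
        exact fin m y (Or.inl a1) a2 (mem_uIcc.2 (Or.inr ⟨a3, a4⟩))
      · subst ht
        rw [add_zero] at m1
        exact Set.disjoint_left.1 (hW'd hj.symm) m1 m2
      · obtain ⟨m, y, a1, a2, a3, a4⟩ := exists_vis_down hW'c hW'd hj.symm m1 m2 (by linarith)
        exact fin m y (Or.inr a1) a2 (mem_uIcc.2 (Or.inl ⟨a3, a4⟩))
  have hV : ∀ i, {z | ∀ j ∈ J i, φ i j z < c i j} = U i := by
    intro i
    refine Subset.antisymm ?_ (hUV i)
    refine (convex_hp _ _ _).isPreconnected.subset_of_closure_inter_subset (hU i).1 ?_ ?_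
    · obtain ⟨a, ha⟩ := hWn (Sum.inl i)
      exact ⟨a, hUV i ha, ha⟩
    · rintro z ⟨hz1, hz2⟩
      by_contra hz
      rw [← hall i] at hz
      simp only [mem_ofPred_eq, not_forall, not_lt] at hz
      obtain ⟨j, hj, hzj⟩ := hz
      have hj' := (Finset.mem_filter.1 hj).2
      have hne := hθ i j hj'
      -- move a little along v
      obtain ⟨δ, hδ1, hδ2⟩ : ∃ δ : ℝ, z + δ • v ∈ {z | ∀ j ∈ J i, φ i j z < c i j} ∧
          0 < δ * φ i j v := by
        have hcont : Continuous fun s : ℝ => z + (s * φ i j v) • v := by fun_prop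
        have hop := (open_hp (J i) (φ i) (c i)).preimage hcont
        have h0 : (0 : ℝ) ∈ (fun s : ℝ => z + (s * φ i j v) • v) ⁻¹'
            {z | ∀ j ∈ J i, φ i j z < c i j} := by simpa using hz2
        obtain ⟨ε, hε, hb⟩ := Metric.isOpen_iff.1 hop 0 h0
        refine ⟨ε / 2 * φ i j v, hb ?_, ?_⟩
        · simp only [Metric.mem_ball, dist_zero_right, Real.norm_eq_abs]
          rw [abs_of_pos (by linarith)]; linarith
        · have := mul_self_pos.2 hne
          nlinarith
      have hop : IsOpen ((fun u => u + δ • v) ⁻¹' ({z | ∀ j ∈ J i, φ i j z < c i j} ∩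
          {z | c i j < φ i j z})) :=
        ((open_hp _ _ _).inter (isOpen_lt continuous_const (φ i j).continuous)).preimage (by fun_prop)
      have hzm : z ∈ (fun u => u + δ • v) ⁻¹' ({z | ∀ j ∈ J i, φ i j z < c i j} ∩
          {z | c i j < φ i j z}) := by
        refine ⟨hδ1, ?_⟩
        simp only [mem_ofPred_eq, map_add, map_smul, smul_eq_mul]
        linarith
      obtain ⟨u, ⟨hu1, hu2⟩, hu3⟩ := mem_closure_iff.1 hz1 _ hop hzm
      have : u + δ • v ∈ U i := by
        rw [← hstrip i]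
        exact ⟨hu1, -δ, by simpa using hu3⟩
      exact absurd ((hφ i j hj').1 _ this) (not_lt.2 (le_of_lt hu2))
  refine ⟨J, φ, c, fun i => ?_, fun i => ?_, fun i k hik => ?_, ?_⟩
  · rw [hV]; exact (hU i).2.2.1
  · rw [hV]; exact (hU i).2.2.2
  · beta_reduce; rw [hV, hV]; exact hUd hik
  · have hcv := card_vis hW'c hW'd
    set S := Finset.univ.filter (fun p : (ι ⊕ Fin 4) × (ι ⊕ Fin 4) => vis W' p.1 p.2)
    have h1 : ∀ i, (J i).card ≤ (S.filter fun p => p.1 = Sum.inl i).card +
        (S.filter fun p => p.2 = Sum.inl i).card := by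
      intro i
      have : J i ⊆ (S.filter fun p => p.1 = Sum.inl i).image Prod.snd ∪
          (S.filter fun p => p.2 = Sum.inl i).image Prod.fst := by
        intro j hj
        rcases (Finset.mem_filter.1 hj).2 with h | h
        · refine Finset.mem_union_left _ (Finset.mem_image.2 ⟨(Sum.inl i, j), ?_, rfl⟩)
          simp [S, h]
        · refine Finset.mem_union_right _ (Finset.mem_image.2 ⟨(j, Sum.inl i), ?_, rfl⟩)
          simp [S, h]
      exact (Finset.card_le_card this).trans ((Finset.card_union_le _ _).trans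
        (add_le_add Finset.card_image_le Finset.card_image_le))
    have h2 : ∀ g : (ι ⊕ Fin 4) × (ι ⊕ Fin 4) → ι ⊕ Fin 4,
        ∑ i : ι, (S.filter fun p => g p = Sum.inl i).card ≤ S.card := by
      intro g
      rw [← Finset.card_biUnion]
      · exact Finset.card_le_card (Finset.biUnion_subset.2 fun i _ => Finset.filter_subset _ _)
      · intro i _ k _ hik
        refine Finset.disjoint_filter.2 fun p _ h1 h2 => hik ?_
        exact Sum.inl_injective (h1.symm.trans h2)
    calc ∑ i, (J i).card ≤ ∑ i : ι, ((S.filter fun p => p.1 = Sum.inl i).card +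
          (S.filter fun p => p.2 = Sum.inl i).card) := Finset.sum_le_sum fun i _ => h1 i
      _ ≤ S.card + S.card := by
          rw [Finset.sum_add_distrib]; exact add_le_add (h2 Prod.fst) (h2 Prod.snd)
      _ ≤ 6 * (Fintype.card ι + 4) := by
          simp only [Fintype.card_sum, Fintype.card_fin] at hcv; omega

end Pool.Agent.P.MP_365d4e_co
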