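import Pool.Agent.P.MP_365d4e_co.Limit
import Pool.Agent.P.MP_365d4e_co.FT

set_option autoImplicit false

open Set Filter Topology MeasureTheory Metric

namespace Pool.Agent.P.MP_365d4e_co

lemma volr_box (s t : Set ℝ) :
    volume {z : ℂ | z.re ∈ s ∧ z.im ∈ t} = volume s * volume t := by
  have : {z : ℂ | z.re ∈ s ∧ z.im ∈ t} = Complex.measurableEquivRealProd ⁻¹' (s ×ˢ t) := by
    ext z; simp
  rw [this, Complex.volume_preserving_equiv_real_prod.measure_preimage_equiv,
    Measure.volume_eq_prod, Measure.prod_prod]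

lemma vol_sq (x0 y0 : ℝ) {L : ℝ} (hL : 0 ≤ L) : volume (sq x0 y0 L) = ENNReal.ofReal ((2 * L) ^ 2) := by
  have : sq x0 y0 L = {z : ℂ | z.re ∈ Icc (x0 - L) (x0 + L) ∧ z.im ∈ Icc (y0 - L) (y0 + L)} := by
    ext z; simp only [sq, mem_ofPred_eq, abs_le, mem_Icc]
    constructor <;> rintro ⟨⟨a, b⟩, c, d⟩ <;> exact ⟨⟨by linarith, by linarith⟩, by linarith, by linarith⟩
  rw [this, volr_box, Real.volume_Icc, Real.volume_Icc, ← ENNReal.ofReal_mul (by linarith)]
  congr 1; ring

lemma isClosed_sq (x0 y0 L : ℝ) : IsClosed (sq x0 y0 L) := by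
  have a : IsClosed {z : ℂ | |z.re - x0| ≤ L} := isClosed_le (by fun_prop) continuous_const
  have b : IsClosed {z : ℂ | |z.im - y0| ≤ L} := isClosed_le (by fun_prop) continuous_const
  exact a.inter b

lemma vol_aff_zero {h : ℝ × ℝ × ℝ} {w : ℂ} (hw : aff h w < 0) : volume {z | aff h z = 0} = 0 := by
  by_cases hn : h.1 ≠ 0 ∨ h.2.1 ≠ 0
  · refine measure_mono_null (fun z hz => ?_) (vol_line h.2.2 hn)
    simp only [mem_ofPred_eq, aff] at hz ⊢; linarith
  · push Not at hn
    have : {z | aff h z = 0} = ∅ := by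
      ext z
      simp only [aff, hn.1, hn.2, mem_ofPred_eq, mem_empty_iff_false, iff_false] at hw ⊢
      linarith
    rw [this]; simp

theorem cell_bound (f : ℕ → Iso) (hd : Pairwise fun i j => Disjoint (f i '' Ko) (f j '' Ko))
    (J : Finset ℕ) (x0 y0 : ℝ) {L η : ℝ} (hL : 0 ≤ L) (hη : 0 < η)
    (hJ : ∀ i ∈ J, |(f i o).re - x0| ≤ L ∧ |(f i o).im - y0| ≤ L) :
    ∃ (c : ℕ → Fin 4) (l : ℕ → ℝ) (X : Set ℂ) (B : ℝ), (∀ i, 0 ≤ l i) ∧ MeasurableSet X ∧
      volume X ≠ ⊤ ∧
      (∀ i ∈ J, ∀ j ∈ J, i ≠ j →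
        volume.real (f i '' (hexT (c i)).C ∩ f j '' (hexT (c j)).C) ≤ l i + l j) ∧
      (sq x0 y0 (L + 7000) \ ⋃ i, f i '' (hexT (c i)).C ⊆ X) ∧ 0 ≤ B ∧
      10000 * B ≤ (2 * (L + 7000)) ^ 2 + 24 * 350000 - 23760000 * J.card ∧
      ∑ i ∈ J, l i ≤ 350000 * (2 * η * J.card + B / η) ∧
      volume.real X ≤ (2 * (L + 7000)) ^ 2 - 23760000 * J.card + ∑ i ∈ J, l i := by
  classical
  obtain ⟨N, φ, b, h1, h2, h3, h4⟩ := FT (ι := J) (fun i => f i '' Ko)
    (fun i => ⟨(f i).toHomeomorph.isOpen_image.2 isOpen_Ko, convex_iso _ convex_Ko,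
      ⟨_, o, o_mem_Ko, rfl⟩⟩)
    (fun i j hij => hd (fun h => hij (Subtype.ext h))) x0 y0 (L + 7000) (by linarith) (by
      rintro i _ ⟨z, hz, rfl⟩
      have a := hexC_bound (K_subset_hexC 0 (Ko_subset_K hz))
      rw [← (f i).dist_eq] at a
      obtain ⟨a1, a2⟩ := dist_coord a
      obtain ⟨b1, b2⟩ := hJ i i.2
      rw [abs_le] at a1 a2 b1 b2
      exact ⟨abs_le.2 ⟨by linarith [a1.1, b1.1], by linarith [a1.2, b1.2]⟩,
        abs_le.2 ⟨by linarith [a2.1, b2.1], by linarith [a2.2, b2.2]⟩⟩)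
  have hh : ∀ (i : J) j, ∃ h : ℝ × ℝ × ℝ, ∀ z, φ i j (f i z) - b i j = aff h z := fun i j =>
    let ⟨n1, n2, c', h⟩ := iso_affine (f i) (φ i j) (b i j); ⟨(n1, n2, c'), h⟩
  choose h hh using hh
  set W : J → Set ℂ := fun i => {z | ∀ j ∈ N i, φ i j z < b i j} with hW
  set V : J → Set ℂ := fun i => {z | ∀ j ∈ N i, aff (h i j) z ≤ 0} with hV
  set Vo : J → Set ℂ := fun i => {z | ∀ j ∈ N i, aff (h i j) z < 0} with hVo
  have hWV : ∀ i, W i = f i '' Vo i := by
    intro i; ext z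
    obtain ⟨w, rfl⟩ := (f i).surjective z
    rw [(f i).injective.mem_set_image]
    simp only [hW, hVo, mem_ofPred_eq, ← hh, sub_neg]
  have hKo : ∀ i, Ko ⊆ Vo i := by
    intro i z hz
    have : f i z ∈ W i := h1 i ⟨z, hz, rfl⟩
    rw [hWV, (f i).injective.mem_set_image] at this
    exact this
  have hK : ∀ i, K ⊆ V i := fun i z hz j hj => sup_of_Ko (fun w hw => hKo i hw j hj) hz
  have hnull : ∀ i, volume (V i \ Vo i) = 0 := by
    intro i
    refine measure_mono_null (t := ⋃ j ∈ N i, {z | aff (h i j) z = 0}) ?_ ?_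
    · rintro z ⟨a, b⟩
      simp only [hVo, mem_ofPred_eq, not_forall, not_lt] at b
      obtain ⟨j, hj, b⟩ := b
      exact mem_biUnion hj (le_antisymm (a j hj) b)
    · exact (measure_biUnion_null_iff (N i).countable_toSet).2 fun j hj =>
        vol_aff_zero (hKo i o_mem_Ko j hj)
  have hae : ∀ i, Vo i =ᵐ[volume] V i := fun i =>
    ae_eq_set.2 ⟨by rw [sdiff_eq_empty.2 fun z hz j hj => (hz j hj).le]; simp, hnull i⟩
  have hQ : volume (sq x0 y0 (L + 7000)) ≠ ⊤ := by rw [vol_sq _ _ (by linarith)]; simp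
  have hQr : volume.real (sq x0 y0 (L + 7000)) = (2 * (L + 7000)) ^ 2 := by
    rw [Measure.real, vol_sq _ _ (by linarith), ENNReal.toReal_ofReal (by positivity)]
  have hWo : ∀ i, IsOpen (W i) := fun i => open_hp _ _ _
  have hWfin : ∀ i, volume (W i) ≠ ⊤ := fun i => ne_top_of_le_ne_top hQ (measure_mono (h2 i))
  have hVW : ∀ i, volume (V i) = volume (W i) := fun i => by
    rw [hWV, vol_iso, measure_congr (hae i)]
  have harea := fun i : J => area_bound (N i) (h i) (fun j hj => Sup_of_K fun z hz => hK i hz j hj)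
    (U := V i) rfl (by rw [hVW]; exact hWfin i)
  choose c hc using fun i : J => exists_type (hK i) hη
  let c' : ℕ → Fin 4 := fun i => if hi : i ∈ J then c ⟨i, hi⟩ else 0
  let l : ℕ → ℝ := fun i => if hi : i ∈ J then volume.real ((hexT (c ⟨i, hi⟩)).C \ V ⟨i, hi⟩) else 0
  have hc' : ∀ i : J, c' i = c i := fun i => dif_pos i.2
  have hl : ∀ i : J, l i = volume.real (f i '' (hexT (c i)).C \ W i) := by
    intro i
    have : l i = volume.real ((hexT (c i)).C \ V i) := dif_pos i.2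
    rw [this, hWV, ← image_sdiff (f i).injective, volr_iso]
    exact measureReal_congr ((ae_eq_refl _).diff (hae i).symm)
  have hl' : ∀ i : J, l i = volume.real ((hexT (c i)).C \ V i) := fun i => dif_pos i.2
  have hCfin : ∀ i : J, volume (f i '' (hexT (c i)).C) ≠ ⊤ := fun i => by
    rw [vol_iso]; exact vol_hexC_ne_top _
  have hCm : ∀ i : J, MeasurableSet (f i '' (hexT (c i)).C) := fun i =>
    ((f i).toHomeomorph.isClosed_image.2 (hexT (c i)).isClosed_C).measurableSet
  have hsumW : ∑ i, volume.real (W i) ≤ (2 * (L + 7000)) ^ 2 := by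
    rw [← hQr, ← measureReal_iUnion_fintype h3 (fun i => (hWo i).measurableSet) hWfin]
    exact measureReal_mono (iUnion_subset h2) hQ
  let Y : Set ℂ := ⋃ i : J, (f i '' (hexT (c i)).C ∩ W i)
  have hYm : MeasurableSet Y := MeasurableSet.iUnion fun i => (hCm i).inter (hWo i).measurableSet
  have hYQ : Y ⊆ sq x0 y0 (L + 7000) := iUnion_subset fun i => inter_subset_right.trans (h2 i)
  have hY : 23760000 * J.card - ∑ i : J, l i ≤ volume.real Y := by
    rw [measureReal_iUnion_fintype (fun i j hij => (h3 hij).mono inter_subset_right inter_subset_right)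
      (fun i => (hCm i).inter (hWo i).measurableSet)
      (fun i => ne_top_of_le_ne_top (hWfin i) (measure_mono inter_subset_right))]
    have : (23760000 * J.card : ℝ) = ∑ _i : J, (23760000 : ℝ) := by simp [mul_comm]
    rw [this, ← Finset.sum_sub_distrib]
    refine Finset.sum_le_sum fun i _ => ?_
    have e := measureReal_inter_add_sdiff (μ := volume) (s := f i '' (hexT (c i)).C)
      (hWo i).measurableSet (hCfin i)
    rw [volr_iso, ← hl] at e
    linarith [volr_hexC (c i)]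
  refine ⟨c', l, sq x0 y0 (L + 7000) \ Y,
    ∑ i : J, (dl (V i) 0 * dl (V i) 1 + dl (V i) 2 * dl (V i) 3), fun i => ?_,
    (isClosed_sq _ _ _).measurableSet.diff hYm,
    ne_top_of_le_ne_top hQ (measure_mono sdiff_subset), fun i hi j hj hij => ?_, ?_, ?_, ?_, ?_, ?_⟩
  · simp only [l]; split_ifs
    · exact measureReal_nonneg
    · exact le_rfl
  · have e1 := hc' ⟨i, hi⟩
    have e2 := hc' ⟨j, hj⟩
    have e3 := hl ⟨i, hi⟩
    have e4 := hl ⟨j, hj⟩
    simp only at e1 e2 e3 e4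
    rw [e1, e2, e3, e4]
    refine (measureReal_mono ?_ (measure_union_ne_top
      (ne_top_of_le_ne_top (hCfin ⟨i, hi⟩) (measure_mono sdiff_subset))
      (ne_top_of_le_ne_top (hCfin ⟨j, hj⟩) (measure_mono sdiff_subset)))).trans
      (measureReal_union_le _ _)
    rintro z ⟨a, b⟩
    by_cases hz : z ∈ W ⟨i, hi⟩
    · exact Or.inr ⟨b, Set.disjoint_left.1 (h3 (fun h => hij (congrArg Subtype.val h))) hz⟩
    · exact Or.inl ⟨a, hz⟩
  · refine sdiff_subset_sdiff_right (iUnion_subset fun i => inter_subset_left.trans ?_)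
    rw [← hc']
    exact subset_iUnion (fun i => f i '' (hexT (c' i)).C) i
  · exact Finset.sum_nonneg fun i _ => add_nonneg (mul_nonneg (dl_nonneg _ _) (dl_nonneg _ _))
      (mul_nonneg (dl_nonneg _ _) (dl_nonneg _ _))
  · have a := Finset.sum_le_sum fun (i : J) (_ : i ∈ Finset.univ) => harea i
    have e : ∀ i, volume.real (V i) = volume.real (W i) := fun i => by
      rw [Measure.real, hVW, Measure.real]
    simp only [e, Finset.sum_add_distrib, ← Finset.mul_sum, Finset.sum_sub_distrib,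
      Finset.sum_const, Finset.card_univ, Fintype.card_coe, nsmul_eq_mul] at a
    have b : (∑ i, ((N i).card : ℝ)) ≤ 6 * (J.card + 4) := by
      rw [Fintype.card_coe] at h4; exact_mod_cast h4
    rw [Finset.sum_add_distrib]
    linarith
  · rw [← Finset.sum_coe_sort J l]
    have a := Finset.sum_le_sum fun (i : J) (_ : i ∈ Finset.univ) => (hl' i).trans_le (hc i)
    refine a.trans (le_of_eq ?_)
    rw [← Finset.mul_sum, Finset.sum_add_distrib, ← Finset.sum_div]
    simp [mul_comm]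
  · rw [← Finset.sum_coe_sort J l, measureReal_sdiff hYQ hYm hQ, hQr]
    linarith

end Pool.Agent.P.MP_365d4e_co
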