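import Pool.Agent.P.MP_365d4e_co.Tile
import Pool.Agent.P.MP_365d4e_co.Area

set_option autoImplicit false

open MeasureTheory Set

namespace Pool.Agent.P.MP_365d4e_co

def hv : Fin 4 → Fin 6 → ℤ × ℤ :=
  ![![(-1575, 2100), (0, 0), (3000, 0), (5100, 2800), (3225, 5300), (300, 4600)],
    ![(-1575, 2100), (0, 0), (2496, 0), (5325, 2500), (3225, 5300), (300, 4600)],
    ![(-1275, 2500), (-504, 0), (3000, 0), (5100, 2800), (3225, 5300), (300, 4600)],
    ![(-1275, 2500), (-504, 0), (2496, 0), (5325, 2500), (3225, 5300), (300, 4600)]]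

def hz (c : Fin 4) (k : ZMod 6) : ℤ × ℤ := hv c k

def zp (p : ℤ × ℤ) : ℂ := ⟨p.1, p.2⟩

def crossZ (p q r : ℤ × ℤ) : ℤ := (q.1 - p.1) * (r.2 - p.2) - (q.2 - p.2) * (r.1 - p.1)
def dotZ (p q r : ℤ × ℤ) : ℤ := (q.1 - p.1) * (r.1 - p.1) + (q.2 - p.2) * (r.2 - p.2)

lemma cross_zp (p q r : ℤ × ℤ) : cross (zp q - zp p) (zp r - zp p) = (crossZ p q r : ℝ) := by
  simp [cross, zp, crossZ]
lemma dot_zp (p q r : ℤ × ℤ) : dot (zp q - zp p) (zp r - zp p) = (dotZ p q r : ℝ) := by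
  simp [dot, zp, dotZ]

lemma hz_conv : ∀ (c : Fin 4) (k j : ZMod 6), j ≠ k → j ≠ k + 1 →
    0 < crossZ (hz c k) (hz c (k + 1)) (hz c j) := by decide +kernel
lemma hz_obt : ∀ (c : Fin 4) (k : ZMod 6), dotZ (hz c k) (hz c (k + 1)) (hz c (k - 1)) < 0 := by
  decide +kernel

/-- the four minimal circumscribed hexagons -/
def hexT (c : Fin 4) : Tile where
  V := fun k => zp (hz c k)
  o := 1
  ho := Or.inl rfl
  conv := by
    intro k j h1 h2
    rw [cross_zp, one_mul]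
    exact_mod_cast hz_conv c k j h1 h2
  obt := by
    intro k
    rw [dot_zp]
    exact_mod_cast hz_obt c k

def klZ : Fin 8 → ℤ × ℤ × ℤ :=
  ![(-2500, -771, 1260000), (-4, -3, 0), (0, -1, 0), (2500, -2829, 6240000), (4, -3, 12000),
    (4, 3, 28800), (-28, 117, 529800), (-4, 3, 12600)]

lemma kl_eq (m : Fin 8) : kl m = (((klZ m).1 : ℝ), ((klZ m).2.1 : ℝ), ((klZ m).2.2 : ℝ)) := by
  fin_cases m <;> simp [kl, klZ]

def lnv : Fin 4 → Fin 6 → Fin 8 × ℤ :=
  ![![(1, 525), (2, 3000), (4, 700), (5, 625), (6, 25), (7, 625)],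
    ![(1, 525), (2, 2496), (3, 1), (5, 700), (6, 25), (7, 625)],
    ![(0, 1), (2, 3504), (4, 700), (5, 625), (6, 25), (7, 525)],
    ![(0, 1), (2, 3000), (3, 1), (5, 700), (6, 25), (7, 525)]]

def ln (c : Fin 4) (k : ZMod 6) : Fin 8 × ℤ := lnv c k

lemma ln_spec : ∀ (c : Fin 4) (k : ZMod 6), 0 < (ln c k).2 ∧
    (hz c (k + 1)).2 - (hz c k).2 = (ln c k).2 * (klZ (ln c k).1).1 ∧
    (hz c (k + 1)).1 - (hz c k).1 = -((ln c k).2 * (klZ (ln c k).1).2.1) ∧
    (klZ (ln c k).1).1 * (hz c k).1 + (klZ (ln c k).1).2.1 * (hz c k).2 = (klZ (ln c k).1).2.2 := by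
  decide +kernel

lemma hex_val (c : Fin 4) (k : ZMod 6) (z : ℂ) :
    (hexT c).val k z = -(((ln c k).2 : ℝ) * aff (kl (ln c k).1) z) := by
  obtain ⟨-, h1, h2, h3⟩ := ln_spec c k
  have h1' := congrArg (fun x : ℤ => (x : ℝ)) h1
  have h2' := congrArg (fun x : ℤ => (x : ℝ)) h2
  have h3' := congrArg (fun x : ℤ => (x : ℝ)) h3
  push_cast at h1' h2' h3'
  rw [kl_eq]
  simp only [Tile.val, Tile.e, hexT, cross, zp, aff, Complex.sub_re, Complex.sub_im, one_mul]
  rw [h1', h2', ← h3']; ring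

lemma mem_hexC {c : Fin 4} {z : ℂ} : z ∈ (hexT c).C ↔ ∀ k, aff (kl (ln c k).1) z ≤ 0 := by
  refine forall_congr' fun k => ?_
  have : (0 : ℝ) < (ln c k).2 := by exact_mod_cast (ln_spec c k).1
  rw [hex_val, neg_nonneg]
  exact ⟨fun h => by by_contra hc; push Not at hc; nlinarith [mul_pos this hc],
    fun h => mul_nonpos_of_nonneg_of_nonpos this.le h⟩

lemma mem_hexO {c : Fin 4} {z : ℂ} : z ∈ (hexT c).O ↔ ∀ k, aff (kl (ln c k).1) z < 0 := by
  refine forall_congr' fun k => ?_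
  have : (0 : ℝ) < (ln c k).2 := by exact_mod_cast (ln_spec c k).1
  rw [hex_val, neg_pos]
  exact ⟨fun h => by by_contra hc; push Not at hc; nlinarith [mul_nonneg this.le hc],
    fun h => mul_neg_of_pos_of_neg this h⟩

lemma Ko_subset_hexO (c : Fin 4) : Ko ⊆ (hexT c).O := fun _ hz => mem_hexO.2 fun _ => hz _
lemma K_subset_hexC (c : Fin 4) : K ⊆ (hexT c).C := fun _ hz => mem_hexC.2 fun _ => hz _

lemma hexC_lines {c : Fin 4} {z : ℂ} (h : z ∈ (hexT c).C) :
    (0 ≤ z.im ∧ 4 * z.re + 3 * z.im ≤ 28800 ∧ -28 * z.re + 117 * z.im ≤ 529800 ∧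
      -4 * z.re + 3 * z.im ≤ 12600) ∧
    (if c = 0 ∨ c = 1 then -4 * z.re - 3 * z.im ≤ 0 else -2500 * z.re - 771 * z.im ≤ 1260000) ∧
    (if c = 0 ∨ c = 2 then 4 * z.re - 3 * z.im ≤ 12000 else 2500 * z.re - 2829 * z.im ≤ 6240000) := by
  rw [mem_hexC] at h
  have h0 := h 0
  have h1 := h 1
  have h2 := h 2
  have h3 := h 3
  have h4 := h 4
  have h5 := h 5
  have e : ∀ c : Fin 4, (ln c 0).1 = (if c = 0 ∨ c = 1 then 1 else 0) ∧ (ln c 1).1 = 2 ∧
      (ln c 2).1 = (if c = 0 ∨ c = 2 then 4 else 3) ∧ (ln c 3).1 = 5 ∧ (ln c 4).1 = 6 ∧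
      (ln c 5).1 = 7 := by decide
  obtain ⟨e0, e1, e2, e3, e4, e5⟩ := e c
  rw [e0] at h0; rw [e1] at h1; rw [e2] at h2; rw [e3] at h3; rw [e4] at h4; rw [e5] at h5
  simp only [kl, aff] at h1 h3 h4 h5
  simp at h1 h3 h4 h5
  refine ⟨⟨h1, by linarith, by linarith, by linarith⟩, ?_, ?_⟩
  · split_ifs at h0 ⊢ <;> simp [kl, aff] at h0 <;> linarith
  · split_ifs at h2 ⊢ <;> simp [kl, aff] at h2 <;> linarith

lemma hexC_bound {c : Fin 4} {z : ℂ} (h : z ∈ (hexT c).C) : dist z o ≤ 7000 := by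
  obtain ⟨⟨a, b, d, e⟩, f, g⟩ := hexC_lines h
  have : |z.re - o.re| ≤ 3800 ∧ |z.im - o.im| ≤ 3200 := by
    simp only [o, abs_le]
    split_ifs at f g <;> refine ⟨⟨?_, ?_⟩, ?_, ?_⟩ <;> linarith
  linarith [dist_le_coord this.1 this.2]

lemma isCompact_hexC (c : Fin 4) : IsCompact (hexT c).C :=
  (isCompact_closedBall o 7000).of_isClosed_subset (hexT c).isClosed_C fun _ h => hexC_bound h

lemma isCompact_K : IsCompact K :=
  (isCompact_hexC 0).of_isClosed_subset isClosed_K (K_subset_hexC 0)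

lemma vol_hexC_ne_top (c : Fin 4) : volume (hexT c).C ≠ ⊤ := (isCompact_hexC c).measure_lt_top.ne

lemma K_fan {z : ℂ} (h : z ∈ K) :
    z ∈ tri 10 ∨ z ∈ tri 11 ∨ z ∈ tri 12 ∨ z ∈ tri 13 ∨ z ∈ tri 14 ∨ z ∈ tri 15 := by
  obtain ⟨a1, a2, a3, a4, a5, a6, a7, a8⟩ := mem_K.1 h
  by_cases c1 : 211500 * z.im ≤ 70000 * z.re
  · left
    change z ∈ ctri (qp pO) (qp pY) (qp pV3)
    apply mem_ctri <;> simp [cross, qp, pO, pY, pV3] <;> linarith
  by_cases c2 : 5100 * z.im ≤ 2800 * z.re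
  · right; left
    change z ∈ ctri (qp pO) (qp pV3) (qp pZ)
    apply mem_ctri <;> simp [cross, qp, pO, pZ, pV3] <;> linarith
  by_cases c3 : 3225 * z.im ≤ 5300 * z.re
  · right; right; left
    change z ∈ ctri (qp pO) (qp pZ) (qp pW)
    apply mem_ctri <;> simp [cross, qp, pO, pZ, pW] <;> linarith
  by_cases c4 : 300 * z.im ≤ 4600 * z.re
  · right; right; right; left
    change z ∈ ctri (qp pO) (qp pW) (qp pV)
    apply mem_ctri <;> simp [cross, qp, pO, pV, pW] <;> linarith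
  by_cases c5 : -1275 * z.im ≤ 2500 * z.re
  · right; right; right; right; left
    change z ∈ ctri (qp pO) (qp pV) (qp pX)
    apply mem_ctri <;> simp [cross, qp, pO, pV, pX] <;> linarith
  · right; right; right; right; right
    change z ∈ ctri (qp pO) (qp pX) (qp pV1)
    apply mem_ctri <;> simp [cross, qp, pO, pV1, pX] <;> linarith

lemma K_sup {h : ℝ × ℝ × ℝ} (hS : Sup h) {z : ℂ} (hz : z ∈ K) : aff h z ≤ 0 := by
  obtain ⟨hX, hV1, hO, hY, hV3, hZ, hW, hV⟩ := hS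
  rcases K_fan hz with a | a | a | a | a | a
  · exact aff_le_of_mem_ctri a hO hY hV3
  · exact aff_le_of_mem_ctri a hO hV3 hZ
  · exact aff_le_of_mem_ctri a hO hZ hW
  · exact aff_le_of_mem_ctri a hO hW hV
  · exact aff_le_of_mem_ctri a hO hV hX
  · exact aff_le_of_mem_ctri a hO hX hV1

def ea (c : Fin 4) : Fin 16 := if c = 0 ∨ c = 1 then 0 else 1
def ec (c : Fin 4) : Fin 16 := if c = 0 ∨ c = 2 then 2 else 3

lemma hexC_cover {c : Fin 4} {z : ℂ} (h : z ∈ (hexT c).C) :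
    z ∈ K ∨ z ∈ tri (ea c) ∨ z ∈ tri (ec c) := by
  obtain ⟨⟨a, b, d, e⟩, f, g⟩ := hexC_lines h
  unfold ea ec
  by_cases c1 : -4 * z.re - 3 * z.im ≤ 0 ∧ -2500 * z.re - 771 * z.im ≤ 1260000
  · by_cases c2 : 4 * z.re - 3 * z.im ≤ 12000 ∧ 2500 * z.re - 2829 * z.im ≤ 6240000
    · left; exact mem_K.2 ⟨c1.2, c1.1, a, c2.2, c2.1, b, d, e⟩
    · right; right
      split_ifs at g ⊢
      · have := not_le.1 fun x => c2 ⟨g, x⟩
        change z ∈ ctri (qp w3) (qp pY) (qp pV3)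
        rw [ctri_swap]
        apply mem_ctri <;> simp [cross, qp, w3, pY, pV3] <;> linarith
      · have := not_le.1 fun x => c2 ⟨x, g⟩
        change z ∈ ctri (qp w4) (qp pZ) (qp pV3)
        apply mem_ctri <;> simp [cross, qp, w4, pZ, pV3] <;> linarith
  · right; left
    split_ifs at f ⊢
    · have := not_le.1 fun x => c1 ⟨f, x⟩
      change z ∈ ctri (qp w1) (qp pX) (qp pV1)
      rw [ctri_swap]
      apply mem_ctri <;> simp [cross, qp, w1, pX, pV1] <;> linarith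
    · have := not_le.1 fun x => c1 ⟨x, f⟩
      change z ∈ ctri (qp w2) (qp pO) (qp pV1)
      apply mem_ctri <;> simp [cross, qp, w2, pO, pV1] <;> linarith

lemma volr_hexC (c : Fin 4) : 23760000 ≤ volume.real (hexT c).C := by
  have h := area_bound (Finset.univ : Finset (ZMod 6)) (fun k => kl (ln c k).1)
    (fun k _ => Sup_of_K fun z hz => hz _) (U := (hexT c).C)
    (by ext z; simp [mem_hexC]) (vol_hexC_ne_top c)
  have : ((Finset.univ : Finset (ZMod 6)).card : ℝ) = 6 := by simp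
  rw [this] at h
  have := mul_nonneg (dl_nonneg (hexT c).C 0) (dl_nonneg (hexT c).C 1)
  have := mul_nonneg (dl_nonneg (hexT c).C 2) (dl_nonneg (hexT c).C 3)
  linarith

/-- a set containing the octagon misses little of a suitable hexagon -/
lemma exists_type {U : Set ℂ} (hK : K ⊆ U) {η : ℝ} (hη : 0 < η) :
    ∃ c : Fin 4, volume.real ((hexT c).C \ U) ≤
      350000 * (2 * η + (dl U 0 * dl U 1 + dl U 2 * dl U 3) / η) := by
  have key : ∀ c : Fin 4, volume.real ((hexT c).C \ U) ≤ 350000 * (dl U (ea c) + dl U (ec c)) := by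
    intro c
    have hsub : (hexT c).C \ U ⊆ (tri (ea c) \ U) ∪ (tri (ec c) \ U) := by
      rintro z ⟨h1, h2⟩
      rcases hexC_cover h1 with a | a | a
      · exact absurd (hK a) h2
      · exact Or.inl ⟨a, h2⟩
      · exact Or.inr ⟨a, h2⟩
    have hfin : ∀ k, volume (tri k \ U) ≠ ⊤ := fun k =>
      ne_top_of_le_ne_top (vol_tri_ne_top k) (measure_mono sdiff_subset)
    refine (measureReal_mono hsub (measure_union_ne_top (hfin _) (hfin _))).trans
      ((measureReal_union_le _ _).trans ?_)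
    have e : ∀ k, arQ k ≤ 350000 → volume.real (tri k \ U) ≤ 350000 * dl U k := by
      intro k hk
      have hk' : (arQ k : ℝ) ≤ 350000 := by exact_mod_cast hk
      have : volume.real (tri k \ U) = arQ k * dl U k := by
        rw [dl, mul_div_cancel₀ _ (arQ_pos' k).ne']
      rw [this]
      exact mul_le_mul_of_nonneg_right hk' (dl_nonneg _ _)
    have q : ∀ c : Fin 4, arQ (ea c) ≤ 350000 ∧ arQ (ec c) ≤ 350000 := by decide +kernel
    linarith [e _ (q c).1, e _ (q c).2]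
  have m : ∀ a b : ℝ, 0 ≤ a → 0 ≤ b → a ≤ η + a * b / η ∨ b ≤ η + a * b / η := by
    intro a b ha hb
    have p : 0 ≤ a * b / η := by positivity
    by_cases h : b ≤ η
    · right; linarith
    · left
      push Not at h
      have : a ≤ a * b / η := by rw [le_div_iff₀ hη]; nlinarith
      linarith
  rw [add_div]
  rcases m _ _ (dl_nonneg U 0) (dl_nonneg U 1) with a | a <;>
    rcases m _ _ (dl_nonneg U 2) (dl_nonneg U 3) with b | b
  · exact ⟨0, (key 0).trans (by simp only [ea, ec]; simp; linarith)⟩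
  · exact ⟨1, (key 1).trans (by simp only [ea, ec]; simp; linarith)⟩
  · exact ⟨2, (key 2).trans (by simp only [ea, ec]; simp; linarith)⟩
  · exact ⟨3, (key 3).trans (by simp only [ea, ec]; simp; linarith)⟩

end Pool.Agent.P.MP_365d4e_co
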