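import Pool.Agent.P.MP_365d4e_co.Tiling
import Pool.Agent.P.MP_365d4e_co.Hex

set_option autoImplicit false

open Set

namespace Pool.Agent.P.MP_365d4e_co

def sgZ (b : Bool) : ℤ := if b then -1 else 1

lemma sg_sq (b : Bool) : (sgZ b : ℝ) * sgZ b = 1 := by cases b <;> simp [sgZ]

abbrev Mo := Bool × Bool × ℤ × ℤ

def Mo.app (g : Mo) (z : ℂ) : ℂ := ⟨sgZ g.1 * z.re + g.2.2.1, sgZ g.2.1 * z.im + g.2.2.2⟩

/-- isometries with diagonal linear part and integral translation part -/
noncomputable def rig (g : Mo) : Iso where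
  toFun := g.app
  invFun := fun z => ⟨sgZ g.1 * (z.re - g.2.2.1), sgZ g.2.1 * (z.im - g.2.2.2)⟩
  left_inv := by
    intro z
    apply Complex.ext
    · simp only [Mo.app]; linear_combination z.re * sg_sq g.1
    · simp only [Mo.app]; linear_combination z.im * sg_sq g.2.1
  right_inv := by
    intro z
    apply Complex.ext
    · simp only [Mo.app]; linear_combination (z.re - g.2.2.1) * sg_sq g.1
    · simp only [Mo.app]; linear_combination (z.im - g.2.2.2) * sg_sq g.2.1
  isometry_toFun := by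
    refine Isometry.of_dist_eq fun z w => ?_
    rw [Complex.dist_eq_re_im, Complex.dist_eq_re_im]
    congr 1
    simp only [Mo.app]
    linear_combination (z.re - w.re) ^ 2 * sg_sq g.1 + (z.im - w.im) ^ 2 * sg_sq g.2.1

lemma rig_apply (g : Mo) (z : ℂ) : rig g z = g.app z := rfl

def Mo.comp (g h : Mo) : Mo :=
  (xor g.1 h.1, xor g.2.1 h.2.1, sgZ g.1 * h.2.2.1 + g.2.2.1, sgZ g.2.1 * h.2.2.2 + g.2.2.2)

lemma rig_comp (g h : Mo) : rig (g.comp h) = (rig h).trans (rig g) := by
  ext1 z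
  obtain ⟨a, b, u, v⟩ := g
  obtain ⟨a', b', u', v'⟩ := h
  simp only [IsometryEquiv.trans_apply, rig_apply, Mo.app, Mo.comp]
  apply Complex.ext
  · cases a <;> cases a' <;> simp [sgZ] <;> ring
  · cases b <;> cases b' <;> simp [sgZ] <;> ring

def Mo.act (g : Mo) (p : ℤ × ℤ) : ℤ × ℤ := (sgZ g.1 * p.1 + g.2.2.1, sgZ g.2.1 * p.2 + g.2.2.2)

lemma rig_zp (g : Mo) (p : ℤ × ℤ) : rig g (zp p) = zp (g.act p) := by
  simp [rig_apply, Mo.app, Mo.act, zp]

lemma sgn_rig (g : Mo) : sgn (rig g) = ((sgZ g.1 * sgZ g.2.1 : ℤ) : ℝ) := by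
  simp [sgn, rig_apply, Mo.app, cross]

def cT (b : Bool) : Fin 4 := if b then 3 else 0

def gtv : Bool → Fin 6 → (Mo × Bool) × ZMod 6 × ZMod 6
  | false => ![(((true, false, -1275, -2500), true), 5, 1), (((false, true, 504, 0), true), 1, 1),
      (((true, false, 8325, -2500), true), 3, 1), (((false, true, 4800, 7400), false), 5, 1),
      (((true, true, 3525, 9900), true), 5, -1), (((false, true, -4800, 7400), false), 3, 1)]
  | true => ![(((true, true, -1779, 2500), true), 1, -1), (((false, true, -504, 0), false), 1, 1),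
      (((true, true, 7821, 2500), true), 3, -1), (((true, false, 8325, 2500), false), 2, 1),
      (((true, true, 3525, 9900), false), 5, -1), (((true, false, -1275, 2500), false), 0, 1)]

def gt (b : Bool) (k : ZMod 6) : (Mo × Bool) × ZMod 6 × ZMod 6 := gtv b k

lemma gt_spec : ∀ (b : Bool) (k : ZMod 6),
    (gt b k).1.1.act (hz (cT (gt b k).1.2) (gt b k).2.1) = hz (cT b) k ∧
    (gt b k).1.1.act (hz (cT (gt b k).1.2) ((gt b k).2.1 + (gt b k).2.2)) = hz (cT b) (k + 1) ∧
    ((gt b k).2.2 = 1 → sgZ (gt b k).1.1.1 * sgZ (gt b k).1.1.2.1 = -1) ∧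
    ((gt b k).2.2 = -1 → sgZ (gt b k).1.1.1 * sgZ (gt b k).1.1.2.1 = 1) := by decide +kernel

def ip (c : Fin 4) (k a b : ZMod 6) : ℤ := dotZ (hz c k) (hz c a) (hz c b)

def gram (a b c x y z : ℤ) : ℤ := a * b * c + 2 * x * y * z - a * z * z - b * y * y - c * x * x

lemma dead1 : ∀ (c1 : Fin 4) (j d : ZMod 6), (d = 1 ∨ d = -1) →
    ip 1 1 (1 + 1) (1 + 1) = ip c1 j (j + d) (j + d) → ∀ (c2 : Fin 4) (j' d' : ZMod 6),
    (d' = 1 ∨ d' = -1) → ip 1 1 (1 - 1) (1 - 1) = ip c2 j' (j' + d') (j' + d') →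
    ip c1 j (j - d) (j - d) = ip c2 j' (j' - d') (j' - d') → False := by decide +kernel

lemma dead2 : ∀ (c1 : Fin 4) (j d : ZMod 6), (d = 1 ∨ d = -1) →
    ip 2 2 (2 + 1) (2 + 1) = ip c1 j (j + d) (j + d) → ∀ (c2 : Fin 4) (j' d' : ZMod 6),
    (d' = 1 ∨ d' = -1) → ip 2 2 (2 - 1) (2 - 1) = ip c2 j' (j' + d') (j' + d') →
    ip c1 j (j - d) (j - d) = ip c2 j' (j' - d') (j' - d') → False := by decide +kernel

set_option synthInstance.maxSize 4000 in
lemma uniq : ∀ (b : Bool) (k : ZMod 6) (b1 : Bool) (j d : ZMod 6), (d = 1 ∨ d = -1) →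
    ip (cT b) k (k + 1) (k + 1) = ip (cT b1) j (j + d) (j + d) → ∀ (b2 : Bool) (j' d' : ZMod 6),
    (d' = 1 ∨ d' = -1) → ip (cT b) k (k - 1) (k - 1) = ip (cT b2) j' (j' + d') (j' + d') →
    ip (cT b1) j (j - d) (j - d) = ip (cT b2) j' (j' - d') (j' - d') →
    gram (ip (cT b) k (k + 1) (k + 1)) (ip (cT b) k (k - 1) (k - 1)) (ip (cT b1) j (j - d) (j - d))
      (ip (cT b) k (k + 1) (k - 1)) (ip (cT b1) j (j + d) (j - d))
      (ip (cT b2) j' (j' + d') (j' - d')) = 0 →
    b1 = (gt b k).1.2 ∧ j = (gt b k).2.1 ∧ d = (gt b k).2.2 := by decide +kernel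

section Main

variable {ι : Type} {F : ι → Iso} {c : ι → Fin 4}

lemma dot_V (F : ι → Iso) (c : ι → Fin 4) (i : ι) (k a b : ZMod 6) :
    dot (((hexT (c i)).map (F i)).V a - ((hexT (c i)).map (F i)).V k)
      (((hexT (c i)).map (F i)).V b - ((hexT (c i)).map (F i)).V k) = (ip (c i) k a b : ℝ) := by
  simp only [Tile.map, hexT]
  rw [dot_iso, dot_zp, ip]

lemma vc_of_nb (H : IsTiling fun i => (hexT (c i)).map (F i)) {i m : ι} {k j d : ZMod 6}
    (h : Nb (fun i => (hexT (c i)).map (F i)) i k m j d) :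
    ∃ (m' : ι) (j' d' : ZMod 6), (d = 1 ∨ d = -1) ∧ (d' = 1 ∨ d' = -1) ∧
      ip (c i) k (k + 1) (k + 1) = ip (c m) j (j + d) (j + d) ∧
      ip (c i) k (k - 1) (k - 1) = ip (c m') j' (j' + d') (j' + d') ∧
      ip (c m) j (j - d) (j - d) = ip (c m') j' (j' - d') (j' - d') ∧
      gram (ip (c i) k (k + 1) (k + 1)) (ip (c i) k (k - 1) (k - 1)) (ip (c m) j (j - d) (j - d))
        (ip (c i) k (k + 1) (k - 1)) (ip (c m) j (j + d) (j - d))
        (ip (c m') j' (j' + d') (j' - d')) = 0 := by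
  obtain ⟨m', j', d', hd', b1, b2, b3⟩ := H.vertex h
  obtain ⟨-, a1, a2, hd⟩ := h
  beta_reduce at a1 a2 b1 b2 b3
  have e1 := dot_V F c i k (k + 1) (k + 1)
  have e2 := dot_V F c i k (k - 1) (k - 1)
  have e3 := dot_V F c i k (k + 1) (k - 1)
  have f1 := dot_V F c m j (j + d) (j + d)
  have f2 := dot_V F c m j (j - d) (j - d)
  have f3 := dot_V F c m j (j + d) (j - d)
  have g1 := dot_V F c m' j' (j' + d') (j' + d')
  have g2 := dot_V F c m' j' (j' - d') (j' - d')
  have g3 := dot_V F c m' j' (j' + d') (j' - d')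
  simp only [a1, a2, b1, b2, b3] at f1 f2 f3 g1 g2 g3
  refine ⟨m', j', d', hd.imp And.left And.left, hd', ?_, ?_, ?_, ?_⟩
  · exact_mod_cast e1.symm.trans f1
  · exact_mod_cast e2.symm.trans g1
  · exact_mod_cast f2.symm.trans g2
  · have : ((gram (ip (c i) k (k + 1) (k + 1)) (ip (c i) k (k - 1) (k - 1))
        (ip (c m) j (j - d) (j - d)) (ip (c i) k (k + 1) (k - 1)) (ip (c m) j (j + d) (j - d))
        (ip (c m') j' (j' + d') (j' - d')) : ℤ) : ℝ) = 0 := by
      unfold gram
      push_cast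
      rw [← e1, ← e2, ← e3, ← f2, ← f3, ← g3]
      unfold dot
      ring
    exact_mod_cast this

lemma alive (H : IsTiling fun i => (hexT (c i)).map (F i)) (i : ι) : ∃ b, c i = cT b := by
  have h4 : ∀ x : Fin 4, x = cT false ∨ x = 1 ∨ x = 2 ∨ x = cT true := by decide
  rcases h4 (c i) with h | h | h | h
  · exact ⟨_, h⟩
  · obtain ⟨m, j, d, hnb⟩ := H.nb_exists i 1
    obtain ⟨m', j', d', a, b, e1, e2, e3, -⟩ := vc_of_nb H hnb
    rw [h] at e1 e2
    exact (dead1 _ _ _ a e1 _ _ _ b e2 e3).elim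
  · obtain ⟨m, j, d, hnb⟩ := H.nb_exists i 2
    obtain ⟨m', j', d', a, b, e1, e2, e3, -⟩ := vc_of_nb H hnb
    rw [h] at e1 e2
    exact (dead2 _ _ _ a e1 _ _ _ b e2 e3).elim
  · exact ⟨_, h⟩

lemma nb_det (H : IsTiling fun i => (hexT (c i)).map (F i)) {i m : ι} {k j d : ZMod 6}
    (h : Nb (fun i => (hexT (c i)).map (F i)) i k m j d) {b : Bool} (hb : c i = cT b) :
    c m = cT (gt b k).1.2 ∧ F m = (rig (gt b k).1.1).trans (F i) := by
  obtain ⟨m', j', d', a, a', e1, e2, e3, e4⟩ := vc_of_nb H h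
  obtain ⟨b1, hb1⟩ := alive H m
  obtain ⟨b2, hb2⟩ := alive H m'
  simp only [hb, hb1, hb2] at e1 e2 e3 e4
  obtain ⟨u1, u2, u3⟩ := uniq b k b1 j d a e1 b2 j' d' a' e2 e3 e4
  obtain ⟨s1, s2, s3, s4⟩ := gt_spec b k
  rw [← u1, ← u2] at s1 s2
  rw [← u3] at s2 s3 s4
  refine ⟨by rw [hb1, u1], ?_⟩
  obtain ⟨-, a1, a2, hd⟩ := h
  simp only [Tile.map, hexT, hb, hb1, mul_one] at a1 a2 hd
  have hne : zp (hz (cT b1) j) ≠ zp (hz (cT b1) (j + d)) := by
    intro h
    have := (hexT (cT b1)).V_inj h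
    rcases a with rfl | rfl
    · exact (z6 j).2.1 this.symm
    · exact (z6 j).2.2.2.2.1 (by rw [sub_eq_add_neg]; exact this.symm)
  refine iso_ext_two hne ?_ ?_ ?_
  · rw [a1, IsometryEquiv.trans_apply, rig_zp, s1]
  · rw [a2, IsometryEquiv.trans_apply, rig_zp, s2]
  · rw [sgn_trans, sgn_rig]
    rcases hd with ⟨h1, h2⟩ | ⟨h1, h2⟩
    · rw [h2, s3 h1]; simp
    · rw [h2, s4 h1]; simp

def step (s : Mo × Bool) (k : ZMod 6) : Mo × Bool := (s.1.comp (gt s.2 k).1.1, (gt s.2 k).1.2)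

def off : Bool → Bool → Bool → ℤ × ℤ
  | false, false, false => (0, 0)
  | false, true, false => (4800, 7400)
  | true, false, false => (4029, 9900)
  | true, true, false => (8829, 17300)
  | false, false, true => (5304, 7400)
  | false, true, true => (504, 0)
  | true, false, true => (8325, 17300)
  | true, true, true => (3525, 9900)

def Good (s : Mo × Bool) : Prop :=
  (s.1.2.2.1 - (off s.1.1 s.1.2.1 s.2).1) % 9600 = 0 ∧
    (s.1.2.2.2 - (off s.1.1 s.1.2.1 s.2).2) % 19800 = 0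

instance : DecidablePred Good := fun s => by unfold Good; infer_instance

lemma good_step_aux : ∀ (a b t : Bool) (k : ZMod 6),
    Good (step ((a, b, (off a b t).1, (off a b t).2), t) k) := by decide +kernel

lemma good_step {s : Mo × Bool} (h : Good s) (k : ZMod 6) : Good (step s k) := by
  obtain ⟨⟨a, b, u, v⟩, t⟩ := s
  have := good_step_aux a b t k
  simp only [Good, step, Mo.comp] at *
  omega

def Ex (F : ι → Iso) (c : ι → Fin 4) (i0 : ι) (s : Mo × Bool) : Prop :=
  ∃ i, F i = (rig s.1).trans (F i0) ∧ c i = cT s.2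

lemma ex_step (H : IsTiling fun i => (hexT (c i)).map (F i)) {i0 : ι} {s : Mo × Bool}
    (h : Ex F c i0 s) (k : ZMod 6) : Ex F c i0 (step s k) := by
  obtain ⟨i, h1, h2⟩ := h
  obtain ⟨m, j, d, hnb⟩ := H.nb_exists i k
  obtain ⟨a, b⟩ := nb_det H hnb h2
  refine ⟨m, ?_, a⟩
  rw [b, h1, step, rig_comp]; rfl

lemma step_eval (u v : ℤ) :
    step (step ((false, false, u, v), false) 2) 5 = ((false, false, u + 9600, v), false) ∧
    step (step ((false, false, u, v), false) 0) 3 = ((false, false, u - 9600, v), false) ∧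
    step (step (step (step ((false, false, u, v), false) 4) 1) 4) 1 =
      ((false, false, u, v + 19800), false) ∧
    step (step (step (step ((false, false, u, v), false) 1) 4) 1) 4 =
      ((false, false, u, v - 19800), false) ∧
    step ((false, false, u, v), false) 3 = ((false, true, u + 4800, v + 7400), false) ∧
    step (step ((false, false, u, v), false) 4) 1 = ((true, false, u + 4029, v + 9900), false) ∧
    step (step ((false, false, u, v), false) 2) 1 = ((true, true, u + 8829, v - 2500), false) ∧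
    step (step ((false, false, u, v), false) 3) 1 = ((false, false, u + 5304, v + 7400), true) ∧
    step ((false, false, u, v), false) 1 = ((false, true, u + 504, v), true) ∧
    step ((false, false, u, v), false) 2 = ((true, false, u + 8325, v - 2500), true) ∧
    step ((false, false, u, v), false) 4 = ((true, true, u + 3525, v + 9900), true) := by
  have g : gt false 0 = (((true, false, -1275, -2500), true), 5, 1) ∧
      gt false 1 = (((false, true, 504, 0), true), 1, 1) ∧
      gt false 2 = (((true, false, 8325, -2500), true), 3, 1) ∧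
      gt false 3 = (((false, true, 4800, 7400), false), 5, 1) ∧
      gt false 4 = (((true, true, 3525, 9900), true), 5, -1) ∧
      gt true 1 = (((false, true, -504, 0), false), 1, 1) ∧
      gt true 3 = (((true, false, 8325, 2500), false), 2, 1) ∧
      gt true 4 = (((true, true, 3525, 9900), false), 5, -1) ∧
      gt true 5 = (((true, false, -1275, 2500), false), 0, 1) :=
    ⟨rfl, rfl, rfl, rfl, rfl, rfl, rfl, rfl, rfl⟩
  obtain ⟨g0, g1, g2, g3, g4, g5, g6, g7, g8⟩ := g
  simp only [step, g0, g1, g2, g3, g4, g5, g6, g7, g8, Mo.comp, sgZ, Prod.mk.injEq]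
  simp
  omega

lemma ex_good (H : IsTiling fun i => (hexT (c i)).map (F i)) {i0 : ι} (h0 : c i0 = cT false)
    {s : Mo × Bool} (hs : Good s) : Ex F c i0 s := by
  have base : Ex F c i0 ((false, false, 0, 0), false) := by
    refine ⟨i0, ?_, h0⟩
    ext1 z
    simp [rig_apply, Mo.app, sgZ]
  have tr1 : ∀ m : ℤ, Ex F c i0 ((false, false, 9600 * m, 0), false) := by
    intro m
    induction m using Int.induction_on with
    | zero => exact base
    | succ n ih =>
      have := ex_step H (ex_step H ih 2) 5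
      rw [(step_eval _ _).1] at this
      rwa [mul_add, mul_one]
    | pred n ih =>
      have := ex_step H (ex_step H ih 0) 3
      rw [(step_eval _ _).2.1] at this
      rwa [mul_sub, mul_one]
  have tr : ∀ m n : ℤ, Ex F c i0 ((false, false, 9600 * m, 19800 * n), false) := by
    intro m n
    induction n using Int.induction_on with
    | zero => exact tr1 m
    | succ n ih =>
      have := ex_step H (ex_step H (ex_step H (ex_step H ih 4) 1) 4) 1
      rw [(step_eval _ _).2.2.1] at this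
      rwa [mul_add, mul_one]
    | pred n ih =>
      have := ex_step H (ex_step H (ex_step H (ex_step H ih 1) 4) 1) 4
      rw [(step_eval _ _).2.2.2.1] at this
      rwa [mul_sub, mul_one]
  have tr' : ∀ u v : ℤ, u % 9600 = 0 → v % 19800 = 0 → Ex F c i0 ((false, false, u, v), false) := by
    intro u v hu hv
    have := tr (u / 9600) (v / 19800)
    rwa [show 9600 * (u / 9600) = u by omega, show 19800 * (v / 19800) = v by omega] at this
  obtain ⟨⟨a, b, u, v⟩, t⟩ := s
  obtain ⟨h1, h2⟩ := hs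
  cases a <;> cases b <;> cases t <;> simp only [off] at h1 h2
  · exact tr' u v (by omega) (by omega)
  · have := ex_step H (ex_step H (tr' (u - 5304) (v - 7400) h1 h2) 3) 1
    rw [(step_eval _ _).2.2.2.2.2.2.2.1] at this
    simpa using this
  · have := ex_step H (tr' (u - 4800) (v - 7400) h1 h2) 3
    rw [(step_eval _ _).2.2.2.2.1] at this
    simpa using this
  · have := ex_step H (tr' (u - 504) v h1 (by omega)) 1
    rw [(step_eval _ _).2.2.2.2.2.2.2.2.1] at this
    simpa using this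
  · have := ex_step H (ex_step H (tr' (u - 4029) (v - 9900) h1 h2) 4) 1
    rw [(step_eval _ _).2.2.2.2.2.1] at this
    simpa using this
  · have := ex_step H (tr' (u - 8325) (v + 2500) h1 (by omega)) 2
    rw [(step_eval _ _).2.2.2.2.2.2.2.2.2.1] at this
    simpa using this
  · have := ex_step H (ex_step H (tr' (u - 8829) (v + 2500) h1 (by omega)) 2) 1
    rw [(step_eval _ _).2.2.2.2.2.2.1] at this
    simpa using this
  · have := ex_step H (tr' (u - 3525) (v - 9900) h1 h2) 4
    rw [(step_eval _ _).2.2.2.2.2.2.2.2.2.2] at this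
    simpa using this

lemma partner {s : Mo × Bool} (hs : Good s) : ∃ (τ : ℤ × ℤ) (s'' : Mo × Bool),
    Good ((s.1.1, s.1.2.1, s.1.2.2.1 + τ.1, s.1.2.2.2 + τ.2), !s.2) ∧ Good s'' ∧
    ∀ y : ℂ, |y.re - -1195| ≤ 10 → |y.im - 1647| ≤ 10 → ∃ w ∈ Ko, rig s''.1 w = y + zp τ := by
  have key : ∀ (τ : ℤ × ℤ) (g : Mo), (τ = (5304, 12400) ∧ g = (true, true, 8829, 17300) ∨
      τ = (5304, 7400) ∧ g = (true, true, 3525, 9900) ∨
      τ = (4296, 12400) ∧ g = (true, false, 4029, 9900) ∨
      τ = (4296, 7400) ∧ g = (true, true, 3525, 9900)) →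
      ∀ y : ℂ, |y.re - -1195| ≤ 10 → |y.im - 1647| ≤ 10 → ∃ w ∈ Ko, rig g w = y + zp τ := by
    intro τ g h y h1 h2
    refine ⟨(rig g).symm (y + zp τ), ?_, by simp⟩
    rw [abs_le] at h1 h2
    obtain ⟨a1, a2⟩ := h1
    obtain ⟨b1, b2⟩ := h2
    rw [mem_Ko]
    rcases h with ⟨rfl, rfl⟩ | ⟨rfl, rfl⟩ | ⟨rfl, rfl⟩ | ⟨rfl, rfl⟩ <;>
      simp [rig, IsometryEquiv.symm, zp, sgZ] <;>
      refine ⟨?_, ?_, ?_, ?_, ?_, ?_, ?_, ?_⟩ <;> linarith
  obtain ⟨⟨a, b, u, v⟩, t⟩ := s
  obtain ⟨h1, h2⟩ := hs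
  cases a <;> cases b <;> cases t <;> simp only [off] at h1 h2
  · exact ⟨(5304, 7400), ((true, true, 3525, 9900), true), by simp only [Good, off, Bool.not_false]; omega,
      by decide, key _ _ (by simp)⟩
  · exact ⟨(4296, 12400), ((true, false, 4029, 9900), false), by simp only [Good, off, Bool.not_true]; omega,
      by decide, key _ _ (by simp)⟩
  · exact ⟨(5304, 12400), ((true, true, 8829, 17300), false), by simp only [Good, off, Bool.not_false]; omega,
      by decide, key _ _ (by simp)⟩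
  · exact ⟨(4296, 7400), ((true, true, 3525, 9900), true), by simp only [Good, off, Bool.not_true]; omega,
      by decide, key _ _ (by simp)⟩
  · exact ⟨(4296, 7400), ((true, true, 3525, 9900), true), by simp only [Good, off, Bool.not_false]; omega,
      by decide, key _ _ (by simp)⟩
  · exact ⟨(5304, 12400), ((true, true, 8829, 17300), false), by simp only [Good, off, Bool.not_true]; omega,
      by decide, key _ _ (by simp)⟩
  · exact ⟨(4296, 12400), ((true, false, 4029, 9900), false), by simp only [Good, off, Bool.not_false]; omega,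
      by decide, key _ _ (by simp)⟩
  · exact ⟨(5304, 7400), ((true, true, 3525, 9900), true), by simp only [Good, off, Bool.not_true]; omega,
      by decide, key _ _ (by simp)⟩

theorem partC [Countable ι] (H : IsTiling fun i => (hexT (c i)).map (F i)) {T : Set ℂ}
    (hT : IsClosed T) (hK : Ko ⊆ T) (hcov : ∀ z, ∃ i, z ∈ F i '' T)
    (hdis : Pairwise fun i j => Disjoint (interior (F i '' T)) (interior (F j '' T))) : False := by
  obtain ⟨i0, h0⟩ : ∃ i0, c i0 = cT false := by
    obtain ⟨i, -⟩ := H.cov 0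
    obtain ⟨b, hb⟩ := alive H i
    cases b
    · exact ⟨i, hb⟩
    · obtain ⟨m, j, d, hnb⟩ := H.nb_exists i 1
      exact ⟨m, (nb_det H hnb hb).1⟩
  have hall : ∀ i, ∃ s, Good s ∧ F i = (rig s.1).trans (F i0) ∧ c i = cT s.2 := by
    refine H.connected {i | ∃ s, Good s ∧ F i = (rig s.1).trans (F i0) ∧ c i = cT s.2} (i0 := i0)
      ⟨((false, false, 0, 0), false), by decide, ?_, h0⟩ ?_
    · ext1 z
      simp [rig_apply, Mo.app, sgZ]
    · rintro i ⟨s, g, h1, h2⟩ k m j d hnb
      obtain ⟨a, b⟩ := nb_det H hnb h2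
      refine ⟨step s k, good_step g k, ?_, a⟩
      rw [b, h1, step, rig_comp]; rfl
  have hd : Dense (⋃ i, interior (F i '' T)) :=
    dense_iUnion_interior_of_closed (fun i => (F i).toHomeomorph.isClosed_image.2 hT)
      (eq_univ_of_forall fun z => mem_iUnion.2 (hcov z))
  obtain ⟨z, ⟨y, hy, rfl⟩, hz⟩ := hd.inter_open_nonempty (F i0 '' Metric.ball ⟨-1195, 1647⟩ 10)
    ((F i0).toHomeomorph.isOpen_image.2 Metric.isOpen_ball) ⟨_, _, Metric.mem_ball_self (by norm_num), rfl⟩
  obtain ⟨i, hi⟩ := mem_iUnion.1 hz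
  obtain ⟨y1, y2⟩ := dist_coord (Metric.mem_ball.1 hy).le
  simp only at y1 y2
  obtain ⟨s, gs, e1, -⟩ := hall i
  obtain ⟨τ, s'', g1, g2, hw⟩ := partner gs
  obtain ⟨w'', hw'', e''⟩ := hw y y1 y2
  obtain ⟨i', e', -⟩ := ex_good H h0 g1
  obtain ⟨i'', e2, -⟩ := ex_good H h0 g2
  rw [interior_iso] at hi
  obtain ⟨w, hw1, hw2⟩ := hi
  have hwy : rig s.1 w = y := by
    rw [e1] at hw2; exact (F i0).injective hw2
  have a1 : F i' w = F i0 (y + zp τ) := by
    rw [e', IsometryEquiv.trans_apply, ← hwy]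
    congr 1
    apply Complex.ext <;> simp [rig_apply, Mo.app, zp] <;> ring
  have a2 : F i'' w'' = F i0 (y + zp τ) := by rw [e2, IsometryEquiv.trans_apply, e'']
  have hKi : Ko ⊆ interior T := interior_maximal hK isOpen_Ko
  have hii : i' = i'' := by
    by_contra hne
    refine (fun h1 h2 => Set.disjoint_left.1 (hdis hne) h1 h2 : _ ∈ _ → _ → False) (?_ : F i0 (y + zp τ) ∈ _) ?_
    · rw [interior_iso]; exact ⟨w, hw1, a1⟩
    · rw [interior_iso]; exact ⟨w'', hKi hw'', a2⟩
  subst hii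
  have hww : w = w'' := (F i').injective (a1.trans a2.symm)
  subst hww
  rw [abs_le] at y1 y2
  have hyO : y ∈ (hexT (c i0)).O := by
    rw [h0, mem_hexO]
    have e : ∀ k : ZMod 6, (ln (cT false) k).1 = 1 ∨ (ln (cT false) k).1 = 2 ∨
      (ln (cT false) k).1 = 4 ∨ (ln (cT false) k).1 = 5 ∨ (ln (cT false) k).1 = 6 ∨
      (ln (cT false) k).1 = 7 := by decide
    intro k
    rcases e k with h | h | h | h | h | h <;> rw [h] <;> simp [kl, aff] <;>
      linarith [y1.1, y1.2, y2.1, y2.2]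
  have hii : i = i0 := by
    by_contra hne
    refine (fun h1 h2 => Set.disjoint_left.1 (H.dis hne) h1 h2 : _ ∈ _ → _ → False) (?_ : F i0 y ∈ _) ?_
    · rw [Tile.map_O]; exact ⟨w, Ko_subset_hexO _ hw'', hw2⟩
    · rw [Tile.map_O]; exact ⟨y, hyO, rfl⟩
  subst hii
  have : w = y := (F i).injective hw2
  subst this
  have := (mem_Ko.1 hw'').1
  linarith [y1.1, y1.2, y2.1, y2.2]

end Main

end Pool.Agent.P.MP_365d4e_co
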