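import Pool.Agent.P.MP_365d4e_co.Geo

set_option autoImplicit false

open MeasureTheory Set

namespace Pool.Agent.P.MP_365d4e_co

/-- rational point -/
def qp (p : ℚ × ℚ) : ℂ := ⟨p.1, p.2⟩

lemma aff_qp (h : ℝ × ℝ × ℝ) (x y : ℚ) : aff h (qp (x, y)) = h.1 * x + h.2.1 * y - h.2.2 := rfl

def pX : ℚ × ℚ := (-1275, 2500)
def pV1 : ℚ × ℚ := (-39375 / 46, 26250 / 23)
def pO : ℚ × ℚ := (0, 0)
def pY : ℚ × ℚ := (2496, 0)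
def pV3 : ℚ × ℚ := (211500 / 53, 70000 / 53)
def pZ : ℚ × ℚ := (5100, 2800)
def pW : ℚ × ℚ := (3225, 5300)
def pV : ℚ × ℚ := (300, 4600)
def w1 : ℚ × ℚ := (-1575, 2100)
def w2 : ℚ × ℚ := (-504, 0)
def w3 : ℚ × ℚ := (3000, 0)
def w4 : ℚ × ℚ := (5325, 2500)
def pA : ℚ × ℚ := (-1275, 1700)
def pB : ℚ × ℚ := (-660, 500)
def pC : ℚ × ℚ := (3450, 600)
def pD : ℚ × ℚ := (4648, 1900)
def rB : ℚ × ℚ := (1248, -290)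
def rD : ℚ × ℚ := (4347, 4188)
def rE : ℚ × ℚ := (1707, 5184)
def rF : ℚ × ℚ := (-708, 3715)

/-- the sixteen test triangles -/
def tq : Fin 16 → (ℚ × ℚ) × (ℚ × ℚ) × (ℚ × ℚ) :=
  ![(w1, pX, pV1), (w2, pO, pV1), (w3, pY, pV3), (w4, pZ, pV3), (pV1, pA, pB), (pV3, pC, pD),
    (rB, pO, pY), (rD, pZ, pW), (rE, pW, pV), (rF, pV, pX),
    (pO, pY, pV3), (pO, pV3, pZ), (pO, pZ, pW), (pO, pW, pV), (pO, pV, pX), (pO, pX, pV1)]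

def tri (k : Fin 16) : Set ℂ := ctri (qp (tq k).1) (qp (tq k).2.1) (qp (tq k).2.2)

def crossQ (p q r : ℚ × ℚ) : ℚ := (q.1 - p.1) * (r.2 - p.2) - (q.2 - p.2) * (r.1 - p.1)

lemma cross_qp (p q r : ℚ × ℚ) : cross (qp q - qp p) (qp r - qp p) = (crossQ p q r : ℝ) := by
  simp [cross, qp, crossQ]

def arQ (k : Fin 16) : ℚ := |crossQ (tq k).1 (tq k).2.1 (tq k).2.2| / 2

lemma volr_tri (k : Fin 16) : volume.real (tri k) = (arQ k : ℝ) := by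
  rw [tri, volr_ctri, cross_qp, arQ]; push_cast; rfl

lemma arQ_pos : ∀ k, 0 < arQ k := by decide +kernel

def sepLine (p q : ℚ × ℚ) (S T : (ℚ × ℚ) × (ℚ × ℚ) × (ℚ × ℚ)) : Bool :=
  decide (p ≠ q) && decide (crossQ p q S.1 ≤ 0) && decide (crossQ p q S.2.1 ≤ 0) &&
    decide (crossQ p q S.2.2 ≤ 0) && decide (0 ≤ crossQ p q T.1) && decide (0 ≤ crossQ p q T.2.1) &&
    decide (0 ≤ crossQ p q T.2.2)

def cands (S : (ℚ × ℚ) × (ℚ × ℚ) × (ℚ × ℚ)) : List ((ℚ × ℚ) × (ℚ × ℚ)) :=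
  [(S.1, S.2.1), (S.2.1, S.1), (S.1, S.2.2), (S.2.2, S.1), (S.2.1, S.2.2), (S.2.2, S.2.1)]

def sepB (S T : (ℚ × ℚ) × (ℚ × ℚ) × (ℚ × ℚ)) : Bool :=
  (cands S ++ cands T).any fun l => sepLine l.1 l.2 S T

lemma sep_all : ∀ k l : Fin 16, k ≠ l → sepB (tq k) (tq l) = true := by decide +kernel

lemma aedisj_of_sepB {S T : (ℚ × ℚ) × (ℚ × ℚ) × (ℚ × ℚ)} (h : sepB S T = true) :
    AEDisjoint volume (ctri (qp S.1) (qp S.2.1) (qp S.2.2)) (ctri (qp T.1) (qp T.2.1) (qp T.2.2)) := by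
  obtain ⟨⟨p, q⟩, -, hl⟩ := List.any_eq_true.1 h
  simp only [sepLine, Bool.and_eq_true, decide_eq_true_eq] at hl
  obtain ⟨⟨⟨⟨⟨⟨h0, h1⟩, h2⟩, h3⟩, h4⟩, h5⟩, h6⟩ := hl
  let g : ℝ × ℝ × ℝ := (-((q.2 : ℝ) - p.2), (q.1 : ℝ) - p.1,
    -((q.2 : ℝ) - p.2) * p.1 + ((q.1 : ℝ) - p.1) * p.2)
  have hg : ∀ r : ℚ × ℚ, aff g (qp r) = (crossQ p q r : ℝ) := by
    intro r; simp [aff, g, qp, crossQ]; ring
  have hn : g.1 ≠ 0 ∨ g.2.1 ≠ 0 := by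
    by_contra hc
    push Not at hc
    apply h0
    simp only [g] at hc
    ext
    · have : (p.1 : ℝ) = q.1 := by linarith [hc.2]
      exact_mod_cast this
    · have : (p.2 : ℝ) = q.2 := by linarith [hc.1]
      exact_mod_cast this
  refine measure_mono_null ?_ (vol_line g.2.2 hn)
  rintro z ⟨a, b⟩
  have a' := aff_le_of_mem_ctri (h := g) a (by rw [hg]; exact_mod_cast h1)
    (by rw [hg]; exact_mod_cast h2) (by rw [hg]; exact_mod_cast h3)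
  have b' := aff_ge_of_mem_ctri (h := g) b (by rw [hg]; exact_mod_cast h4)
    (by rw [hg]; exact_mod_cast h5) (by rw [hg]; exact_mod_cast h6)
  simp only [mem_ofPred_eq]
  unfold aff at a' b'
  linarith

lemma sum_tri_le {U : Set ℂ} (hU : MeasurableSet U) (hfin : volume U ≠ ⊤) :
    ∑ k, volume.real (tri k ∩ U) ≤ volume.real U := by
  rw [← measureReal_biUnion_finset₀]
  · exact measureReal_mono (iUnion₂_subset fun k _ => inter_subset_right) hfin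
  · intro k _ l _ hkl
    exact (aedisj_of_sepB (sep_all k l hkl)).mono inter_subset_left inter_subset_left
  · intro k _
    exact ((measurableSet_ctri _ _ _).inter hU).nullMeasurableSet

/-- relative loss of a test triangle caused by one half-plane -/
noncomputable def xl (h : ℝ × ℝ × ℝ) (k : Fin 16) : ℝ :=
  cut h (qp (tq k).1) (qp (tq k).2.1) (qp (tq k).2.2) / arQ k

lemma arQ_pos' (k : Fin 16) : (0 : ℝ) < arQ k := by exact_mod_cast arQ_pos k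

lemma arQ_eq (k : Fin 16) :
    |cross (qp (tq k).2.1 - qp (tq k).1) (qp (tq k).2.2 - qp (tq k).1)| / 2 = (arQ k : ℝ) := by
  rw [cross_qp, arQ]; push_cast; rfl

lemma xl_nonneg (h : ℝ × ℝ × ℝ) (k : Fin 16) : 0 ≤ xl h k :=
  div_nonneg (cut_nonneg _ _ _ _) (arQ_pos' k).le

lemma xl_le_one (h : ℝ × ℝ × ℝ) (k : Fin 16) : xl h k ≤ 1 := by
  rw [xl, div_le_one (arQ_pos' k), ← arQ_eq]; exact cut_le _ _ _ _

lemma xl_zero {h : ℝ × ℝ × ℝ} {k : Fin 16} (h1 : aff h (qp (tq k).1) ≤ 0)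
    (h2 : aff h (qp (tq k).2.1) ≤ 0) (h3 : aff h (qp (tq k).2.2) ≤ 0) : xl h k = 0 := by
  rw [xl, cut_eq_zero h1 h2 h3, zero_div]

lemma xl_le1 {h : ℝ × ℝ × ℝ} {k : Fin 16} (h1 : 0 < aff h (qp (tq k).1))
    (h2 : aff h (qp (tq k).2.1) ≤ 0) (h3 : aff h (qp (tq k).2.2) ≤ 0) :
    xl h k ≤ aff h (qp (tq k).1) / (aff h (qp (tq k).1) - aff h (qp (tq k).2.1)) := by
  rw [xl, div_le_iff₀ (arQ_pos' k), ← arQ_eq, mul_comm]; exact cut_le_frac h1 h2 h3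

lemma xl_le2 {h : ℝ × ℝ × ℝ} {k : Fin 16} (h1 : 0 < aff h (qp (tq k).1))
    (h2 : aff h (qp (tq k).2.1) ≤ 0) (h3 : aff h (qp (tq k).2.2) ≤ 0) :
    xl h k ≤ aff h (qp (tq k).1) / (aff h (qp (tq k).1) - aff h (qp (tq k).2.2)) := by
  rw [xl, div_le_iff₀ (arQ_pos' k), ← arQ_eq, mul_comm, cut_swap]
  have := cut_le_frac h1 h3 h2
  have e : |cross (qp (tq k).2.2 - qp (tq k).1) (qp (tq k).2.1 - qp (tq k).1)| =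
      |cross (qp (tq k).2.1 - qp (tq k).1) (qp (tq k).2.2 - qp (tq k).1)| := by
    rw [← abs_neg]; congr 1; unfold cross; ring
  rw [e] at this
  exact this

lemma frac2 {a a' b b' u w k μ : ℝ} (ha : 0 < a) (hb : 0 < b) (ha' : a' ≤ 0) (hb' : b' ≤ 0)
    (hk : 0 ≤ k) (_hμ : 0 < μ) (h1 : a ≤ μ * (-b')) (h2 : (1 + k) * μ * b ≤ -a')
    (_hu0 : 0 ≤ u) (hw0 : 0 ≤ w)
    (hu : u ≤ a / (a - a')) (hw : w ≤ b / (b - b')) : u + w + k * (u * w) ≤ 1 := by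
  have d1 : 0 < a - a' := by linarith
  have d2 : 0 < b - b' := by linarith
  have key : a / (a - a') + b / (b - b') + k * (a / (a - a') * (b / (b - b'))) ≤ 1 := by
    rw [div_mul_div_comm, div_add_div _ _ d1.ne' d2.ne', ← mul_div_assoc, ← add_div,
      div_le_one (mul_pos d1 d2)]
    have e1 : (1 + k) * b * a ≤ (1 + k) * b * (μ * (-b')) :=
      mul_le_mul_of_nonneg_left h1 (by positivity)
    have e2 : (1 + k) * μ * b * (-b') ≤ -a' * (-b') :=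
      mul_le_mul_of_nonneg_right h2 (by linarith)
    nlinarith
  have : u * w ≤ a / (a - a') * (b / (b - b')) := mul_le_mul hu hw hw0 (div_pos ha d1).le
  nlinarith

/-- the eight vertices of the octagon satisfy the half-plane inequality -/
def Sup (h : ℝ × ℝ × ℝ) : Prop :=
  aff h (qp pX) ≤ 0 ∧ aff h (qp pV1) ≤ 0 ∧ aff h (qp pO) ≤ 0 ∧ aff h (qp pY) ≤ 0 ∧
    aff h (qp pV3) ≤ 0 ∧ aff h (qp pZ) ≤ 0 ∧ aff h (qp pW) ≤ 0 ∧ aff h (qp pV) ≤ 0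

lemma cyc8 {x0 x1 x2 x3 x4 x5 x6 x7 : ℝ} {P0 P1 P2 P3 P4 P5 P6 P7 : Prop}
    (z0 : ¬P0 → x0 = 0) (z1 : ¬P1 → x1 = 0) (z2 : ¬P2 → x2 = 0) (z3 : ¬P3 → x3 = 0)
    (z4 : ¬P4 → x4 = 0) (z5 : ¬P5 → x5 = 0) (z6 : ¬P6 → x6 = 0) (z7 : ¬P7 → x7 = 0)
    (_o0 : x0 ≤ 1) (_o6 : x6 ≤ 1) (o7 : x7 ≤ 1)
    (n0 : P0 → ¬P2 ∧ ¬P3 ∧ ¬P4 ∧ ¬P5 ∧ ¬P6 ∧ ¬P7) (n1 : P1 → ¬P3 ∧ ¬P4 ∧ ¬P5 ∧ ¬P6 ∧ ¬P7)
    (n2 : P2 → ¬P4 ∧ ¬P5 ∧ ¬P6 ∧ ¬P7) (n3 : P3 → ¬P5 ∧ ¬P6 ∧ ¬P7) (n4 : P4 → ¬P6 ∧ ¬P7)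
    (n5 : P5 → ¬P7) (n6 : P6 → ¬P7)
    (s0 : x0 + x1 ≤ 1) (s1 : x1 + x2 ≤ 1) (s2 : x2 + x3 ≤ 1) (s3 : x3 + x4 ≤ 1)
    (s4 : x4 + x5 ≤ 1) (s5 : x5 + x6 ≤ 1) :
    x0 + x1 + x2 + x3 + x4 + x5 + x6 + x7 ≤ 1 := by
  by_cases p0 : P0
  · obtain ⟨a, b, c, d, e, f⟩ := n0 p0
    linarith [z2 a, z3 b, z4 c, z5 d, z6 e, z7 f]
  by_cases p1 : P1
  · obtain ⟨b, c, d, e, f⟩ := n1 p1
    linarith [z0 p0, z3 b, z4 c, z5 d, z6 e, z7 f]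
  by_cases p2 : P2
  · obtain ⟨c, d, e, f⟩ := n2 p2
    linarith [z0 p0, z1 p1, z4 c, z5 d, z6 e, z7 f]
  by_cases p3 : P3
  · obtain ⟨d, e, f⟩ := n3 p3
    linarith [z0 p0, z1 p1, z2 p2, z5 d, z6 e, z7 f]
  by_cases p4 : P4
  · obtain ⟨e, f⟩ := n4 p4
    linarith [z0 p0, z1 p1, z2 p2, z3 p3, z6 e, z7 f]
  by_cases p5 : P5
  · linarith [z0 p0, z1 p1, z2 p2, z3 p3, z4 p4, z7 (n5 p5)]
  by_cases p6 : P6
  · linarith [z0 p0, z1 p1, z2 p2, z3 p3, z4 p4, z5 p5, z7 (n6 p6)]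
  · linarith [z0 p0, z1 p1, z2 p2, z3 p3, z4 p4, z5 p5, z6 p6]

lemma pair_le {u w k : ℝ} {P Q : Prop} (hu1 : u ≤ 1) (hw1 : w ≤ 1) (zu : ¬P → u = 0)
    (zw : ¬Q → w = 0) (h : P → Q → u + w + k * (u * w) ≤ 1) : u + w + k * (u * w) ≤ 1 := by
  by_cases p : P
  · by_cases q : Q
    · exact h p q
    · rw [zw q]; linarith
  · rw [zu p]; linarith

theorem perh {h : ℝ × ℝ × ℝ} (hS : Sup h) :
    (xl h 0 + xl h 1 + xl h 2 + xl h 3 + xl h 6 + xl h 7 + xl h 8 + xl h 9 ≤ 1) ∧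
    (xl h 4 ≠ 0 → xl h 2 = 0 ∧ xl h 3 = 0 ∧ xl h 5 = 0 ∧ xl h 6 = 0 ∧ xl h 7 = 0 ∧ xl h 8 = 0 ∧
      xl h 9 = 0) ∧
    (xl h 5 ≠ 0 → xl h 0 = 0 ∧ xl h 1 = 0 ∧ xl h 6 = 0 ∧ xl h 7 = 0 ∧ xl h 8 = 0 ∧ xl h 9 = 0) ∧
    (xl h 0 + xl h 1 + 1 / 10 * (xl h 0 * xl h 1) ≤ 1) ∧
    (xl h 2 + xl h 3 + 1 / 10 * (xl h 2 * xl h 3) ≤ 1) ∧
    (xl h 10 = 0 ∧ xl h 11 = 0 ∧ xl h 12 = 0 ∧ xl h 13 = 0 ∧ xl h 14 = 0 ∧ xl h 15 = 0) := by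
  obtain ⟨hX, hV1, hO, hY, hV3, hZ, hW, hV⟩ := hS
  have z0 : ¬ 0 < aff h (qp w1) → xl h 0 = 0 := fun a => xl_zero (not_lt.1 a) hX hV1
  have z1 : ¬ 0 < aff h (qp w2) → xl h 1 = 0 := fun a => xl_zero (not_lt.1 a) hO hV1
  have z2 : ¬ 0 < aff h (qp w3) → xl h 2 = 0 := fun a => xl_zero (not_lt.1 a) hY hV3
  have z3 : ¬ 0 < aff h (qp w4) → xl h 3 = 0 := fun a => xl_zero (not_lt.1 a) hZ hV3
  have z4 : aff h (qp pA) ≤ 0 → aff h (qp pB) ≤ 0 → xl h 4 = 0 := fun a b => xl_zero hV1 a b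
  have z5 : aff h (qp pC) ≤ 0 → aff h (qp pD) ≤ 0 → xl h 5 = 0 := fun a b => xl_zero hV3 a b
  have z6 : ¬ 0 < aff h (qp rB) → xl h 6 = 0 := fun a => xl_zero (not_lt.1 a) hO hY
  have z7 : ¬ 0 < aff h (qp rD) → xl h 7 = 0 := fun a => xl_zero (not_lt.1 a) hZ hW
  have z8 : ¬ 0 < aff h (qp rE) → xl h 8 = 0 := fun a => xl_zero (not_lt.1 a) hW hV
  have z9 : ¬ 0 < aff h (qp rF) → xl h 9 = 0 := fun a => xl_zero (not_lt.1 a) hV hX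
  have fan : xl h 10 = 0 ∧ xl h 11 = 0 ∧ xl h 12 = 0 ∧ xl h 13 = 0 ∧ xl h 14 = 0 ∧ xl h 15 = 0 :=
    ⟨xl_zero hO hY hV3, xl_zero hO hV3 hZ, xl_zero hO hZ hW, xl_zero hO hW hV, xl_zero hO hV hX,
      xl_zero hO hX hV1⟩
  -- linear facts
  have L : (0 < aff h (qp rF) → ¬ 0 < aff h (qp w2) ∧ ¬ 0 < aff h (qp rB) ∧ ¬ 0 < aff h (qp w3) ∧
        ¬ 0 < aff h (qp w4) ∧ ¬ 0 < aff h (qp rD) ∧ ¬ 0 < aff h (qp rE)) ∧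
      (0 < aff h (qp w1) → ¬ 0 < aff h (qp rB) ∧ ¬ 0 < aff h (qp w3) ∧
        ¬ 0 < aff h (qp w4) ∧ ¬ 0 < aff h (qp rD) ∧ ¬ 0 < aff h (qp rE)) ∧
      (0 < aff h (qp w2) → ¬ 0 < aff h (qp w3) ∧
        ¬ 0 < aff h (qp w4) ∧ ¬ 0 < aff h (qp rD) ∧ ¬ 0 < aff h (qp rE)) ∧
      (0 < aff h (qp rB) → ¬ 0 < aff h (qp w4) ∧ ¬ 0 < aff h (qp rD) ∧ ¬ 0 < aff h (qp rE)) ∧
      (0 < aff h (qp w3) → ¬ 0 < aff h (qp rD) ∧ ¬ 0 < aff h (qp rE)) ∧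
      (0 < aff h (qp w4) → ¬ 0 < aff h (qp rE)) ∧ (0 < aff h (qp rD) → ¬ 0 < aff h (qp rE)) ∧
      ((0 < aff h (qp pA) ∨ 0 < aff h (qp pB)) → ¬ 0 < aff h (qp w3) ∧ ¬ 0 < aff h (qp w4) ∧
        aff h (qp pC) ≤ 0 ∧ aff h (qp pD) ≤ 0 ∧ ¬ 0 < aff h (qp rB) ∧ ¬ 0 < aff h (qp rD) ∧
        ¬ 0 < aff h (qp rE) ∧ ¬ 0 < aff h (qp rF)) ∧
      ((0 < aff h (qp pC) ∨ 0 < aff h (qp pD)) → ¬ 0 < aff h (qp w1) ∧ ¬ 0 < aff h (qp w2) ∧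
        ¬ 0 < aff h (qp rB) ∧ ¬ 0 < aff h (qp rD) ∧
        ¬ 0 < aff h (qp rE) ∧ ¬ 0 < aff h (qp rF)) ∧
      (aff h (qp w1) ≤ 4 / 21 * (-aff h (qp pV)) ∧ aff h (qp w2) ≤ 21 / 104 * (-aff h (qp pY)) ∧
        aff h (qp w3) ≤ 21 / 104 * (-aff h (qp pO)) ∧ aff h (qp w4) ≤ 3 / 25 * (-aff h (qp pW))) ∧
      ((0 < aff h (qp rF) → (1 + 0) * (4 / 21) * aff h (qp rF) ≤ -aff h (qp pV1)) ∧
        (0 < aff h (qp rB) → (1 + 0) * (21 / 104) * aff h (qp rB) ≤ -aff h (qp pV1)) ∧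
        (0 < aff h (qp rB) → (1 + 0) * (21 / 104) * aff h (qp rB) ≤ -aff h (qp pV3)) ∧
        (0 < aff h (qp rD) → (1 + 0) * (3 / 25) * aff h (qp rD) ≤ -aff h (qp pV3))) ∧
      (aff h (qp w1) ≤ 21 / 25 * (-aff h (qp pO)) ∧
        (1 + 1 / 10) * (21 / 25) * aff h (qp w2) ≤ -aff h (qp pX) ∧
        aff h (qp w3) ≤ 25 / 28 * (-aff h (qp pZ)) ∧
        (1 + 1 / 10) * (25 / 28) * aff h (qp w4) ≤ -aff h (qp pY)) := by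
    obtain ⟨n1, n2, c⟩ := h
    simp only [pX, pV1, pO, pY, pV3, pZ, pW, pV, w1, w2, w3, w4, pA, pB, pC, pD, rB, rD, rE, rF,
      aff_qp, not_lt] at *
    push_cast at *
    clear z0 z1 z2 z3 z4 z5 z6 z7 z8 z9 fan
    refine ⟨fun a => ⟨?_, ?_, ?_, ?_, ?_, ?_⟩, fun a => ⟨?_, ?_, ?_, ?_, ?_⟩,
      fun a => ⟨?_, ?_, ?_, ?_⟩, fun a => ⟨?_, ?_, ?_⟩, fun a => ⟨?_, ?_⟩, fun a => ?_, fun a => ?_,
      ?_, ?_, ⟨?_, ?_, ?_, ?_⟩, ⟨fun a => ?_, fun a => ?_, fun a => ?_, fun a => ?_⟩, ⟨?_, ?_, ?_, ?_⟩⟩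
    all_goals first
      | linarith
      | (rintro (a | a) <;> refine ⟨?_, ?_, ?_, ?_, ?_, ?_, ?_, ?_⟩ <;> linarith)
      | (rintro (a | a) <;> refine ⟨?_, ?_, ?_, ?_, ?_, ?_⟩ <;> linarith)
  obtain ⟨n0, n1, n2, n3, n4, n5, n6, La, Lc, ⟨m1, m2, m3, m4⟩, ⟨k1, k2, k3, k4⟩, ⟨c1, c2, c3, c4⟩⟩ := L
  have Ca : xl h 0 + xl h 1 + 1 / 10 * (xl h 0 * xl h 1) ≤ 1 :=
    pair_le (xl_le_one _ _) (xl_le_one _ _) z0 z1 fun a b =>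
      frac2 a b hX hO (by norm_num) (by norm_num) c1 c2 (xl_nonneg _ _) (xl_nonneg _ _)
        (xl_le1 (k := 0) a hX hV1) (xl_le1 (k := 1) b hO hV1)
  have Cc : xl h 2 + xl h 3 + 1 / 10 * (xl h 2 * xl h 3) ≤ 1 :=
    pair_le (xl_le_one _ _) (xl_le_one _ _) z2 z3 fun a b =>
      frac2 a b hY hZ (by norm_num) (by norm_num) c3 c4 (xl_nonneg _ _) (xl_nonneg _ _)
        (xl_le1 (k := 2) a hY hV3) (xl_le1 (k := 3) b hZ hV3)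
  have s09 : xl h 0 + xl h 9 + 0 * (xl h 0 * xl h 9) ≤ 1 :=
    pair_le (xl_le_one _ _) (xl_le_one _ _) z0 z9 fun a b =>
      frac2 a b hV1 hV le_rfl (by norm_num) m1 (k1 b) (xl_nonneg _ _) (xl_nonneg _ _)
        (xl_le2 (k := 0) a hX hV1) (xl_le1 (k := 9) b hV hX)
  have s16 : xl h 1 + xl h 6 + 0 * (xl h 1 * xl h 6) ≤ 1 :=
    pair_le (xl_le_one _ _) (xl_le_one _ _) z1 z6 fun a b =>
      frac2 a b hV1 hY le_rfl (by norm_num) m2 (k2 b) (xl_nonneg _ _) (xl_nonneg _ _)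
        (xl_le2 (k := 1) a hO hV1) (xl_le2 (k := 6) b hO hY)
  have s26 : xl h 2 + xl h 6 + 0 * (xl h 2 * xl h 6) ≤ 1 :=
    pair_le (xl_le_one _ _) (xl_le_one _ _) z2 z6 fun a b =>
      frac2 a b hV3 hO le_rfl (by norm_num) m3 (k3 b) (xl_nonneg _ _) (xl_nonneg _ _)
        (xl_le2 (k := 2) a hY hV3) (xl_le1 (k := 6) b hO hY)
  have s37 : xl h 3 + xl h 7 + 0 * (xl h 3 * xl h 7) ≤ 1 :=
    pair_le (xl_le_one _ _) (xl_le_one _ _) z3 z7 fun a b =>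
      frac2 a b hV3 hW le_rfl (by norm_num) m4 (k4 b) (xl_nonneg _ _) (xl_nonneg _ _)
        (xl_le2 (k := 3) a hZ hV3) (xl_le2 (k := 7) b hZ hW)
  have p01 := mul_nonneg (xl_nonneg h 0) (xl_nonneg h 1)
  have p23 := mul_nonneg (xl_nonneg h 2) (xl_nonneg h 3)
  refine ⟨?_, fun a => ?_, fun a => ?_, Ca, Cc, fan⟩
  · have := cyc8 z9 z0 z1 z6 z2 z3 z7 z8 (xl_le_one _ _) (xl_le_one _ _) (xl_le_one _ _)
      n0 n1 n2 n3 n4 n5 n6 (by linarith) (by linarith) (by linarith) (by linarith) (by linarith)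
      (by linarith)
    linarith
  · have : 0 < aff h (qp pA) ∨ 0 < aff h (qp pB) := by
      by_contra hc; push Not at hc; exact a (z4 hc.1 hc.2)
    obtain ⟨a1, a2, a3, a4, a5, a6, a7, a8⟩ := La this
    exact ⟨z2 a1, z3 a2, z5 a3 a4, z6 a5, z7 a6, z8 a7, z9 a8⟩
  · have : 0 < aff h (qp pC) ∨ 0 < aff h (qp pD) := by
      by_contra hc; push Not at hc; exact a (z5 hc.1 hc.2)
    obtain ⟨a1, a2, a5, a6, a7, a8⟩ := Lc this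
    exact ⟨z0 a1, z1 a2, z6 a5, z7 a6, z8 a7, z9 a8⟩

end Pool.Agent.P.MP_365d4e_co
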