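import Pool.Agent.P.MP_365d4e_co.Pack

/-! The exact packing density of the octagon. -/

open Set Filter Topology MeasureTheory Metric

namespace Pool.Agent.P.MP_365d4e_co

lemma volr_K : volume.real K = 28207125000 / 1219 := by
  obtain ⟨h0, -, h2, -, -, -, -, -, -, -, h⟩ := arQ_vals
  have hu : ∀ {S A B : Set ℂ}, S ⊆ A ∪ B → volume A ≠ ⊤ → volume B ≠ ⊤ →
      volume.real S ≤ volume.real A + volume.real B := fun h a b =>
    (measureReal_mono h (measure_union_ne_top a b)).trans (measureReal_union_le _ _)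
  have ht := vol_tri_ne_top
  have hn := fun {A B : Set ℂ} (a : volume A ≠ ⊤) (b : volume B ≠ ⊤) => measure_union_ne_top a b
  refine le_antisymm ?_ ?_
  · have a1 := hu (S := K) (A := tri 10)
      (B := tri 11 ∪ (tri 12 ∪ (tri 13 ∪ (tri 14 ∪ tri 15)))) (fun z hz => K_fan hz) (ht 10)
      (hn (ht 11) (hn (ht 12) (hn (ht 13) (hn (ht 14) (ht 15)))))
    have a2 := measureReal_union_le (μ := volume) (tri 11)
      (tri 12 ∪ (tri 13 ∪ (tri 14 ∪ tri 15)))
    have a3 := measureReal_union_le (μ := volume) (tri 12) (tri 13 ∪ (tri 14 ∪ tri 15))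
    have a4 := measureReal_union_le (μ := volume) (tri 13) (tri 14 ∪ tri 15)
    have a5 := measureReal_union_le (μ := volume) (tri 14) (tri 15)
    simp only [volr_tri] at a1 a2 a3 a4 a5
    have := congrArg (Rat.cast : ℚ → ℝ) h
    push_cast at this
    linarith
  · have a1 := hu (S := (hexT 0).C) (A := K) (B := tri (ea 0) ∪ tri (ec 0))
      (fun z hz => hexC_cover hz) isCompact_K.measure_lt_top.ne (hn (ht _) (ht _))
    have a2 := measureReal_union_le (μ := volume) (tri (ea 0)) (tri (ec 0))
    have a3 := volr_hexC 0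
    rw [show ea 0 = 0 from rfl, show ec 0 = 2 from rfl] at a1 a2
    simp only [volr_tri, h0, h2] at a2
    push_cast at a2
    linarith

lemma cval : ENNReal.ofReal (volume.real K / 23760000) = 626825 / 643632 := by
  rw [volr_K, show (28207125000 / 1219 / 23760000 : ℝ) = 626825 / 643632 by norm_num,
    ENNReal.ofReal_div_of_pos (by norm_num)]
  simp

theorem dens_le {e : ℕ → Iso}
    (hd : Pairwise fun i j => Disjoint (interior (e i '' K)) (interior (e j '' K))) :
    dens (⋃ i, e i '' K) ≤ ENNReal.ofReal (volume.real K / 23760000) := by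
  have κ0 := volr_K_pos
  by_contra hc
  obtain ⟨x, hx1, hlt⟩ := ENNReal.lt_iff_exists_real_btwn.1 (not_le.1 hc)
  rw [ENNReal.ofReal_lt_ofReal_iff'] at hlt
  obtain ⟨η, hη, h1, hx⟩ : ∃ η : ℝ, 0 < η ∧ η ≤ 1 ∧
      (1 + 2 * η) * (volume.real K / 23760000) ≤ x := by
    have h0 : 0 < volume.real K / 23760000 := by positivity
    refine ⟨min 1 ((x / (volume.real K / 23760000) - 1) / 2), lt_min one_pos ?_, min_le_left _ _,
      ?_⟩
    · have := (one_lt_div h0).2 hlt.1.1
      linarith
    · rw [← le_div_iff₀ h0]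
      linarith [min_le_right 1 ((x / (volume.real K / 23760000) - 1) / 2)]
  obtain ⟨L, hL1, hL2⟩ : ∃ L : ℝ, 1 ≤ L ∧ 10 ^ 9 ≤ η * L :=
    ⟨10 ^ 9 / η, (one_le_div hη).2 (by linarith), by field_simp; rfl⟩
  obtain ⟨R, hR, hR1, hR2⟩ := ((frequently_lt_of_lt_limsup (h := hlt.2)).and_eventually
    ((eventually_ge_atTop (7000 + 3 * L)).and
      (eventually_ge_atTop (6 * (7000 + 3 * L) / η)))).exists
  have h0 : 0 < R := by linarith
  rw [ratio_eq _ h0, ENNReal.ofReal_lt_ofReal_iff', lt_div_iff₀ (by positivity)] at hR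
  have hfin := finite_centres Ko_subset_K hd 0 (R + 7000)
  have hle : volume.real ((⋃ i, e i '' K) ∩ ball 0 R) ≤ hfin.toFinset.card * volume.real K := by
    refine (measureReal_mono (s₂ := ⋃ i ∈ hfin.toFinset, e i '' K) ?_ ?_).trans
      ((measureReal_biUnion_finset_le _ _).trans ?_)
    · rintro z ⟨h1, h2⟩
      obtain ⟨i, t, ht, rfl⟩ := mem_iUnion.1 h1
      refine mem_iUnion₂.2 ⟨i, hfin.mem_toFinset.2 ?_, t, ht, rfl⟩
      have a := hexC_bound (K_subset_hexC 0 ht)
      rw [← (e i).dist_eq] at a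
      have := dist_triangle_left (e i o) 0 (e i t)
      rw [mem_ball] at h2
      change dist _ _ ≤ _
      linarith
    · exact ((hfin.toFinset.finite_toSet).isCompact_biUnion
        fun i _ => isCompact_K.image (e i).continuous).measure_lt_top.ne
    · simp only [volr_iso, Finset.sum_const, nsmul_eq_mul, le_refl]
  have k1 : (1 + 2 * η) * (Real.pi * R ^ 2) ≤ 23760000 * hfin.toFinset.card := by
    have := ((mul_le_mul_of_nonneg_right hx (by positivity)).trans hR.1.le).trans hle
    refine le_of_mul_le_mul_right ?_ κ0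
    linarith
  rw [div_le_iff₀ hη] at hR2
  have k2 : (1 - -η) * (R + 7000 + 3 * L) ^ 2 ≤ (1 + 2 * η) * R ^ 2 := by
    have a : (R + 7000 + 3 * L) ^ 2 ≤ R ^ 2 + 3 * R * (7000 + 3 * L) := by nlinarith
    have b : 6 * R * (7000 + 3 * L) ≤ η * R ^ 2 := by nlinarith
    have c : (1 - -η) * (R + 7000 + 3 * L) ^ 2 ≤ (1 - -η) * (R ^ 2 + 3 * R * (7000 + 3 * L)) :=
      mul_le_mul_of_nonneg_left a (by linarith)
    have d : η * (3 * R * (7000 + 3 * L)) ≤ 1 * (3 * R * (7000 + 3 * L)) :=
      mul_le_mul_of_nonneg_right h1 (by positivity)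
    nlinarith
  obtain ⟨x0, y0, J, hJ, hJc⟩ := dense_cell Ko_subset_K hd (ε := -η) (L := L) (R := R + 7000)
    (by linarith) (by linarith) (by linarith) hfin.toFinset (fun i hi => hfin.mem_toFinset.1 hi)
    (le_trans (by nlinarith [Real.pi_pos]) k1)
  obtain ⟨-, -, -, B, -, -, -, -, -, B0, hB, -, -⟩ := cell_bound e
    (fun i j hij => by
      have := hd hij
      beta_reduce at this
      rwa [interior_iso, interior_iso, interior_K] at this) J (x0 + L / 2) (y0 + L / 2)
    (L := L / 2) (by linarith) one_pos (fun i hi => by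
      obtain ⟨⟨a1, a2⟩, a3, a4⟩ := (hJ i).1 hi
      exact ⟨abs_le.2 ⟨by linarith, by linarith⟩, abs_le.2 ⟨by linarith, by linarith⟩⟩)
  nlinarith

theorem dens_finite {ι : Type} [Finite ι] (e : ι → Iso) : dens (⋃ i, e i '' K) = 0 := by
  have hc : IsCompact (⋃ i, e i '' K) :=
    isCompact_iUnion fun i => isCompact_K.image (e i).continuous
  generalize (⋃ i, e i '' K) = S at hc
  have ht : Tendsto (fun R : ℝ => ENNReal.ofReal (volume.real S / (Real.pi * R ^ 2))) atTop
      (𝓝 (ENNReal.ofReal 0)) :=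
    ENNReal.tendsto_ofReal (tendsto_const_nhds.div_atTop
      ((tendsto_pow_atTop two_ne_zero).const_mul_atTop Real.pi_pos))
  refine le_antisymm (le_trans (limsup_le_limsup ?_) (ht.limsup_eq.trans (by simp)).le)
    (zero_le)
  filter_upwards [eventually_gt_atTop 0] with R hR
  rw [ratio_eq _ hR]
  exact ENNReal.ofReal_le_ofReal (div_le_div_of_nonneg_right
    (measureReal_mono inter_subset_left hc.measure_lt_top.ne) (by positivity))

theorem countable_pack {ι : Type} {e : ι → Iso}
    (hd : Pairwise fun i j => Disjoint (interior (e i '' K)) (interior (e j '' K))) :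
    Countable ι :=
  Pairwise.countable_of_isOpen_disjoint hd (fun _ => isOpen_interior) fun i => by
    rw [interior_iso, interior_K]; exact ⟨_, o, o_mem_Ko, rfl⟩

theorem tsum_pack {ι : Type} {e : ι → Iso}
    (hd : Pairwise fun i j => Disjoint (interior (e i '' K)) (interior (e j '' K))) (R : ℝ) :
    ∑' i, volume (e i '' K ∩ ball 0 R) = volume ((⋃ i, e i '' K) ∩ ball 0 R) := by
  have := countable_pack hd
  have hc : ∀ i, IsClosed (e i '' K) := fun i => (isCompact_K.image (e i).continuous).isClosed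
  have hf : ∀ i, volume (frontier (e i '' K)) = 0 := fun i =>
    (convex_iso _ convex_K).addHaar_frontier volume
  rw [iUnion_inter, measure_iUnion₀ (fun i j hij => ?_) fun i =>
    ((hc i).measurableSet.inter measurableSet_ball).nullMeasurableSet]
  refine measure_mono_null (fun z hz => ?_) (measure_union_null (hf i) (hf j))
  rw [(hc i).frontier_eq, (hc j).frontier_eq]
  by_cases h : z ∈ interior (e i '' K)
  · exact Or.inr ⟨hz.2.1, Set.disjoint_left.1 (hd hij) h⟩
  · exact Or.inl ⟨hz.1.1, h⟩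

theorem upper {ι : Type} {e : ι → Iso}
    (hd : Pairwise fun i j => Disjoint (interior (e i '' K)) (interior (e j '' K))) :
    dens (⋃ i, e i '' K) ≤ 626825 / 643632 := by
  have := countable_pack hd
  cases finite_or_infinite ι
  · rw [dens_finite]; exact zero_le
  · obtain ⟨σ⟩ : Nonempty (ℕ ≃ ι) := nonempty_equiv_of_countable
    rw [← cval, ← σ.surjective.iUnion_comp fun i => e i '' K]
    exact dens_le fun i j hij => hd (σ.injective.ne hij)

theorem strict {ι : Type} {e f : ι → Iso} {T : Set ℂ}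
    (hd : Pairwise fun i j => Disjoint (interior (e i '' K)) (interior (e j '' K)))
    (hT : IsCompact T) (hcov : ∀ z, ∃ i, z ∈ f i '' T)
    (hdis : Pairwise fun i j => Disjoint (interior (f i '' T)) (interior (f j '' T)))
    (hsub : ∀ i, e i '' K ⊆ f i '' T) : dens (⋃ i, e i '' K) < 626825 / 643632 := by
  have := countable_pack hd
  cases finite_or_infinite ι
  · rw [dens_finite]; norm_num
  · obtain ⟨σ⟩ : Nonempty (ℕ ≃ ι) := nonempty_equiv_of_countable
    rw [← cval, ← σ.surjective.iUnion_comp fun i => e i '' K]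
    refine not_le.1 (mainC (f := fun i => f (σ i)) hT (fun z => ?_)
      (fun i j hij => hdis (σ.injective.ne hij)) fun i => hsub _)
    obtain ⟨i, hi⟩ := hcov z
    exact ⟨σ.symm i, by simpa using hi⟩

end Pool.Agent.P.MP_365d4e_co
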