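import Mathlib

set_option autoImplicit false

open MeasureTheory Set Filter Topology Complex

namespace Pool.Agent.P.MP_365d4e_co

/-- planar cross product -/
def cross (a b : ℂ) : ℝ := a.re * b.im - a.im * b.re
/-- planar inner product -/
def dot (a b : ℂ) : ℝ := a.re * b.re + a.im * b.im

abbrev Iso := ℂ ≃ᵢ ℂ

/-- orientation sign of an isometry -/
noncomputable def sgn (f : Iso) : ℝ := cross (f 1 - f 0) (f I - f 0)

lemma iso_form (f : Iso) : ∃ a : ℂ, a.re ^ 2 + a.im ^ 2 = 1 ∧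
    ((∀ z, f z = a * z + f 0) ∨ (∀ z, f z = a * (starRingEnd ℂ) z + f 0)) := by
  obtain ⟨a, h⟩ := linear_isometry_complex f.toRealLinearIsometryEquiv
  refine ⟨a, ?_, ?_⟩
  · have := Circle.normSq_coe a
    rw [Complex.normSq_apply] at this
    nlinarith
  · rcases h with h | h
    · left; intro z
      have := congrArg (fun g : ℂ ≃ₗᵢ[ℝ] ℂ => g z) h
      simp only [IsometryEquiv.toRealLinearIsometryEquiv_apply, rotation_apply] at this
      rw [← this]; ring
    · right; intro z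
      have := congrArg (fun g : ℂ ≃ₗᵢ[ℝ] ℂ => g z) h
      simp only [IsometryEquiv.toRealLinearIsometryEquiv_apply, LinearIsometryEquiv.trans_apply,
        rotation_apply, conjLIE_apply] at this
      rw [← this]; ring

lemma iso_props (f : Iso) : (sgn f = 1 ∨ sgn f = -1) ∧
    (∀ p q r s : ℂ, cross (f p - f q) (f r - f s) = sgn f * cross (p - q) (r - s)) ∧
    (∀ p q r s : ℂ, dot (f p - f q) (f r - f s) = dot (p - q) (r - s)) ∧
    (∀ (p q : ℂ) (x y : ℝ), x + y = 1 → f (x • p + y • q) = x • f p + y • f q) := by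
  obtain ⟨a, ha, h | h⟩ := iso_form f
  · have hs : sgn f = 1 := by
      unfold sgn cross; rw [h 1, h I]; simp; nlinarith
    refine ⟨Or.inl hs, ?_, ?_, ?_⟩
    · intro p q r s
      rw [hs, h p, h q, h r, h s]; unfold cross; simp
      linear_combination ((p.re - q.re) * (r.im - s.im) - (p.im - q.im) * (r.re - s.re)) * ha
    · intro p q r s
      rw [h p, h q, h r, h s]; unfold dot; simp
      linear_combination ((p.re - q.re) * (r.re - s.re) + (p.im - q.im) * (r.im - s.im)) * ha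
    · intro p q x y hxy
      rw [h (x • p + y • q), h p, h q]
      have : (x : ℂ) + y = 1 := by exact_mod_cast hxy
      simp only [real_smul]
      linear_combination (-f 0) * this
  · have hs : sgn f = -1 := by
      unfold sgn cross; rw [h 1, h I]; simp; nlinarith
    refine ⟨Or.inr hs, ?_, ?_, ?_⟩
    · intro p q r s
      rw [hs, h p, h q, h r, h s]; unfold cross; simp
      linear_combination (-((p.re - q.re) * (r.im - s.im) - (p.im - q.im) * (r.re - s.re))) * ha
    · intro p q r s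
      rw [h p, h q, h r, h s]; unfold dot; simp
      linear_combination ((p.re - q.re) * (r.re - s.re) + (p.im - q.im) * (r.im - s.im)) * ha
    · intro p q x y hxy
      rw [h (x • p + y • q), h p, h q]
      have : (x : ℂ) + y = 1 := by exact_mod_cast hxy
      simp only [real_smul, map_add, map_mul, conj_ofReal]
      linear_combination (-f 0) * this

lemma sgn_cases (f : Iso) : sgn f = 1 ∨ sgn f = -1 := (iso_props f).1
lemma cross_iso (f : Iso) (p q r s : ℂ) :
    cross (f p - f q) (f r - f s) = sgn f * cross (p - q) (r - s) := (iso_props f).2.1 p q r s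
lemma dot_iso (f : Iso) (p q r s : ℂ) :
    dot (f p - f q) (f r - f s) = dot (p - q) (r - s) := (iso_props f).2.2.1 p q r s
lemma iso_comb (f : Iso) (p q : ℂ) {x y : ℝ} (h : x + y = 1) :
    f (x • p + y • q) = x • f p + y • f q := (iso_props f).2.2.2 p q x y h

lemma sgn_mul_self (f : Iso) : sgn f * sgn f = 1 := by
  rcases sgn_cases f with h | h <;> rw [h] <;> norm_num

lemma sgn_trans (f g : Iso) : sgn (f.trans g) = sgn g * sgn f := by
  unfold sgn
  simp only [IsometryEquiv.trans_apply]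
  rw [cross_iso]; rfl

lemma iso_ext_two {f g : Iso} {p q : ℂ} (hpq : p ≠ q) (hp : f p = g p) (hq : f q = g q)
    (hs : sgn f = sgn g) : f = g := by
  ext1 z
  have h1 : cross (f q - f p) (f z - f p) = cross (f q - f p) (g z - f p) := by
    conv_rhs => rw [hp, hq]
    rw [cross_iso, cross_iso, hs]
  have h2 : dot (f q - f p) (f z - f p) = dot (f q - f p) (g z - f p) := by
    conv_rhs => rw [hp, hq]
    rw [dot_iso, dot_iso]
  have hne : f q - f p ≠ 0 := sub_ne_zero.2 (fun h => hpq (f.injective h).symm)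
  set u := f q - f p
  have hu : 0 < u.re ^ 2 + u.im ^ 2 := by
    have := Complex.normSq_pos.2 hne
    rw [Complex.normSq_apply] at this; nlinarith
  unfold cross at h1; unfold dot at h2
  simp only [sub_re, sub_im] at h1 h2
  apply Complex.ext
  · have : (u.re ^ 2 + u.im ^ 2) * ((f z).re - (g z).re) = 0 := by
      linear_combination u.re * h2 - u.im * h1
    rcases mul_eq_zero.1 this with h | h
    · linarith
    · linarith
  · have : (u.re ^ 2 + u.im ^ 2) * ((f z).im - (g z).im) = 0 := by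
      linear_combination u.im * h2 + u.re * h1
    rcases mul_eq_zero.1 this with h | h
    · linarith
    · linarith

lemma iso_mp (f : Iso) : MeasurePreserving f volume volume := by
  have h : (f : ℂ → ℂ) = (fun z => z + f 0) ∘ f.toRealLinearIsometryEquiv := by
    funext z; simp
  rw [h]
  exact (measurePreserving_add_right volume (f 0)).comp f.toRealLinearIsometryEquiv.measurePreserving

lemma vol_iso (f : Iso) (s : Set ℂ) : volume (f '' s) = volume s := by
  have h := MeasurePreserving.measure_preimage_equiv (f := f.symm.toHomeomorph.toMeasurableEquiv)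
    (iso_mp f.symm) s
  rw [← h]
  congr 1
  ext z
  simp only [mem_image, mem_preimage]
  constructor
  · rintro ⟨w, hw, rfl⟩
    simpa using hw
  · intro hz
    exact ⟨f.symm z, hz, by simp⟩

lemma volr_iso (f : Iso) (s : Set ℂ) : volume.real (f '' s) = volume.real s := by
  simp [Measure.real, vol_iso]

lemma convex_iso (f : Iso) {s : Set ℂ} (hs : Convex ℝ s) : Convex ℝ (f '' s) := by
  rintro _ ⟨p, hp, rfl⟩ _ ⟨q, hq, rfl⟩ x y hx hy hxy
  exact ⟨_, hs hp hq hx hy hxy, iso_comb f p q hxy⟩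

lemma interior_iso (f : Iso) (s : Set ℂ) : interior (f '' s) = f '' interior s :=
  (f.toHomeomorph.image_interior s).symm

lemma iso_affine (f : Iso) (φ : ℂ →L[ℝ] ℝ) (c : ℝ) :
    ∃ n1 n2 c' : ℝ, ∀ z, φ (f z) - c = n1 * z.re + n2 * z.im - c' := by
  refine ⟨φ (f 1 - f 0), φ (f I - f 0), c - φ (f 0), fun z => ?_⟩
  have h : f z = z.re • (f 1 - f 0) + z.im • (f I - f 0) + f 0 := by
    obtain ⟨a, -, h | h⟩ := iso_form f
    · rw [h z, h 1, h I]; apply Complex.ext <;> simp <;> ring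
    · rw [h z, h 1, h I]; apply Complex.ext <;> simp <;> ring
  rw [h]; simp only [map_add, map_smul, smul_eq_mul]; ring

/-- lines are null -/
lemma vol_line {n1 n2 : ℝ} (c : ℝ) (h : n1 ≠ 0 ∨ n2 ≠ 0) :
    volume {z : ℂ | n1 * z.re + n2 * z.im = c} = 0 := by
  let S : AffineSubspace ℝ ℂ :=
    { carrier := {z : ℂ | n1 * z.re + n2 * z.im = c}
      smul_vsub_vadd_mem' := by
        intro t p q r hp hq hr
        simp only [mem_ofPred_eq, vsub_eq_sub, vadd_eq_add, add_re, add_im, smul_re, smul_im, sub_re,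
          sub_im, smul_eq_mul] at *
        linear_combination t * hp - t * hq + hr }
  have hS : S ≠ ⊤ := by
    intro hT
    have h0 : (0 : ℂ) ∈ S := by rw [hT]; trivial
    have h1 : (1 : ℂ) ∈ S := by rw [hT]; trivial
    have h2 : (I : ℂ) ∈ S := by rw [hT]; trivial
    change n1 * (0 : ℂ).re + n2 * (0 : ℂ).im = c at h0
    change n1 * (1 : ℂ).re + n2 * (1 : ℂ).im = c at h1
    change n1 * (I : ℂ).re + n2 * (I : ℂ).im = c at h2
    simp at h0 h1 h2
    rcases h with h | h
    · exact h (by linarith)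
    · exact h (by linarith)
  exact Measure.addHaar_affineSubspace volume S hS

/-- closed triangle with apex `p` -/
def ctri (p q r : ℂ) : Set ℂ :=
  {z | ∃ α β : ℝ, 0 ≤ α ∧ 0 ≤ β ∧ α + β ≤ 1 ∧ z = p + α • (q - p) + β • (r - p)}

lemma vol_std : volume {z : ℂ | 0 ≤ z.re ∧ 0 ≤ z.im ∧ z.re + z.im ≤ 1} = ENNReal.ofReal (1 / 2) := by
  have h1 : {z : ℂ | 0 ≤ z.re ∧ 0 ≤ z.im ∧ z.re + z.im ≤ 1} =
      measurableEquivRealProd ⁻¹' {p : ℝ × ℝ | p.1 ∈ Icc (0 : ℝ) 1 ∧ p.2 ∈ Icc ((fun _ => 0) p.1) ((fun x => 1 - x) p.1)} := by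
    ext z
    simp only [mem_ofPred_eq, mem_preimage, measurableEquivRealProd_apply, mem_Icc]
    constructor
    · rintro ⟨a, b, c⟩; exact ⟨⟨a, by linarith⟩, b, by linarith⟩
    · rintro ⟨⟨a, -⟩, b, c⟩; exact ⟨a, b, by linarith⟩
  rw [h1, volume_preserving_equiv_real_prod.measure_preimage_equiv]
  have hm : MeasurableSet {p : ℝ × ℝ | p.1 ∈ Icc (0 : ℝ) 1 ∧ p.2 ∈ Icc ((fun _ => 0) p.1) ((fun x => 1 - x) p.1)} :=
    measurableSet_region_between_cc (f := fun _ => (0 : ℝ)) (g := fun x => 1 - x) measurable_const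
      (measurable_const.sub measurable_id) measurableSet_Icc
  rw [Measure.volume_eq_prod, Measure.prod_apply hm]
  have h2 : (fun x : ℝ => volume (Prod.mk x ⁻¹' {p : ℝ × ℝ | p.1 ∈ Icc (0 : ℝ) 1 ∧
      p.2 ∈ Icc ((fun _ => 0) p.1) ((fun x => 1 - x) p.1)})) =
      (Icc (0 : ℝ) 1).indicator (fun x => ENNReal.ofReal (1 - x)) := by
    funext x
    by_cases hx : x ∈ Icc (0 : ℝ) 1
    · rw [indicator_of_mem hx]
      have : (Prod.mk x ⁻¹' {p : ℝ × ℝ | p.1 ∈ Icc (0 : ℝ) 1 ∧
          p.2 ∈ Icc ((fun _ => 0) p.1) ((fun x => 1 - x) p.1)}) = Icc 0 (1 - x) := by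
        ext y; simp only [mem_preimage, mem_ofPred_eq]; exact ⟨fun h => h.2, fun h => ⟨hx, h⟩⟩
      rw [this]; simp
    · rw [indicator_of_notMem hx]
      have : (Prod.mk x ⁻¹' {p : ℝ × ℝ | p.1 ∈ Icc (0 : ℝ) 1 ∧
          p.2 ∈ Icc ((fun _ => 0) p.1) ((fun x => 1 - x) p.1)}) = ∅ := by
        ext y; simp only [mem_preimage, mem_ofPred_eq, mem_empty_iff_false, iff_false]
        exact fun h => hx h.1
      rw [this]; simp
  rw [h2, lintegral_indicator measurableSet_Icc]
  rw [← ofReal_integral_eq_lintegral_ofReal]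
  · congr 1
    rw [integral_Icc_eq_integral_Ioc, ← intervalIntegral.integral_of_le zero_le_one]
    rw [intervalIntegral.integral_sub (by simp) (by simp)]
    simp; norm_num
  · exact (continuous_const.sub continuous_id).integrableOn_Icc
  · refine (ae_restrict_iff' measurableSet_Icc).2 (Eventually.of_forall fun x hx => ?_)
    simp only [Pi.zero_apply]; linarith [hx.2]

lemma vol_ctri (p q r : ℂ) :
    volume (ctri p q r) = ENNReal.ofReal (|cross (q - p) (r - p)| / 2) := by
  let L : ℂ →ₗ[ℝ] ℂ := Complex.reLm.smulRight (q - p) + Complex.imLm.smulRight (r - p)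
  have hL : ∀ z, L z = z.re • (q - p) + z.im • (r - p) := fun z => rfl
  have hdet : LinearMap.det L = cross (q - p) (r - p) := by
    rw [← LinearMap.det_toMatrix Complex.basisOneI, Matrix.det_fin_two]
    simp [LinearMap.toMatrix_apply, hL, cross]; ring
  have h1 : ctri p q r = (fun z => p + z) '' (L '' {z : ℂ | 0 ≤ z.re ∧ 0 ≤ z.im ∧ z.re + z.im ≤ 1}) := by
    ext z
    constructor
    · rintro ⟨α, β, h1, h2, h3, rfl⟩
      refine ⟨_, ⟨⟨α, β⟩, ⟨h1, h2, h3⟩, rfl⟩, ?_⟩
      rw [hL]; simp [add_assoc]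
    · rintro ⟨_, ⟨w, ⟨h1, h2, h3⟩, rfl⟩, rfl⟩
      exact ⟨w.re, w.im, h1, h2, h3, by rw [hL]; simp [add_assoc]⟩
  rw [h1, image_add_left, measure_preimage_add, Measure.addHaar_image_linearMap, vol_std, hdet,
    ← ENNReal.ofReal_mul (abs_nonneg _)]
  congr 1; ring

lemma volr_ctri (p q r : ℂ) : volume.real (ctri p q r) = |cross (q - p) (r - p)| / 2 := by
  rw [Measure.real, vol_ctri, ENNReal.toReal_ofReal (by positivity)]

lemma vol_ctri_ne_top (p q r : ℂ) : volume (ctri p q r) ≠ ⊤ := by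
  rw [vol_ctri]; exact ENNReal.ofReal_ne_top

lemma isCompact_ctri (p q r : ℂ) : IsCompact (ctri p q r) := by
  have : ctri p q r = (fun x : ℝ × ℝ => p + x.1 • (q - p) + x.2 • (r - p)) ''
      ((Icc (0 : ℝ) 1 ×ˢ Icc (0 : ℝ) 1) ∩ {x | x.1 + x.2 ≤ 1}) := by
    ext z
    constructor
    · rintro ⟨α, β, h1, h2, h3, rfl⟩
      exact ⟨(α, β), ⟨⟨⟨h1, by linarith⟩, ⟨h2, by linarith⟩⟩, h3⟩, rfl⟩
    · rintro ⟨x, ⟨⟨⟨h1, -⟩, ⟨h2, -⟩⟩, h3⟩, rfl⟩
      exact ⟨x.1, x.2, h1, h2, h3, rfl⟩
  rw [this]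
  refine IsCompact.image ((isCompact_Icc.prod isCompact_Icc).inter_right ?_) (by fun_prop)
  exact isClosed_le (by fun_prop) continuous_const

lemma measurableSet_ctri (p q r : ℂ) : MeasurableSet (ctri p q r) :=
  (isCompact_ctri p q r).isClosed.measurableSet

lemma mem_ctri {p q r z : ℂ} (h : 0 < cross (q - p) (r - p)) (h1 : 0 ≤ cross (q - p) (z - p))
    (h2 : 0 ≤ cross (r - q) (z - q)) (h3 : 0 ≤ cross (p - r) (z - r)) : z ∈ ctri p q r := by
  set D := cross (q - p) (r - p) with hD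
  refine ⟨cross (p - r) (z - r) / D, cross (q - p) (z - p) / D, by positivity, by positivity, ?_, ?_⟩
  · rw [← add_div, div_le_one h]
    unfold cross at *
    simp only [sub_re, sub_im] at *
    nlinarith
  · have hD0 : D ≠ 0 := h.ne'
    apply Complex.ext
    · simp only [add_re, smul_re, sub_re, smul_eq_mul]
      field_simp
      rw [hD]; unfold cross; simp only [sub_re, sub_im]; ring
    · simp only [add_im, smul_im, sub_im, smul_eq_mul]
      field_simp
      rw [hD]; unfold cross; simp only [sub_re, sub_im]; ring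

/-- an affine functional on the plane -/
def aff (h : ℝ × ℝ × ℝ) (z : ℂ) : ℝ := h.1 * z.re + h.2.1 * z.im - h.2.2

lemma continuous_aff (h : ℝ × ℝ × ℝ) : Continuous (aff h) := by
  unfold aff; fun_prop

lemma aff_tri (h : ℝ × ℝ × ℝ) (p q r : ℂ) (α β : ℝ) :
    aff h (p + α • (q - p) + β • (r - p)) = (1 - α - β) * aff h p + α * aff h q + β * aff h r := by
  unfold aff; simp; ring

lemma aff_le_of_mem_ctri {h : ℝ × ℝ × ℝ} {p q r z : ℂ} (hz : z ∈ ctri p q r) (hp : aff h p ≤ 0)
    (hq : aff h q ≤ 0) (hr : aff h r ≤ 0) : aff h z ≤ 0 := by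
  obtain ⟨α, β, h1, h2, h3, rfl⟩ := hz
  rw [aff_tri]
  have : 0 ≤ 1 - α - β := by linarith
  nlinarith [mul_nonneg this (neg_nonneg.2 hp), mul_nonneg h1 (neg_nonneg.2 hq),
    mul_nonneg h2 (neg_nonneg.2 hr)]

lemma aff_ge_of_mem_ctri {h : ℝ × ℝ × ℝ} {p q r z : ℂ} (hz : z ∈ ctri p q r) (hp : 0 ≤ aff h p)
    (hq : 0 ≤ aff h q) (hr : 0 ≤ aff h r) : 0 ≤ aff h z := by
  obtain ⟨α, β, h1, h2, h3, rfl⟩ := hz
  rw [aff_tri]
  have : 0 ≤ 1 - α - β := by linarith
  positivity

lemma ctri_swap (p q r : ℂ) : ctri p q r = ctri p r q := by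
  ext z
  constructor
  · rintro ⟨α, β, h1, h2, h3, rfl⟩; exact ⟨β, α, h2, h1, by linarith, by abel⟩
  · rintro ⟨α, β, h1, h2, h3, rfl⟩; exact ⟨β, α, h2, h1, by linarith, by abel⟩

/-- the part of a triangle cut off by a half-plane -/
noncomputable def cut (h : ℝ × ℝ × ℝ) (p q r : ℂ) : ℝ := volume.real (ctri p q r ∩ {z | 0 < aff h z})

lemma cut_nonneg (h : ℝ × ℝ × ℝ) (p q r : ℂ) : 0 ≤ cut h p q r := measureReal_nonneg

lemma cut_swap (h : ℝ × ℝ × ℝ) (p q r : ℂ) : cut h p q r = cut h p r q := by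
  unfold cut; rw [ctri_swap]

lemma cut_le (h : ℝ × ℝ × ℝ) (p q r : ℂ) : cut h p q r ≤ |cross (q - p) (r - p)| / 2 := by
  rw [← volr_ctri]
  exact measureReal_mono inter_subset_left (vol_ctri_ne_top _ _ _)

lemma cut_eq_zero {h : ℝ × ℝ × ℝ} {p q r : ℂ} (hp : aff h p ≤ 0) (hq : aff h q ≤ 0)
    (hr : aff h r ≤ 0) : cut h p q r = 0 := by
  unfold cut
  have : ctri p q r ∩ {z | 0 < aff h z} = ∅ := by
    ext z
    simp only [mem_inter_iff, mem_ofPred_eq, mem_empty_iff_false, iff_false, not_and, not_lt]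
    exact fun hz => aff_le_of_mem_ctri hz hp hq hr
  rw [this]; simp

lemma cut_le_frac {h : ℝ × ℝ × ℝ} {p q r : ℂ} (hp : 0 < aff h p) (hq : aff h q ≤ 0)
    (hr : aff h r ≤ 0) :
    cut h p q r ≤ |cross (q - p) (r - p)| / 2 * (aff h p / (aff h p - aff h q)) := by
  set d := aff h p / (aff h p - aff h q) with hd
  have hden : 0 < aff h p - aff h q := by linarith
  have hd0 : 0 < d := div_pos hp hden
  have hsub : ctri p q r ∩ {z | 0 < aff h z} ⊆ ctri p (p + d • (q - p)) r := by
    rintro z ⟨⟨α, β, h1, h2, h3, rfl⟩, hz⟩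
    refine ⟨α / d, β, by positivity, h2, ?_, ?_⟩
    · simp only [mem_ofPred_eq] at hz
      rw [aff_tri] at hz
      have : α / d = α * (aff h p - aff h q) / aff h p := by rw [hd]; field_simp
      rw [this, div_add' _ _ _ hp.ne', div_le_one hp]
      nlinarith [mul_nonneg h2 (neg_nonneg.2 hr)]
    · rw [add_sub_cancel_left, smul_smul, div_mul_cancel₀ _ hd0.ne']
  refine (measureReal_mono hsub (vol_ctri_ne_top _ _ _)).trans (le_of_eq ?_)
  rw [volr_ctri, add_sub_cancel_left]
  have : cross (d • (q - p)) (r - p) = d * cross (q - p) (r - p) := by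
    unfold cross; simp; ring
  rw [this, abs_mul, abs_of_pos hd0]; ring

end Pool.Agent.P.MP_365d4e_co
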