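import Pool.Agent.P.MP_365d4e_co.Classify

set_option autoImplicit false

open Set Filter Topology MeasureTheory Metric

namespace Pool.Agent.P.MP_365d4e_co

lemma ultra_lim (𝒰 : Ultrafilter ℕ) {u : ℕ → ℂ} {c : ℂ} {r : ℝ} (h : ∀ᶠ k in 𝒰, dist (u k) c ≤ r) :
    ∃ x, Tendsto u 𝒰 (𝓝 x) := by
  obtain ⟨x, -, hx⟩ := (isCompact_closedBall c r).ultrafilter_le_nhds (𝒰.map u)
    (le_principal_iff.2 h)
  exact ⟨x, hx⟩

lemma iso_limit (𝒰 : Ultrafilter ℕ) (f : ℕ → Iso) {q : ℂ} {M : ℝ}
    (h : ∀ᶠ k in 𝒰, dist (f k o) q ≤ M) :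
    ∃ F : Iso, (∀ z, Tendsto (fun k => f k z) 𝒰 (𝓝 (F z))) ∧
      ∀ z, Tendsto (fun k => (f k).symm z) 𝒰 (𝓝 (F.symm z)) := by
  have h1 : ∀ z, ∃ x, Tendsto (fun k => f k z) 𝒰 (𝓝 x) := fun z =>
    ultra_lim 𝒰 (c := q) (r := dist z o + M) (h.mono fun k hk => by
      have := dist_triangle (f k z) (f k o) q
      rw [(f k).dist_eq] at this
      linarith)
  have h2 : ∀ z, ∃ x, Tendsto (fun k => (f k).symm z) 𝒰 (𝓝 x) := fun z =>
    ultra_lim 𝒰 (c := o) (r := dist z q + M) (h.mono fun k hk => by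
      rw [← (f k).dist_eq, IsometryEquiv.apply_symm_apply]
      have := dist_triangle z q (f k o)
      rw [dist_comm q] at this
      linarith)
  choose F hF using h1
  choose G hG using h2
  refine ⟨⟨⟨F, G, fun z => ?_, fun z => ?_⟩, Isometry.of_dist_eq fun z w => ?_⟩, hF, hG⟩
  · have a := (hG (F z)).dist (tendsto_const_nhds (x := z))
    have b := (tendsto_const_nhds (x := F z)).dist (hF z)
    have e : (fun k => dist ((f k).symm (F z)) z) = fun k => dist (F z) (f k z) := by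
      funext k; rw [← (f k).dist_eq, IsometryEquiv.apply_symm_apply]
    rw [e] at a
    have := tendsto_nhds_unique a b
    rw [dist_self] at this
    exact dist_eq_zero.1 this
  · have a := (hF (G z)).dist (tendsto_const_nhds (x := z))
    have b := (tendsto_const_nhds (x := G z)).dist (hG z)
    have e : (fun k => dist (f k (G z)) z) = fun k => dist (G z) ((f k).symm z) := by
      funext k; rw [← (f k).dist_eq (G z), IsometryEquiv.apply_symm_apply]
    rw [e] at a
    have := tendsto_nhds_unique a b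
    rw [dist_self] at this
    exact dist_eq_zero.1 this
  · have a := (hF z).dist (hF w)
    simp only [IsometryEquiv.dist_eq] at a
    exact tendsto_nhds_unique a tendsto_const_nhds

noncomputable def fl (z : ℂ) : ℤ × ℤ := (⌊z.re⌋, ⌊z.im⌋)

lemma dist_fl (z : ℂ) : dist z (zp (fl z)) ≤ 2 := by
  have := dist_le_coord (z := z) (w := zp (fl z)) (a := 1) (b := 1)
    (by simp only [zp, fl]; rw [abs_le]; constructor <;> linarith [Int.floor_le z.re, Int.lt_floor_add_one z.re])
    (by simp only [zp, fl]; rw [abs_le]; constructor <;> linarith [Int.floor_le z.im, Int.lt_floor_add_one z.im])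
  linarith

lemma dist_of_fl {z w : ℂ} (h : fl z = fl w) : dist z w ≤ 2 := by
  obtain ⟨h1, h2⟩ := Prod.ext_iff.1 h
  have := dist_le_coord (z := z) (w := w) (Int.abs_sub_lt_one_of_floor_eq_floor h1).le
    (Int.abs_sub_lt_one_of_floor_eq_floor h2).le
  linarith

lemma finite_grid (y : ℂ) (R : ℝ) : {q : ℤ × ℤ | dist (zp q) y ≤ R}.Finite := by
  refine ((finite_Icc ⌊y.re - R⌋ ⌈y.re + R⌉).prod (finite_Icc ⌊y.im - R⌋ ⌈y.im + R⌉)).subset ?_
  intro q hq
  obtain ⟨a, b⟩ := dist_coord hq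
  rw [abs_le] at a b
  simp only [zp] at a b
  refine ⟨⟨?_, ?_⟩, ?_, ?_⟩
  · exact Int.floor_le_iff.2 (by linarith [a.1])
  · exact Int.le_ceil_iff.2 (by linarith [a.2])
  · exact Int.floor_le_iff.2 (by linarith [b.1])
  · exact Int.le_ceil_iff.2 (by linarith [b.2])

lemma eq_of_close {T : Set ℂ} (hK : Ko ⊆ T) {g : ℕ → Iso}
    (hdis : Pairwise fun i j => Disjoint (interior (g i '' T)) (interior (g j '' T))) {i j : ℕ}
    (h : dist (g i o) (g j o) ≤ 2) : i = j := by
  by_contra hne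
  have hKi : Ko ⊆ interior T := interior_maximal hK isOpen_Ko
  refine (fun h1 h2 => Set.disjoint_left.1 (hdis hne) h1 h2 : _ ∈ _ → _ → False) (?_ : g i o ∈ _) ?_
  · rw [interior_iso]; exact ⟨o, hKi o_mem_Ko, rfl⟩
  · rw [interior_iso]
    refine ⟨(g j).symm (g i o), hKi (ball_subset_Ko ?_), by simp⟩
    rw [mem_closedBall, ← (g j).dist_eq]; simpa using h

lemma volr_ball (z : ℂ) {r : ℝ} (hr : 0 ≤ r) : volume.real (ball z r) = Real.pi * r ^ 2 := by
  rw [Measure.real, Complex.volume_ball]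
  simp [hr, mul_comm]

theorem limit_false {T : Set ℂ} (hT : IsCompact T) (hK : Ko ⊆ T) (g : ℕ → ℕ → Iso)
    (c : ℕ → ℕ → Fin 4) (hcov : ∀ k z, ∃ i, z ∈ g k i '' T)
    (hdis : ∀ k, Pairwise fun i j => Disjoint (interior (g k i '' T)) (interior (g k j '' T)))
    (hov : ∀ (k : ℕ) i j, i ≠ j → g k i o ∈ ball (0 : ℂ) k → g k j o ∈ ball (0 : ℂ) k →
      volume.real (g k i '' (hexT (c k i)).C ∩ g k j '' (hexT (c k j)).C) ≤ (1 / (k + 1)) ^ 2)
    (hunc : ∀ k : ℕ, volume.real (ball (0 : ℂ) k \ ⋃ i, g k i '' (hexT (c k i)).C) ≤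
      (1 / (k + 1)) ^ 2) : False := by
  classical
  let 𝒰 := hyperfilter ℕ
  have hU : (𝒰 : Filter ℕ) ≤ atTop := Nat.hyperfilter_le_atTop
  have hbig : ∀ R : ℝ, ∀ᶠ k : ℕ in 𝒰, R < k := fun R =>
    (tendsto_natCast_atTop_atTop.eventually (eventually_gt_atTop R)).filter_mono hU
  have hsmall : ∀ ε : ℝ, 0 < ε → ∀ᶠ k : ℕ in 𝒰, 1 / ((k : ℝ) + 1) < ε := fun ε hε =>
    (tendsto_one_div_add_atTop_nhds_zero_nat.eventually (gt_mem_nhds hε)).filter_mono hU
  let J : ℕ → ℤ × ℤ → ℕ := fun k q => if h : ∃ i, fl (g k i o) = q then h.choose else 0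
  have hJ : ∀ k i, J k (fl (g k i o)) = i := by
    intro k i
    have h : ∃ j, fl (g k j o) = fl (g k i o) := ⟨i, rfl⟩
    simp only [J, dif_pos h]
    exact eq_of_close hK (hdis k) (dist_of_fl h.choose_spec)
  let ι := {q : ℤ × ℤ // ∀ᶠ k in 𝒰, fl (g k (J k q) o) = q}
  have hd : ∀ q : ι, ∀ᶠ k in 𝒰, dist (g k (J k q) o) (zp q) ≤ 2 := fun q =>
    q.2.mono fun k hk => by conv_lhs => rw [← hk, hJ]
                            exact dist_fl _
  choose F hF1 hF2 using fun q : ι => iso_limit 𝒰 (fun k => g k (J k q)) (hd q)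
  have hc : ∀ q : ι, ∃ c0, ∀ᶠ k in 𝒰, c k (J k q) = c0 := fun q =>
    Ultrafilter.eventually_exists_iff.1 (Eventually.of_forall fun k => ⟨_, rfl⟩)
  choose c0 hc0 using hc
  have sel : ∀ (y : ℂ) (D : ℝ) (P : ℕ → ℕ → Prop),
      (∀ᶠ k in 𝒰, ∃ i, dist (g k i o) y ≤ D ∧ P k i) → ∃ q : ι, ∀ᶠ k in 𝒰, P k (J k q) := by
    intro y D P h
    have : ∀ᶠ k in 𝒰, ∃ q ∈ {q : ℤ × ℤ | dist (zp q) y ≤ D + 2},
        fl (g k (J k q) o) = q ∧ P k (J k q) := by
      filter_upwards [h] with k ⟨i, h1, h2⟩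
      refine ⟨fl (g k i o), ?_, by rw [hJ], by rw [hJ]; exact h2⟩
      have := dist_triangle_left (zp (fl (g k i o))) y (g k i o)
      have := dist_fl (g k i o)
      change dist _ _ ≤ _
      linarith
    obtain ⟨q, -, hq⟩ := (Ultrafilter.eventually_exists_mem_iff (finite_grid y (D + 2))).1 this
    exact ⟨⟨q, hq.mono fun k hk => hk.1⟩, hq.mono fun k hk => hk.2⟩
  have hne : ∀ q q' : ι, q ≠ q' → ∀ᶠ k in 𝒰, J k q ≠ J k q' := by
    intro q q' h
    filter_upwards [q.2, q'.2] with k h1 h2 h3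
    apply h; apply Subtype.ext
    rw [← h1, ← h2, h3]
  obtain ⟨D, hD⟩ := hT.isBounded.subset_closedBall o
  refine partC (F := F) (c := c0) ⟨fun y => ?_, fun q q' hq => ?_, fun z => ?_⟩ hT.isClosed hK
    (fun y => ?_) (fun q q' hq => ?_)
  · -- covering by hexagons
    obtain ⟨q, hq⟩ := sel y 7001 (fun k i => ∃ z, dist z y < 1 / ((k : ℝ) + 1) ∧
        z ∈ g k i '' (hexT (c k i)).C) (by
      filter_upwards [hbig (‖y‖ + 1)] with k hk
      have hk0 : (0 : ℝ) < 1 / ((k : ℝ) + 1) := by positivity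
      have hk1 : 1 / ((k : ℝ) + 1) ≤ 1 := by
        rw [div_le_one (by positivity)]; linarith [Nat.cast_nonneg (α := ℝ) k]
      by_contra hcon
      have hsub : ball y (1 / ((k : ℝ) + 1)) ⊆ ball (0 : ℂ) k \ ⋃ i, g k i '' (hexT (c k i)).C := by
        intro z hz
        rw [mem_ball] at hz
        refine ⟨?_, fun h => hcon ?_⟩
        · rw [mem_ball]
          have := dist_triangle z y 0
          rw [dist_zero_right y] at this
          linarith
        · obtain ⟨i, hi⟩ := mem_iUnion.1 h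
          refine ⟨i, ?_, z, hz, hi⟩
          obtain ⟨w, hw, rfl⟩ := hi
          have := dist_triangle_left (g k i o) y (g k i w)
          rw [(g k i).dist_eq] at this
          linarith [hexC_bound hw]
      have := (measureReal_mono hsub (ne_top_of_le_ne_top measure_ball_lt_top.ne
        (measure_mono sdiff_subset))).trans (hunc k)
      rw [volr_ball _ hk0.le] at this
      nlinarith [Real.pi_gt_three, pow_pos hk0 2])
    refine ⟨q, ?_⟩
    rw [Tile.map_C]
    refine ⟨(F q).symm y, ?_, by simp⟩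
    rw [← (hexT (c0 q)).isClosed_C.closure_eq, Metric.mem_closure_iff]
    intro ε hε
    obtain ⟨k, ⟨⟨z, h1, w, h2, rfl⟩, h3⟩, h4, h5⟩ := ((hq.and (hc0 q)).and ((hsmall (ε / 2)
      (by linarith)).and ((hF2 q y).eventually (ball_mem_nhds _ (half_pos hε))))).exists
    refine ⟨w, h3 ▸ h2, ?_⟩
    have := dist_triangle_left ((F q).symm y) w ((g k (J k q)).symm y)
    have e : dist ((g k (J k q)).symm y) w = dist (g k (J k q) w) y := by
      rw [← (g k (J k q)).dist_eq, IsometryEquiv.apply_symm_apply, dist_comm]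
    linarith
  · -- disjoint hexagons
    refine Set.disjoint_left.2 fun z h1 h2 => ?_
    rw [Tile.map_O] at h1 h2
    have key : ∀ q : ι, z ∈ F q '' (hexT (c0 q)).O → ∃ r > 0, ∀ᶠ k in 𝒰,
        ball z r ⊆ g k (J k q) '' (hexT (c k (J k q))).C ∧ g k (J k q) o ∈ ball (0 : ℂ) k := by
      rintro q ⟨y, hy, rfl⟩
      obtain ⟨r, hr, hb⟩ := Metric.isOpen_iff.1 (hexT (c0 q)).isOpen_O y hy
      refine ⟨r / 2, half_pos hr, ?_⟩
      filter_upwards [hc0 q, (hF2 q (F q y)).eventually (ball_mem_nhds _ (half_pos hr)), hd q,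
        hbig (‖zp q‖ + 2)] with k a b d e
      refine ⟨fun w hw => ⟨(g k (J k q)).symm w, ?_, by simp⟩, ?_⟩
      · rw [a]
        refine (hexT (c0 q)).O_subset_C (hb ?_)
        rw [IsometryEquiv.symm_apply_apply] at b
        rw [mem_ball] at hw ⊢
        have := dist_triangle ((g k (J k q)).symm w) ((g k (J k q)).symm (F q y)) y
        rw [IsometryEquiv.dist_eq] at this
        linarith
      · rw [mem_ball]
        have := dist_triangle (g k (J k q) o) (zp q) 0
        rw [dist_zero_right (zp q)] at this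
        linarith
    obtain ⟨r, hr, a⟩ := key q h1
    obtain ⟨r', hr', a'⟩ := key q' h2
    have hm : 0 < min r r' := lt_min hr hr'
    obtain ⟨k, ⟨⟨b1, b2⟩, b3, b4⟩, b5, b6⟩ := ((a.and a').and ((hne q q' hq).and (hsmall _ hm))).exists
    have hsub : ball z (min r r') ⊆ g k (J k q) '' (hexT (c k (J k q))).C ∩
        g k (J k q') '' (hexT (c k (J k q'))).C :=
      subset_inter ((ball_subset_ball (min_le_left _ _)).trans b1)
        ((ball_subset_ball (min_le_right _ _)).trans b3)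
    have := (measureReal_mono hsub (ne_top_of_le_ne_top
      (by rw [vol_iso]; exact vol_hexC_ne_top _) (measure_mono inter_subset_left))).trans
      (hov k _ _ b5 b2 b4)
    rw [volr_ball _ hm.le] at this
    have hk0 : (0 : ℝ) < 1 / ((k : ℝ) + 1) := by positivity
    have := pow_lt_pow_left₀ b6 hk0.le two_ne_zero
    nlinarith [Real.pi_gt_three, pow_pos hm 2]
  · -- local finiteness
    refine ⟨ball z 1, ball_mem_nhds _ one_pos, ?_⟩
    refine ((finite_grid z 7003).preimage Subtype.val_injective.injOn).subset ?_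
    rintro q ⟨w, h1, h2⟩
    beta_reduce at h1
    rw [Tile.map_C] at h1
    obtain ⟨u, hu, rfl⟩ := h1
    have a : dist (F q o) (zp q) ≤ 2 := le_of_tendsto ((hF1 q o).dist tendsto_const_nhds) (hd q)
    have b := hexC_bound hu
    rw [← (F q).dist_eq] at b
    rw [mem_ball] at h2
    have := dist_triangle4 (zp q) (F q o) (F q u) z
    rw [dist_comm (zp q) (F q o), dist_comm (F q o) (F q u)] at this
    simp only [mem_preimage, mem_ofPred_eq]
    linarith
  · -- covering by copies of T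
    obtain ⟨q, hq⟩ := sel y D (fun k i => y ∈ g k i '' T) (Eventually.of_forall fun k => by
      obtain ⟨i, w, hw, rfl⟩ := hcov k y
      refine ⟨i, ?_, w, hw, rfl⟩
      rw [(g k i).dist_eq, dist_comm]; exact hD hw)
    refine ⟨q, (F q).symm y, ?_, by simp⟩
    refine hT.isClosed.mem_of_tendsto (hF2 q y) (hq.mono ?_)
    rintro k ⟨w, hw, e⟩
    rw [← e]; simpa using hw
  · refine Set.disjoint_left.2 fun z h1 h2 => ?_
    have key : ∀ q : ι, z ∈ interior (F q '' T) → ∀ᶠ k in 𝒰, z ∈ interior (g k (J k q) '' T) := by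
      intro q h
      rw [interior_iso] at h
      obtain ⟨y, hy, rfl⟩ := h
      filter_upwards [(hF2 q (F q y)).eventually (isOpen_interior.mem_nhds (by simpa using hy))]
        with k hk
      rw [interior_iso]
      exact ⟨_, hk, by simp⟩
    obtain ⟨k, ⟨a, b⟩, d⟩ := (((key q h1).and (key q' h2)).and (hne q q' hq)).exists
    exact Set.disjoint_left.1 (hdis k d) a b

end Pool.Agent.P.MP_365d4e_co
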