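import Pool.Agent.P.MP_365d4e_co.Window

set_option autoImplicit false

open Set Filter Topology MeasureTheory Metric

namespace Pool.Agent.P.MP_365d4e_co

lemma K_box {w : ℂ} (hw : w ∈ K) : -1275 ≤ w.re ∧ w.re ≤ 5100 ∧ 0 ≤ w.im ∧ w.im ≤ 5300 := by
  obtain ⟨a0, a1, a2, a3, a4, a5, a6, a7⟩ := mem_K.1 hw
  refine ⟨?_, ?_, ?_, ?_⟩ <;> linarith

lemma copy_box (a b t : Bool) {w : ℂ} (hw : w ∈ K) :
    -1575 ≤ sgZ a * w.re + (off a b t).1 ∧ sgZ a * w.re + (off a b t).1 ≤ 10404 ∧
    -5300 ≤ sgZ b * w.im + (off a b t).2 ∧ sgZ b * w.im + (off a b t).2 ≤ 22600 := by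
  obtain ⟨a0, a1, a2, a3⟩ := K_box hw
  cases a <;> cases b <;> cases t <;> simp only [sgZ, off] <;> push_cast <;>
    refine ⟨?_, ?_, ?_, ?_⟩ <;> simp <;> linarith

lemma pk_inj0 {a b t a' b' t' : Bool} {m n : ℤ} {w w' : ℂ} (hw : w ∈ Ko) (hw' : w' ∈ Ko)
    (h1 : sgZ a * w.re + (off a b t).1 = sgZ a' * w'.re + (off a' b' t').1 + 9600 * m)
    (h2 : sgZ b * w.im + (off a b t).2 = sgZ b' * w'.im + (off a' b' t').2 + 19800 * n) :
    a = a' ∧ b = b' ∧ t = t' ∧ m = 0 ∧ n = 0 := by
  obtain ⟨p1, p2, p3, p4⟩ := copy_box a b t (Ko_subset_K hw)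
  obtain ⟨q1, q2, q3, q4⟩ := copy_box a' b' t' (Ko_subset_K hw')
  have m1 : -2 < m := by
    have : ((-2 : ℤ) : ℝ) < m := by push_cast; linarith
    exact_mod_cast this
  have m2 : m < 2 := by
    have : (m : ℝ) < (2 : ℤ) := by push_cast; linarith
    exact_mod_cast this
  have n1 : -2 < n := by
    have : ((-2 : ℤ) : ℝ) < n := by push_cast; linarith
    exact_mod_cast this
  have n2 : n < 2 := by
    have : (n : ℝ) < (2 : ℤ) := by push_cast; linarith
    exact_mod_cast this
  clear p1 p2 p3 p4 q1 q2 q3 q4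
  obtain ⟨a0, a1, a2, a3, a4, a5, a6, a7⟩ := mem_Ko.1 hw
  obtain ⟨b0, b1, b2, b3, b4, b5, b6, b7⟩ := mem_Ko.1 hw'
  clear hw hw'
  generalize w.re = x at *
  generalize w.im = y at *
  generalize w'.re = x' at *
  generalize w'.im = y' at *
  have s1 : ((sgZ true : ℤ) : ℝ) = -1 := by simp [sgZ]
  have s2 : ((sgZ false : ℤ) : ℝ) = 1 := by simp [sgZ]
  cases a <;> cases b <;> cases t <;> cases a' <;> cases b' <;> cases t' <;>
    simp only [s1, s2, off] at h1 h2 <;> clear s1 s2 <;> interval_cases m <;> interval_cases n <;>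
    push_cast at h1 h2 <;>
    first
      | exact ⟨rfl, rfl, rfl, rfl, rfl⟩
      | (exfalso; linarith)

abbrev Ix := (Bool × Bool × Bool) × ℤ × ℤ

/-- placements of the periodic packing -/
def pk (s : Ix) : Mo := (s.1.1, s.1.2.1, (off s.1.1 s.1.2.1 s.1.2.2).1 + 9600 * s.2.1,
  (off s.1.1 s.1.2.1 s.1.2.2).2 + 19800 * s.2.2)

lemma pk_disj : Pairwise fun s s' : Ix => Disjoint (rig (pk s) '' Ko) (rig (pk s') '' Ko) := by
  rintro ⟨⟨a, b, t⟩, m, n⟩ ⟨⟨a', b', t'⟩, m', n'⟩ hne
  refine Set.disjoint_left.2 ?_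
  rintro _ ⟨w, hw, rfl⟩ ⟨w', hw', e⟩
  have e1 := congrArg Complex.re e
  have e2 := congrArg Complex.im e
  simp only [rig_apply, Mo.app, pk] at e1 e2
  push_cast at e1 e2
  obtain ⟨rfl, rfl, rfl, h1, h2⟩ := pk_inj0 (a := a) (b := b) (t := t) (a' := a') (b' := b')
    (t' := t') (m := m' - m) (n := n' - n) hw hw' (by push_cast; linarith) (by push_cast; linarith)
  exact hne (by rw [show m = m' by omega, show n = n' by omega])

lemma volr_Ko : volume.real Ko = volume.real K := by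
  rw [← interior_K, Measure.real, Measure.real,
    measure_interior_of_null_frontier (convex_K.addHaar_frontier volume)]

lemma volr_K_pos : 0 < volume.real K :=
  ENNReal.toReal_pos (Measure.measure_pos_of_nonempty_interior volume
    (by rw [interior_K]; exact ⟨o, o_mem_Ko⟩)).ne' isCompact_K.measure_lt_top.ne

lemma pack_lower {R : ℝ} (hR : 40000 ≤ R) :
    volume.real K / 23760000 * (Real.pi * (R - 40000) ^ 2) ≤
      volume.real ((⋃ s : Ix, rig (pk s) '' K) ∩ ball 0 R) := by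
  classical
  have ha : (0 : ℝ) < 9600 := by norm_num
  have hb : (0 : ℝ) < 19800 := by norm_num
  let ψ := cellIx 0 0 9600 19800
  have hfin : (ψ '' ball 0 (R - 40000)).Finite := by
    refine ((finite_Icc (-⌈R⌉) ⌈R⌉).prod (finite_Icc (-⌈R⌉) ⌈R⌉)).subset ?_
    rintro p ⟨z, hz, e⟩
    obtain ⟨⟨a1, a2⟩, a3, a4⟩ := (cellIx_eq ha hb).1 e
    obtain ⟨b1, b2⟩ := dist_coord (mem_ball.1 hz).le
    simp only [Complex.zero_re, Complex.zero_im, sub_zero, abs_le] at b1 b2
    have := Int.le_ceil R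
    refine ⟨⟨?_, ?_⟩, ?_, ?_⟩
    · have : ((-⌈R⌉ : ℤ) : ℝ) ≤ p.1 := by push_cast; linarith [b1.1]
      exact_mod_cast this
    · have : (p.1 : ℝ) ≤ (⌈R⌉ : ℤ) := by linarith [b1.2]
      exact_mod_cast this
    · have : ((-⌈R⌉ : ℤ) : ℝ) ≤ p.2 := by push_cast; linarith [b2.1]
      exact_mod_cast this
    · have : (p.2 : ℝ) ≤ (⌈R⌉ : ℤ) := by linarith [b2.2]
      exact_mod_cast this
  let G := hfin.toFinset
  have hG : Real.pi * (R - 40000) ^ 2 ≤ G.card * (9600 * 19800) := by
    rw [← (card_cells (x0 := 0) (y0 := 0) ha hb G).2, ← volr_ball 0 (by linarith)]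
    refine measureReal_mono (fun z hz => ?_) (card_cells ha hb G).1
    exact Finset.mem_coe.2 (hfin.mem_toFinset.2 ⟨z, hz, rfl⟩)
  let H : Finset Ix := Finset.univ ×ˢ G
  have hH : (H.card : ℝ) = 8 * G.card := by simp [H]
  have hU : volume.real (⋃ s ∈ H, rig (pk s) '' Ko) = H.card * volume.real K := by
    rw [measureReal_biUnion_finset (fun s _ s' _ h => pk_disj h)
      (fun s _ => ((rig (pk s)).toHomeomorph.isOpen_image.2 isOpen_Ko).measurableSet)
      (fun s _ => by
        rw [vol_iso]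
        exact ne_top_of_le_ne_top isCompact_K.measure_lt_top.ne (measure_mono Ko_subset_K))]
    simp only [volr_iso, volr_Ko, Finset.sum_const, nsmul_eq_mul]
  have hsub : (⋃ s ∈ H, rig (pk s) '' Ko) ⊆ (⋃ s : Ix, rig (pk s) '' K) ∩ ball 0 R := by
    intro z hz
    obtain ⟨⟨⟨a, b, t⟩, p⟩, hs, w, hw, rfl⟩ := mem_iUnion₂.1 hz
    refine ⟨mem_iUnion.2 ⟨_, w, Ko_subset_K hw, rfl⟩, ?_⟩
    obtain ⟨z, hz, e⟩ := hfin.mem_toFinset.1 (Finset.mem_product.1 hs).2
    obtain ⟨⟨a1, a2⟩, a3, a4⟩ := (cellIx_eq ha hb).1 e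
    obtain ⟨p1, p2, p3, p4⟩ := copy_box a b t (Ko_subset_K hw)
    have := dist_le_coord (z := rig (pk ((a, b, t), p)) w) (w := z) (a := 12000) (b := 26000)
      (by simp only [rig_apply, Mo.app, pk]; push_cast; rw [abs_le]; constructor <;> linarith)
      (by simp only [rig_apply, Mo.app, pk]; push_cast; rw [abs_le]; constructor <;> linarith)
    have := dist_triangle (rig (pk ((a, b, t), p)) w) z 0
    rw [mem_ball] at hz ⊢
    linarith
  have := measureReal_mono (μ := volume) hsub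
    (ne_top_of_le_ne_top measure_ball_lt_top.ne (measure_mono inter_subset_right))
  rw [hU, hH] at this
  refine le_trans ?_ this
  have := volr_K_pos
  rw [div_mul_eq_mul_div, div_le_iff₀ (by norm_num)]
  nlinarith

/-- upper density of a planar set -/
noncomputable def dens (S : Set ℂ) : ENNReal :=
  limsup (fun R : ℝ => volume (S ∩ ball 0 R) / volume (ball (0 : ℂ) R)) atTop

lemma ratio_eq (S : Set ℂ) {R : ℝ} (hR : 0 < R) : volume (S ∩ ball 0 R) / volume (ball (0 : ℂ) R) =
    ENNReal.ofReal (volume.real (S ∩ ball 0 R) / (Real.pi * R ^ 2)) := by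
  rw [ENNReal.ofReal_div_of_pos (by positivity), ← volr_ball 0 hR.le,
    ofReal_measureReal (ne_top_of_le_ne_top measure_ball_lt_top.ne (measure_mono inter_subset_right)),
    ofReal_measureReal measure_ball_lt_top.ne]

theorem packC : ∃ g : ℕ → Iso,
    (Pairwise fun i j => Disjoint (interior (g i '' K)) (interior (g j '' K))) ∧
    ENNReal.ofReal (volume.real K / 23760000) ≤ dens (⋃ i, g i '' K) := by
  obtain ⟨σ⟩ : Nonempty (ℕ ≃ Ix) := nonempty_equiv_of_countable
  refine ⟨fun i => rig (pk (σ i)), fun i j hij => ?_, ?_⟩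
  · beta_reduce
    rw [interior_iso, interior_iso, interior_K]
    exact pk_disj (σ.injective.ne hij)
  · rw [σ.surjective.iUnion_comp fun s => rig (pk s) '' K]
    have ht : Tendsto (fun R : ℝ => ENNReal.ofReal (volume.real K / 23760000 * (1 - 40000 / R) ^ 2))
        atTop (𝓝 (ENNReal.ofReal (volume.real K / 23760000 * (1 - 0) ^ 2))) :=
      ENNReal.tendsto_ofReal (tendsto_const_nhds.mul
        ((tendsto_const_nhds.sub (tendsto_const_nhds.div_atTop tendsto_id)).pow 2))
    have e := ht.limsup_eq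
    simp only [sub_zero, one_pow, mul_one] at e
    rw [← e]
    refine limsup_le_limsup ?_
    filter_upwards [eventually_ge_atTop 40000] with R hR
    have h0 : 0 < R := by linarith
    rw [ratio_eq _ h0]
    refine ENNReal.ofReal_le_ofReal ?_
    rw [le_div_iff₀ (by positivity)]
    refine le_trans (le_of_eq ?_) (pack_lower hR)
    field_simp

theorem mainC {e f : ℕ → Iso} {T : Set ℂ} (hT : IsCompact T) (hcov : ∀ z, ∃ i, z ∈ f i '' T)
    (hdis : Pairwise fun i j => Disjoint (interior (f i '' T)) (interior (f j '' T)))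
    (hsub : ∀ i, e i '' K ⊆ f i '' T)
    (hlim : ENNReal.ofReal (volume.real K / 23760000) ≤ dens (⋃ i, e i '' K)) : False := by
  let φ : Iso := (e 0).trans (f 0).symm
  let T' := φ.symm '' T
  let f' : ℕ → Iso := fun j => φ.trans (f j)
  have him : ∀ j, f' j '' T' = f j '' T := fun j => by
    simp only [f', T', image_image]; simp
  have hT' : IsCompact T' := hT.image φ.symm.continuous
  have hK : Ko ⊆ T' := by
    intro z hz
    obtain ⟨t, ht, h⟩ := hsub 0 ⟨z, Ko_subset_K hz, rfl⟩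
    refine ⟨t, ht, ?_⟩
    rw [IsometryEquiv.symm_apply_eq]
    simp [φ, ← h]
  have hdis' : Pairwise fun i j => Disjoint (interior (f' i '' T')) (interior (f' j '' T')) := by
    simpa only [him] using hdis
  obtain ⟨D, hD0, hD⟩ := hT'.isBounded.subset_closedBall_lt 0 o
  refine count_false hT' hK (f := f') (by simpa only [him] using hcov) hdis' fun ε M hε hM => ?_
  rcases le_or_gt 1 ε with h1 | h1
  · refine ⟨1, one_pos, ∅, by simp, ?_⟩
    simp only [Finset.card_empty, Nat.cast_zero, mul_zero]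
    exact mul_nonpos_of_nonpos_of_nonneg (by linarith) (by positivity)
  have κ0 := volr_K_pos
  have hlt : ENNReal.ofReal ((1 - ε / 2) * (volume.real K / 23760000)) <
      dens (⋃ i, e i '' K) := by
    refine lt_of_lt_of_le ?_ hlim
    rw [ENNReal.ofReal_lt_ofReal_iff (by positivity)]
    have : 0 < volume.real K / 23760000 := by positivity
    nlinarith
  obtain ⟨R, hR, hR1, hR2⟩ := ((frequently_lt_of_lt_limsup (h := hlt)).and_eventually
    ((eventually_ge_atTop (D + M)).and (eventually_ge_atTop (6 * (D + M) / ε)))).exists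
  have h0 : 0 < R := by linarith
  rw [ratio_eq _ h0, ENNReal.ofReal_lt_ofReal_iff', lt_div_iff₀ (by positivity)] at hR
  have hfin := finite_centres hK hdis' 0 (R + D)
  refine ⟨R + D, by linarith, hfin.toFinset, fun i hi => hfin.mem_toFinset.1 hi, ?_⟩
  have hle : volume.real ((⋃ i, e i '' K) ∩ ball 0 R) ≤ hfin.toFinset.card * volume.real K := by
    refine (measureReal_mono (s₂ := ⋃ i ∈ hfin.toFinset, e i '' K) ?_ ?_).trans
      ((measureReal_biUnion_finset_le _ _).trans ?_)
    · rintro z ⟨h1, h2⟩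
      obtain ⟨i, hi⟩ := mem_iUnion.1 h1
      refine mem_iUnion₂.2 ⟨i, hfin.mem_toFinset.2 ?_, hi⟩
      have := hsub i hi
      rw [← him] at this
      obtain ⟨t, ht, rfl⟩ := this
      have a := mem_closedBall.1 (hD ht)
      rw [← (f' i).dist_eq] at a
      have := dist_triangle_left (f' i o) 0 (f' i t)
      rw [mem_ball] at h2
      change dist _ _ ≤ _
      linarith
    · exact ((hfin.toFinset.finite_toSet).isCompact_biUnion
        fun i _ => isCompact_K.image (e i).continuous).measure_lt_top.ne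
    · simp only [volr_iso, Finset.sum_const, nsmul_eq_mul, le_refl]
  have k1 : (1 - ε / 2) * (Real.pi * R ^ 2) ≤ 23760000 * hfin.toFinset.card := by
    have := hR.1.le.trans hle
    refine le_of_mul_le_mul_right ?_ κ0
    linarith
  refine le_trans ?_ k1
  rw [div_le_iff₀ hε] at hR2
  have k2 : (1 - ε) * (R + D + M) ^ 2 ≤ (1 - ε / 2) * R ^ 2 := by
    have c0 : 0 < D + M := by linarith
    have a : (R + D + M) ^ 2 ≤ R ^ 2 + 3 * R * (D + M) := by nlinarith
    have b : 3 * R * (D + M) ≤ ε / 2 * R ^ 2 := by nlinarith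
    have c : (1 - ε) * (R + D + M) ^ 2 ≤ (1 - ε) * (R ^ 2 + 3 * R * (D + M)) :=
      mul_le_mul_of_nonneg_left a (by linarith)
    have d : 0 ≤ ε * (3 * R * (D + M)) := by positivity
    nlinarith
  nlinarith [Real.pi_pos]

end Pool.Agent.P.MP_365d4e_co
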