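import Pool.Agent.P.MP_365d4e_co.Geo

set_option autoImplicit false

open Set Filter Topology Complex

namespace Pool.Agent.P.MP_365d4e_co

/-- a strictly convex hexagon all of whose angles are obtuse -/
structure Tile where
  V : ZMod 6 → ℂ
  o : ℝ
  ho : o = 1 ∨ o = -1
  conv : ∀ k j, j ≠ k → j ≠ k + 1 → 0 < o * cross (V (k + 1) - V k) (V j - V k)
  obt : ∀ k, dot (V (k + 1) - V k) (V (k - 1) - V k) < 0

lemma z6 : ∀ k : ZMod 6, (k + 1 ≠ k - 1 ∧ k + 1 ≠ k - 1 + 1) ∧ k + 1 ≠ k ∧ (k ≠ k + 1 ∧ k ≠ k + 1 + 1) ∧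
    (k + 1 + 1 ≠ k ∧ k + 1 + 1 ≠ k + 1) ∧ (k - 1 ≠ k ∧ k - 1 ≠ k + 1) := by decide

namespace Tile

variable (P : Tile)

def e (k : ZMod 6) : ℂ := P.V (k + 1) - P.V k
def val (k : ZMod 6) (z : ℂ) : ℝ := P.o * cross (P.e k) (z - P.V k)
def dv (k : ZMod 6) (d : ℂ) : ℝ := P.o * cross (P.e k) d
def C : Set ℂ := {z | ∀ k, 0 ≤ P.val k z}
def O : Set ℂ := {z | ∀ k, 0 < P.val k z}
def Dir (z : ℂ) : Set ℂ := {d | ∀ k, P.val k z = 0 → 0 < P.dv k d}
noncomputable def pt (k : ZMod 6) (τ : ℝ) : ℂ := P.V k + τ • P.e k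

lemma oo : P.o * P.o = 1 := by rcases P.ho with h | h <;> rw [h] <;> norm_num

lemma val_add (k : ZMod 6) (z d : ℂ) (t : ℝ) : P.val k (z + t • d) = P.val k z + t * P.dv k d := by
  unfold val dv cross; simp; ring

lemma val_pt (m k : ZMod 6) (τ : ℝ) :
    P.val m (P.pt k τ) = (1 - τ) * P.val m (P.V k) + τ * P.val m (P.V (k + 1)) := by
  unfold pt val cross e; simp; ring

lemma val_self (k : ZMod 6) : P.val k (P.V k) = 0 := by unfold val cross; simp
lemma val_succ (k : ZMod 6) : P.val k (P.V (k + 1)) = 0 := by unfold val cross e; simp; right; ring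
lemma val_pos {k j : ZMod 6} (h1 : j ≠ k) (h2 : j ≠ k + 1) : 0 < P.val k (P.V j) := P.conv k j h1 h2

lemma val_nonneg (k j : ZMod 6) : 0 ≤ P.val k (P.V j) := by
  by_cases h1 : j = k
  · rw [h1, val_self]
  · by_cases h2 : j = k + 1
    · rw [h2, val_succ]
    · exact (P.val_pos h1 h2).le

lemma V_mem (j : ZMod 6) : P.V j ∈ P.C := fun k => P.val_nonneg k j

lemma V_inj : Function.Injective P.V := by
  intro j k h
  by_contra hne
  by_cases h2 : j = k + 1
  · have a : P.val (k - 1) (P.V k) = 0 := by simpa using P.val_succ (k - 1)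
    have b : 0 < P.val (k - 1) (P.V j) := by
      rw [h2]; exact P.val_pos (z6 k).1.1 (z6 k).1.2
    rw [h, a] at b; exact lt_irrefl _ b
  · have b := P.val_pos hne h2
    rw [h, val_self] at b; exact lt_irrefl _ b

lemma e_ne (k : ZMod 6) : P.e k ≠ 0 := by
  refine sub_ne_zero.2 fun h => ?_
  exact (z6 k).2.1 (P.V_inj h)

lemma dot_self_pos {u : ℂ} (h : u ≠ 0) : 0 < dot u u := by
  have := Complex.normSq_pos.2 h
  rw [Complex.normSq_apply] at this
  exact this

lemma continuous_val (k : ZMod 6) : Continuous (P.val k) := by unfold val cross; fun_prop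
lemma continuous_dv (k : ZMod 6) : Continuous (P.dv k) := by unfold dv cross; fun_prop

lemma isClosed_C : IsClosed P.C := by
  have : P.C = ⋂ k, {z | 0 ≤ P.val k z} := by ext z; simp [C]
  rw [this]; exact isClosed_iInter fun k => isClosed_le continuous_const (P.continuous_val k)

lemma isOpen_O : IsOpen P.O := by
  have : P.O = ⋂ k, {z | 0 < P.val k z} := by ext z; simp [O]
  rw [this]; exact isOpen_iInter_of_finite fun k => isOpen_lt continuous_const (P.continuous_val k)

lemma isOpen_Dir (z : ℂ) : IsOpen (P.Dir z) := by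
  have : P.Dir z = ⋂ k, ⋂ (_ : P.val k z = 0), {d | 0 < P.dv k d} := by ext d; simp [Dir]
  rw [this]
  exact isOpen_iInter_of_finite fun k => isOpen_iInter_of_finite fun _ =>
    isOpen_lt continuous_const (P.continuous_dv k)

lemma O_subset_C : P.O ⊆ P.C := fun _ h k => (h k).le

variable {P}

lemma on_side {z : ℂ} (hz : z ∈ P.C) {k : ZMod 6} (h : P.val k z = 0) :
    ∃ τ, 0 ≤ τ ∧ τ ≤ 1 ∧ z = P.pt k τ := by
  have he := dot_self_pos (P.e_ne k)
  have hc : cross (P.e k) (z - P.V k) = 0 := by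
    unfold val at h
    rcases mul_eq_zero.1 h with h | h
    · have := P.oo; rw [h] at this; norm_num at this
    · exact h
  set τ := dot (P.e k) (z - P.V k) / dot (P.e k) (P.e k) with hτ
  have hzτ : z = P.pt k τ := by
    unfold pt
    have h1 : τ * dot (P.e k) (P.e k) = dot (P.e k) (z - P.V k) := by rw [hτ]; field_simp
    unfold dot cross at *
    simp only [sub_re, sub_im] at *
    apply Complex.ext
    · simp only [add_re, smul_re, smul_eq_mul]
      have : ((P.e k).re * (P.e k).re + (P.e k).im * (P.e k).im) *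
          (z.re - ((P.V k).re + τ * (P.e k).re)) = 0 := by
        linear_combination (-(P.e k).re) * h1 - (P.e k).im * hc
      rcases mul_eq_zero.1 this with h | h <;> linarith
    · simp only [add_im, smul_im, smul_eq_mul]
      have : ((P.e k).re * (P.e k).re + (P.e k).im * (P.e k).im) *
          (z.im - ((P.V k).im + τ * (P.e k).im)) = 0 := by
        linear_combination (-(P.e k).im) * h1 + (P.e k).re * hc
      rcases mul_eq_zero.1 this with h | h <;> linarith
  refine ⟨τ, ?_, ?_, hzτ⟩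
  · have a := hz (k - 1)
    have a0 : P.val (k - 1) (P.V k) = 0 := by simpa using P.val_succ (k - 1)
    have b : 0 < P.val (k - 1) (P.V (k + 1)) := P.val_pos (z6 k).1.1 (z6 k).1.2
    rw [hzτ, val_pt, a0] at a
    by_contra hc; push Not at hc; nlinarith
  · have a := hz (k + 1)
    have b : 0 < P.val (k + 1) (P.V k) := P.val_pos (z6 k).2.2.1.1 (z6 k).2.2.1.2
    rw [hzτ, val_pt, val_self] at a
    by_contra hc; push Not at hc; nlinarith

lemma pt_mem (k : ZMod 6) {τ : ℝ} (h0 : 0 ≤ τ) (h1 : τ ≤ 1) : P.pt k τ ∈ P.C := by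
  intro m
  rw [val_pt]
  have := P.val_nonneg m k
  have := P.val_nonneg m (k + 1)
  have : 0 ≤ 1 - τ := by linarith
  positivity

lemma val_pt_self (k : ZMod 6) (τ : ℝ) : P.val k (P.pt k τ) = 0 := by
  rw [val_pt, val_self, val_succ]; ring

lemma val_pt_pos {k m : ZMod 6} (hm : m ≠ k) {τ : ℝ} (h0 : 0 < τ) (h1 : τ < 1) :
    0 < P.val m (P.pt k τ) := by
  rw [val_pt]
  have a := P.val_nonneg m k
  have b := P.val_nonneg m (k + 1)
  have c : 0 < 1 - τ := by linarith
  by_cases h : k = m + 1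
  · have : 0 < P.val m (P.V (k + 1)) := by
      rw [h]; exact P.val_pos (z6 m).2.2.2.1.1 (z6 m).2.2.2.1.2
    positivity
  · have : 0 < P.val m (P.V k) := P.val_pos hm.symm h
    positivity

lemma val_V_zero {k m : ZMod 6} (h : P.val m (P.V k) = 0) : m = k ∨ m = k - 1 := by
  by_contra hc
  push Not at hc
  have : 0 < P.val m (P.V k) := by
    apply P.val_pos hc.1.symm
    intro h'; apply hc.2; rw [h']; ring
  rw [h] at this; exact lt_irrefl _ this

lemma mem_cases {z : ℂ} (hz : z ∈ P.C) :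
    z ∈ P.O ∨ (∃ k τ, 0 < τ ∧ τ < 1 ∧ z = P.pt k τ) ∨ ∃ k, z = P.V k := by
  by_cases h : z ∈ P.O
  · exact Or.inl h
  · right
    simp only [O, mem_ofPred_eq, not_forall, not_lt] at h
    obtain ⟨k, hk⟩ := h
    obtain ⟨τ, h0, h1, hτ⟩ := on_side hz (le_antisymm hk (hz k))
    rcases h0.eq_or_lt with rfl | h0
    · right; exact ⟨k, by simpa [pt] using hτ⟩
    · rcases h1.eq_or_lt with rfl | h1
      · right; exact ⟨k + 1, by simpa [pt, e] using hτ⟩
      · left; exact ⟨k, τ, h0, h1, hτ⟩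

lemma dir_enter {z d : ℂ} (hz : z ∈ P.C) (hd : d ∈ P.Dir z) :
    ∀ᶠ t : ℝ in 𝓝[>] 0, z + t • d ∈ P.O := by
  have : ∀ k, ∀ᶠ t : ℝ in 𝓝[>] 0, 0 < P.val k (z + t • d) := by
    intro k
    rcases (hz k).eq_or_lt with h | h
    · filter_upwards [self_mem_nhdsWithin] with t ht
      rw [val_add, ← h, zero_add]
      exact mul_pos ht (hd k h.symm)
    · have hc : Continuous fun t : ℝ => P.val k (z + t • d) :=
        (P.continuous_val k).comp (by fun_prop)
      have : ∀ᶠ t : ℝ in 𝓝 0, 0 < P.val k (z + t • d) :=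
        hc.continuousAt.eventually (lt_mem_nhds (by simpa using h))
      exact this.filter_mono nhdsWithin_le_nhds
  exact (eventually_all.2 this)

lemma dir_disj {Q : Tile} {z d : ℂ} (hP : z ∈ P.C) (hQ : z ∈ Q.C) (h1 : d ∈ P.Dir z)
    (h2 : d ∈ Q.Dir z) : ¬ Disjoint P.O Q.O := by
  obtain ⟨t, a, b⟩ := ((dir_enter hP h1).and (dir_enter hQ h2)).exists
  exact fun h => Set.disjoint_left.1 h a b

lemma dv_neg (k : ZMod 6) (d : ℂ) : P.dv k (-d) = -P.dv k d := by unfold dv cross; simp; ring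
lemma dv_add (k : ZMod 6) (d d' : ℂ) (t : ℝ) : P.dv k (d + t • d') = P.dv k d + t * P.dv k d' := by
  unfold dv cross; simp; ring
lemma dv_I (k : ZMod 6) (d : ℂ) : P.dv k (I * d) = P.o * dot (P.e k) d := by
  unfold dv cross dot; simp
lemma dv_e (k : ZMod 6) : P.dv k (P.e k) = 0 := by unfold dv cross; ring

lemma two_dirs {a b : ℝ} (h : 0 < a * b) : (0 < a ∧ 0 < b) ∨ (0 < -a ∧ 0 < -b) := by
  rcases pos_and_pos_or_neg_and_neg_of_mul_pos h with h | h
  · exact Or.inl h
  · exact Or.inr ⟨by linarith [h.1], by linarith [h.2]⟩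

lemma four_dirs {z u : ℂ} (hz : z ∈ P.C) (hu : u ≠ 0) :
    u ∈ P.Dir z ∨ -u ∈ P.Dir z ∨ I * u ∈ P.Dir z ∨ -(I * u) ∈ P.Dir z := by
  have key : ∀ a b : ZMod 6, 0 < dot (P.e a) (P.e b) → (∀ m, P.val m z = 0 → m = a ∨ m = b) →
      u ∈ P.Dir z ∨ -u ∈ P.Dir z ∨ I * u ∈ P.Dir z ∨ -(I * u) ∈ P.Dir z := by
    intro a b hab hm
    have mk : ∀ d, 0 < P.dv a d → 0 < P.dv b d → d ∈ P.Dir z := by
      intro d h1 h2 m h
      rcases hm m h with rfl | rfl
      · exact h1
      · exact h2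
    have hs : P.dv a u * P.dv b u + P.dv a (I * u) * P.dv b (I * u) =
        dot (P.e a) (P.e b) * dot u u := by
      rw [dv_I, dv_I]; unfold dv cross dot
      linear_combination (((P.e a).re * (P.e b).re + (P.e a).im * (P.e b).im) *
        (u.re * u.re + u.im * u.im)) * P.oo
    have hp := mul_pos hab (dot_self_pos hu)
    by_cases h1 : 0 < P.dv a u * P.dv b u
    · rcases two_dirs h1 with h | h
      · exact Or.inl (mk _ h.1 h.2)
      · exact Or.inr (Or.inl (mk _ (by rw [dv_neg]; exact h.1) (by rw [dv_neg]; exact h.2)))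
    · have h2 : 0 < P.dv a (I * u) * P.dv b (I * u) := by linarith
      rcases two_dirs h2 with h | h
      · exact Or.inr (Or.inr (Or.inl (mk _ h.1 h.2)))
      · exact Or.inr (Or.inr (Or.inr (mk _ (by rw [dv_neg]; exact h.1) (by rw [dv_neg]; exact h.2))))
  rcases mem_cases hz with h | ⟨k, τ, h0, h1, rfl⟩ | ⟨k, rfl⟩
  · exact Or.inl fun m hm => absurd hm (h m).ne'
  · refine key k k (dot_self_pos (P.e_ne k)) fun m hm => Or.inl ?_
    by_contra hc
    exact (val_pt_pos hc h0 h1).ne' hm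
  · refine key k (k - 1) ?_ fun m hm => val_V_zero hm
    have := P.obt k
    unfold e dot at *
    simp only [sub_add_cancel, sub_re, sub_im] at *
    linarith

/-- inward normal of side `k` -/
noncomputable def nv (P : Tile) (k : ZMod 6) : ℂ := P.o • (I * P.e k)

lemma dv_nv (k m : ZMod 6) : P.dv m (P.nv k) = dot (P.e m) (P.e k) := by
  unfold nv dv cross dot; simp
  linear_combination ((P.e m).re * (P.e k).re + (P.e m).im * (P.e k).im) * P.oo

lemma four_dirs' {Q : Tile} {z : ℂ} (hz : z ∈ Q.C) (k : ZMod 6) :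
    P.e k ∈ Q.Dir z ∨ -P.e k ∈ Q.Dir z ∨ P.nv k ∈ Q.Dir z ∨ -P.nv k ∈ Q.Dir z := by
  have := four_dirs hz (P.e_ne k)
  unfold nv
  rcases P.ho with h | h <;> rw [h] <;> simp only [one_smul, neg_smul, neg_neg] <;> tauto

lemma perturb {Q : Tile} {z d n : ℂ} (h : d ∈ Q.Dir z) : ∃ t : ℝ, 0 < t ∧ d + t • n ∈ Q.Dir z := by
  have hc : Continuous fun t : ℝ => d + t • n := by fun_prop
  have : ∀ᶠ t : ℝ in 𝓝 0, d + t • n ∈ Q.Dir z :=
    hc.continuousAt.eventually ((Q.isOpen_Dir z).mem_nhds (by simpa using h))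
  obtain ⟨t, a, b⟩ := ((this.filter_mono nhdsWithin_le_nhds).and
    (self_mem_nhdsWithin (a := (0 : ℝ)) (s := Ioi 0))).exists
  exact ⟨t, b, a⟩

lemma corner_dir (k : ZMod 6) :
    P.V (k + 1) + P.V (k - 1) - 2 * P.V k ∈ P.Dir (P.V k) := by
  intro m hm
  rcases val_V_zero hm with rfl | rfl
  · have : 0 < P.val m (P.V (m - 1)) := P.val_pos (z6 m).2.2.2.2.1 (z6 m).2.2.2.2.2
    convert this using 1
    unfold dv val cross e; simp; left; ring
  · have : 0 < P.val (k - 1) (P.V (k + 1)) := P.val_pos (z6 k).1.1 (z6 k).1.2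
    convert this using 1
    unfold dv val cross e; simp; left; ring

/-- image of a tile under an isometry -/
noncomputable def map (f : Iso) (P : Tile) : Tile where
  V := fun k => f (P.V k)
  o := sgn f * P.o
  ho := by rcases sgn_cases f with h | h <;> rcases P.ho with h' | h' <;> rw [h, h'] <;> norm_num
  conv := by
    intro k j h1 h2
    rw [cross_iso]
    have := P.conv k j h1 h2
    have e := sgn_mul_self f
    calc 0 < (sgn f * sgn f) * (P.o * cross (P.V (k + 1) - P.V k) (P.V j - P.V k)) := by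
          rw [e, one_mul]; exact this
      _ = _ := by ring
  obt := by intro k; rw [dot_iso]; exact P.obt k

lemma map_val (f : Iso) (k : ZMod 6) (z : ℂ) : (P.map f).val k (f z) = P.val k z := by
  unfold val e map
  simp only
  rw [cross_iso]
  linear_combination (P.o * cross (P.V (k + 1) - P.V k) (z - P.V k)) * sgn_mul_self f

lemma map_C (f : Iso) : (P.map f).C = f '' P.C := by
  ext z
  obtain ⟨w, rfl⟩ := f.surjective z
  rw [f.injective.mem_set_image]
  simp only [C, mem_ofPred_eq, map_val]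

lemma map_O (f : Iso) : (P.map f).O = f '' P.O := by
  ext z
  obtain ⟨w, rfl⟩ := f.surjective z
  rw [f.injective.mem_set_image]
  simp only [O, mem_ofPred_eq, map_val]

end Tile

end Pool.Agent.P.MP_365d4e_co
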