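import Pool.Agent.P.MP_365d4e_co.Tile

set_option autoImplicit false

open Set Filter Topology Complex

namespace Pool.Agent.P.MP_365d4e_co

open Tile

/-- a locally finite tiling of the plane by obtuse hexagons -/
structure IsTiling {ι : Type} (P : ι → Tile) : Prop where
  cov : ∀ z, ∃ i, z ∈ (P i).C
  dis : Pairwise fun i j => Disjoint (P i).O (P j).O
  lf : LocallyFinite fun i => (P i).C

variable {ι : Type} {P : ι → Tile}

lemma IsTiling.eq_of_dir (H : IsTiling P) {i j : ι} {z d : ℂ} (hi : z ∈ (P i).C) (hj : z ∈ (P j).C)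
    (h1 : d ∈ (P i).Dir z) (h2 : d ∈ (P j).Dir z) : i = j := by
  by_contra hne
  exact dir_disj hi hj h1 h2 (H.dis hne)

lemma IsTiling.near_cover (H : IsTiling P) (z : ℂ) :
    ∀ᶠ w in 𝓝 z, ∃ i, z ∈ (P i).C ∧ w ∈ (P i).C := by
  filter_upwards [H.lf.iInter_compl_mem_nhds (fun i => (P i).isClosed_C) z] with w hw
  obtain ⟨i, hi⟩ := H.cov w
  refine ⟨i, ?_, hi⟩
  by_contra hz
  simp only [mem_iInter] at hw
  exact hw i hz hi

lemma side_dir {Q : Tile} {k : ZMod 6} {τ : ℝ} (h0 : 0 < τ) (h1 : τ < 1) {d : ℂ}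
    (hd : 0 < Q.dv k d) : d ∈ Q.Dir (Q.pt k τ) := by
  intro m hm
  by_cases h : m = k
  · rw [h]; exact hd
  · exact absurd hm (val_pt_pos h h0 h1).ne'

lemma IsTiling.side_other (H : IsTiling P) {i m : ι} {k : ZMod 6} {τ : ℝ} (h0 : 0 < τ) (h1 : τ < 1)
    (hm : m ≠ i) (hz : (P i).pt k τ ∈ (P m).C) : -(P i).nv k ∈ (P m).Dir ((P i).pt k τ) := by
  have hi := pt_mem (P := P i) k h0.le h1.le
  have hn : 0 < (P i).dv k ((P i).nv k) := by rw [dv_nv]; exact dot_self_pos ((P i).e_ne k)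
  rcases four_dirs' (P := P i) hz k with h | h | h | h
  · obtain ⟨t, ht, h⟩ := perturb (n := (P i).nv k) h
    refine absurd (H.eq_of_dir hz hi h (side_dir h0 h1 ?_)) hm
    rw [dv_add, dv_e, zero_add]; positivity
  · obtain ⟨t, ht, h⟩ := perturb (n := (P i).nv k) h
    refine absurd (H.eq_of_dir hz hi h (side_dir h0 h1 ?_)) hm
    rw [dv_add, dv_neg, dv_e, neg_zero, zero_add]; positivity
  · exact absurd (H.eq_of_dir hz hi h (side_dir h0 h1 hn)) hm
  · exact h

lemma IsTiling.side_unique (H : IsTiling P) {i m m' : ι} {k : ZMod 6} {τ : ℝ} (h0 : 0 < τ)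
    (h1 : τ < 1) (hm : m ≠ i) (hz : (P i).pt k τ ∈ (P m).C) (hm' : m' ≠ i)
    (hz' : (P i).pt k τ ∈ (P m').C) : m = m' :=
  H.eq_of_dir hz hz' (H.side_other h0 h1 hm hz) (H.side_other h0 h1 hm' hz')

lemma tendsto_ray (z d : ℂ) : Tendsto (fun t : ℝ => z + t • d) (𝓝[>] 0) (𝓝 z) := by
  have hc : Continuous fun t : ℝ => z + t • d := by fun_prop
  have := hc.tendsto 0
  simp only [zero_smul, add_zero] at this
  exact this.mono_left nhdsWithin_le_nhds

lemma IsTiling.out_ray (H : IsTiling P) {i : ι} {k : ZMod 6} {τ : ℝ} {d : ℂ}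
    (hd : (P i).dv k d < 0) :
    ∃ t : ℝ, 0 < t ∧ ∃ m, m ≠ i ∧ (P i).pt k τ ∈ (P m).C ∧ (P i).pt k τ + t • d ∈ (P m).C := by
  obtain ⟨t, ⟨m, a, b⟩, ht⟩ := (((tendsto_ray ((P i).pt k τ) d).eventually (H.near_cover _)).and
    (self_mem_nhdsWithin (a := (0 : ℝ)) (s := Ioi 0))).exists
  refine ⟨t, ht, m, ?_, a, b⟩
  rintro rfl
  have := b k
  rw [val_add, val_pt_self, zero_add] at this
  have ht' : 0 < t := ht
  nlinarith

lemma IsTiling.side_struct (H : IsTiling P) {i m : ι} {k : ZMod 6} {τ : ℝ} (h0 : 0 < τ) (h1 : τ < 1)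
    (hm : m ≠ i) (hz : (P i).pt k τ ∈ (P m).C) :
    ∃ k' τ', 0 < τ' ∧ τ' < 1 ∧ (P i).pt k τ = (P m).pt k' τ' ∧ (P m).dv k' ((P i).e k) = 0 ∧
      0 < (P m).dv k' (-(P i).nv k) := by
  have hi := pt_mem (P := P i) k h0.le h1.le
  have hn : 0 < (P i).dv k ((P i).nv k) := by rw [dv_nv]; exact dot_self_pos ((P i).e_ne k)
  have hact : ∀ k', (P m).val k' ((P i).pt k τ) = 0 → (P m).dv k' ((P i).e k) = 0 := by
    intro k' hk'
    have hM : ∀ M : ℝ, 0 ≤ (P m).dv k' (-(P i).nv k) + M * (P m).dv k' ((P i).e k) := by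
      intro M
      obtain ⟨t, ht, m', a, b, c⟩ := H.out_ray (i := i) (k := k) (τ := τ)
        (d := -(P i).nv k + M • (P i).e k) (by rw [dv_add, dv_neg, dv_e]; linarith)
      have : m' = m := H.side_unique h0 h1 a b hm hz
      subst this
      have := c k'
      rw [val_add, hk', zero_add, dv_add] at this
      exact nonneg_of_mul_nonneg_right this ht
    by_contra hne
    have := hM (-((P m).dv k' (-(P i).nv k) + 1) / (P m).dv k' ((P i).e k))
    rw [div_mul_cancel₀ _ hne] at this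
    linarith
  have hdir := H.side_other h0 h1 hm hz
  rcases mem_cases hz with h | ⟨k', τ', a, b, c⟩ | ⟨j, hj⟩
  · exact absurd (H.eq_of_dir hz hi (fun m' hm' => absurd hm' (h m').ne') (side_dir h0 h1 hn)) hm
  · have hv : (P m).val k' ((P i).pt k τ) = 0 := by rw [c, val_pt_self]
    exact ⟨k', τ', a, b, c, hact k' hv, hdir k' hv⟩
  · exfalso
    have a := hact j (by rw [hj, val_self])
    have b := hact (j - 1) (by rw [hj]; simpa using (P m).val_succ (j - 1))
    have c : 0 < (P m).val (j - 1) ((P m).V (j + 1)) := (P m).val_pos (z6 j).1.1 (z6 j).1.2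
    have he := dot_self_pos ((P i).e_ne k)
    have hoo := (P m).oo
    set u := (P i).e k
    unfold val at c
    unfold dv at a b
    unfold e cross dot at *
    simp only [sub_add_cancel, sub_re, sub_im] at *
    set o := (P m).o
    set x1 := ((P m).V (j + 1)).re - ((P m).V j).re
    set y1 := ((P m).V (j + 1)).im - ((P m).V j).im
    set x0 := ((P m).V j).re - ((P m).V (j - 1)).re
    set y0 := ((P m).V j).im - ((P m).V (j - 1)).im
    have c' : 0 < o * (x0 * y1 - y0 * x1) := by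
      convert c using 1
      simp only [x0, x1, y0, y1]; ring
    have : (u.re * u.re + u.im * u.im) * (o * (x0 * y1 - y0 * x1)) = 0 := by
      linear_combination (x1 * u.re + y1 * u.im) * b - (x0 * u.re + y0 * u.im) * a
    nlinarith [mul_pos he c']

lemma continuous_pt (Q : Tile) (k : ZMod 6) : Continuous (Q.pt k) := by unfold pt; fun_prop

lemma IsTiling.side_all (H : IsTiling P) {i m : ι} {k : ZMod 6} {τ : ℝ} (h0 : 0 < τ) (h1 : τ < 1)
    (hm : m ≠ i) (hz : (P i).pt k τ ∈ (P m).C) :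
    (P i).V k ∈ (P m).C ∧ (P i).V (k + 1) ∈ (P m).C := by
  have hcl : IsClosed ((P i).pt k ⁻¹' (P m).C) := (P m).isClosed_C.preimage (continuous_pt _ _)
  have hop : ∀ σ ∈ Ioo (0 : ℝ) 1, σ ∈ (P i).pt k ⁻¹' (P m).C →
      σ ∈ interior ((P i).pt k ⁻¹' (P m).C) := by
    intro σ hσ h
    obtain ⟨k', τ', a, b, c, d, -⟩ := H.side_struct hσ.1 hσ.2 hm h
    rw [mem_interior_iff_mem_nhds]
    have : ∀ j, ∀ᶠ ρ in 𝓝 σ, 0 ≤ (P m).val j ((P i).pt k ρ) := by
      intro j
      by_cases hj : j = k'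
      · refine Eventually.of_forall fun ρ => le_of_eq ?_
        have : (P i).pt k ρ = (P i).pt k σ + (ρ - σ) • (P i).e k := by
          unfold pt; rw [sub_smul]; abel
        rw [this, val_add, hj, d, c, val_pt_self]; ring
      · have hp : 0 < (P m).val j ((P i).pt k σ) := by rw [c]; exact val_pt_pos hj a b
        have hc := ((P m).continuous_val j).comp (continuous_pt (P i) k)
        exact (hc.continuousAt.eventually (lt_mem_nhds hp)).mono fun ρ h => le_of_lt h
    exact eventually_all.2 this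
  have hsub : Ioo (0 : ℝ) 1 ⊆ interior ((P i).pt k ⁻¹' (P m).C) := by
    refine isPreconnected_Ioo.subset_of_closure_inter_subset isOpen_interior
      ⟨τ, ⟨h0, h1⟩, hop τ ⟨h0, h1⟩ hz⟩ ?_
    rintro σ ⟨a, b⟩
    exact hop σ b (hcl.closure_subset (closure_mono interior_subset a))
  have hsub2 : Icc (0 : ℝ) 1 ⊆ (P i).pt k ⁻¹' (P m).C := by
    rw [← closure_Ioo zero_ne_one]
    exact hcl.closure_subset_iff.2 (hsub.trans interior_subset)
  constructor
  · simpa [pt] using hsub2 (left_mem_Icc.2 zero_le_one)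
  · simpa [pt, e] using hsub2 (right_mem_Icc.2 zero_le_one)

/-- `m` is the neighbour of `i` across side `k` -/
def Nb (P : ι → Tile) (i : ι) (k : ZMod 6) (m : ι) (j d : ZMod 6) : Prop :=
  m ≠ i ∧ (P m).V j = (P i).V k ∧ (P m).V (j + d) = (P i).V (k + 1) ∧
    ((d = 1 ∧ (P m).o = -(P i).o) ∨ (d = -1 ∧ (P m).o = (P i).o))

theorem IsTiling.nb_exists (H : IsTiling P) (i : ι) (k : ZMod 6) : ∃ m j d, Nb P i k m j d := by
  have hn : 0 < (P i).dv k ((P i).nv k) := by rw [dv_nv]; exact dot_self_pos ((P i).e_ne k)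
  obtain ⟨-, -, m, hm, hz, -⟩ := H.out_ray (i := i) (k := k) (τ := 1 / 2) (d := -(P i).nv k)
    (by rw [dv_neg]; linarith)
  have h0 : (0 : ℝ) < 1 / 2 := by norm_num
  have h1 : (1 / 2 : ℝ) < 1 := by norm_num
  obtain ⟨k', τ', a, b, c, d, f⟩ := H.side_struct h0 h1 hm hz
  obtain ⟨p1, p2⟩ := H.side_all h0 h1 hm hz
  have hz' : (P m).pt k' τ' ∈ (P i).C := by rw [← c]; exact pt_mem k h0.le h1.le
  obtain ⟨q1, q2⟩ := H.side_all a b hm.symm hz'
  obtain ⟨k2, τ2, a2, b2, c2, d2, -⟩ := H.side_struct a b hm.symm hz'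
  have hk2 : k2 = k := by
    by_contra hne
    have := val_pt_pos (P := P i) hne h0 h1
    rw [c, c2, val_pt_self] at this
    exact lt_irrefl _ this
  subst hk2
  have v1 : (P m).val k' ((P i).V k2) = 0 := by
    have : (P i).V k2 = (P i).pt k2 (1 / 2) + (-(1 / 2) : ℝ) • (P i).e k2 := by
      unfold pt; rw [neg_smul]; abel
    rw [this, val_add, d, c, val_pt_self]; ring
  have v2 : (P m).val k' ((P i).V (k2 + 1)) = 0 := by
    have : (P i).V (k2 + 1) = (P i).pt k2 (1 / 2) + (1 / 2 : ℝ) • (P i).e k2 := by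
      unfold pt e; rw [add_assoc, ← add_smul]; norm_num
    rw [this, val_add, d, c, val_pt_self]; ring
  have w1 : (P i).val k2 ((P m).V k') = 0 := by
    have : (P m).V k' = (P m).pt k' τ' + (-τ') • (P m).e k' := by
      unfold pt; rw [neg_smul]; abel
    rw [this, val_add, d2, ← c, val_pt_self]; ring
  have w2 : (P i).val k2 ((P m).V (k' + 1)) = 0 := by
    have : (P m).V (k' + 1) = (P m).pt k' τ' + (1 - τ') • (P m).e k' := by
      unfold pt e; rw [add_assoc, ← add_smul]; norm_num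
    rw [this, val_add, d2, ← c, val_pt_self]; ring
  obtain ⟨s1, s10, s11, e1⟩ := on_side p1 v1
  obtain ⟨s2, s20, s21, e2⟩ := on_side p2 v2
  obtain ⟨r1, r10, r11, g1⟩ := on_side q1 w1
  obtain ⟨r2, r20, r21, g2⟩ := on_side q2 w2
  have eu : (P i).e k2 = (s2 - s1) • (P m).e k' := by
    unfold e at *; rw [e1, e2]; unfold pt e; rw [sub_smul]; abel
  have eu' : (P m).e k' = (r2 - r1) • (P i).e k2 := by
    unfold e at *; rw [g1, g2]; unfold pt e; rw [sub_smul]; abel
  have hprod : (s2 - s1) * (r2 - r1) = 1 := by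
    have h := eu
    rw [eu', smul_smul] at h
    have : ((s2 - s1) * (r2 - r1) - 1) • (P i).e k2 = 0 := by rw [sub_smul, ← h]; simp
    rcases smul_eq_zero.1 this with h | h
    · linarith
    · exact absurd h ((P i).e_ne k2)
  have hf : 0 < -((P m).o * (P i).o * ((s2 - s1) * dot ((P m).e k') ((P m).e k'))) := by
    convert f using 1
    rw [dv_neg]; unfold nv; rw [eu]; unfold dv cross dot; simp; ring
  have hpos := dot_self_pos ((P m).e_ne k')
  have hcase : (s1 = 0 ∧ s2 = 1) ∨ (s1 = 1 ∧ s2 = 0) := by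
    rcases le_total 0 (s2 - s1) with h | h
    · left
      have : 1 ≤ s2 - s1 := by nlinarith
      constructor <;> linarith
    · right
      have : s2 - s1 ≤ -1 := by nlinarith
      constructor <;> linarith
  rcases hcase with ⟨rfl, rfl⟩ | ⟨rfl, rfl⟩
  · refine ⟨m, k', 1, hm, by simpa [pt] using e1.symm, by simpa [pt, e] using e2.symm, Or.inl ⟨rfl, ?_⟩⟩
    rcases (P m).ho with h | h <;> rcases (P i).ho with h' | h' <;> rw [h, h'] at hf ⊢ <;> nlinarith
  · refine ⟨m, k' + 1, -1, hm, by simpa [pt, e] using e1.symm, by simpa [pt] using e2.symm,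
      Or.inr ⟨rfl, ?_⟩⟩
    rcases (P m).ho with h | h <;> rcases (P i).ho with h' | h' <;> rw [h, h'] at hf ⊢ <;> nlinarith

lemma IsTiling.adj (H : IsTiling P) (i : ι) (a s : ZMod 6) (hs : s = 1 ∨ s = -1) :
    ∃ m b t, m ≠ i ∧ (t = 1 ∨ t = -1) ∧ (P m).V b = (P i).V a ∧ (P m).V (b + t) = (P i).V (a + s) := by
  rcases hs with rfl | rfl
  · obtain ⟨m, j, d, h1, h2, h3, h4⟩ := H.nb_exists i a
    exact ⟨m, j, d, h1, h4.imp And.left And.left, h2, h3⟩
  · obtain ⟨m, j, d, h1, h2, h3, h4⟩ := H.nb_exists i (a - 1)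
    refine ⟨m, j + d, -d, h1, ?_, by simpa using h3, by simpa [sub_eq_add_neg] using h2⟩
    rcases h4 with ⟨h, -⟩ | ⟨h, -⟩ <;> rw [h] <;> simp

lemma IsTiling.vertex_other (H : IsTiling P) {i m : ι} {k : ZMod 6} (hm : m ≠ i)
    (hz : (P i).V k ∈ (P m).C) :
    -(P i).e k ∈ (P m).Dir ((P i).V k) ∨ -(P i).nv k ∈ (P m).Dir ((P i).V k) := by
  have hi := (P i).V_mem k
  have hn : 0 < (P i).dv k ((P i).nv k) := by rw [dv_nv]; exact dot_self_pos ((P i).e_ne k)
  have hn' : 0 < (P i).dv (k - 1) ((P i).nv k) := by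
    rw [dv_nv]
    have := (P i).obt k
    unfold e dot at *
    simp only [sub_add_cancel, sub_re, sub_im] at *
    linarith
  have he : 0 < (P i).dv (k - 1) ((P i).e k) := by
    have c : 0 < (P i).val (k - 1) ((P i).V (k + 1)) := (P i).val_pos (z6 k).1.1 (z6 k).1.2
    convert c using 1
    unfold dv val cross e; simp; left; ring
  have mk : ∀ d, 0 < (P i).dv k d → 0 < (P i).dv (k - 1) d → d ∈ (P i).Dir ((P i).V k) := by
    intro d h1 h2 j hj
    rcases val_V_zero hj with rfl | rfl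
    · exact h1
    · exact h2
  rcases four_dirs' (P := P i) hz k with h | h | h | h
  · obtain ⟨t, ht, h⟩ := perturb (n := (P i).nv k) h
    refine absurd (H.eq_of_dir hz hi h (mk _ ?_ ?_)) hm
    · rw [dv_add, dv_e, zero_add]; positivity
    · rw [dv_add]; positivity
  · exact Or.inl h
  · exact absurd (H.eq_of_dir hz hi h (mk _ hn hn')) hm
  · exact Or.inr h

lemma IsTiling.same_corner (H : IsTiling P) {p q : ι} {a b s t : ZMod 6} (hs : s = 1 ∨ s = -1)
    (ht : t = 1 ∨ t = -1) (h0 : (P p).V a = (P q).V b) (h1 : (P p).V (a + s) = (P q).V (b + t))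
    (h2 : (P p).V (a - s) = (P q).V (b - t)) : p = q := by
  have e : (P p).V (a + 1) + (P p).V (a - 1) = (P q).V (b + 1) + (P q).V (b - 1) := by
    rcases hs with rfl | rfl <;> rcases ht with rfl | rfl <;>
      (try simp only [sub_neg_eq_add, ← sub_eq_add_neg] at h1 h2) <;> rw [h1, h2] <;> ring
  refine H.eq_of_dir ((P p).V_mem a) (h0 ▸ (P q).V_mem b) (corner_dir a) ?_
  rw [e, h0]; exact corner_dir b

lemma z6' : ∀ j d : ZMod 6, (d = 1 ∨ d = -1) → j - d ≠ j + d := by decide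
lemma z6'' : ∀ s d : ZMod 6, (s = 1 ∨ s = -1) → (d = 1 ∨ d = -1) → s = d ∨ s = -d := by decide

theorem IsTiling.vertex (H : IsTiling P) {i m : ι} {k j d : ZMod 6} (h : Nb P i k m j d) :
    ∃ m' j' d', (d' = 1 ∨ d' = -1) ∧ (P m').V j' = (P i).V k ∧
      (P m').V (j' + d') = (P i).V (k - 1) ∧ (P m').V (j' - d') = (P m).V (j - d) := by
  obtain ⟨hm, a1, a2, hd⟩ := h
  have hd' : d = 1 ∨ d = -1 := hd.imp And.left And.left
  have hnd : -d = 1 ∨ -d = -1 := by rcases hd' with h | h <;> rw [h] <;> simp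
  obtain ⟨m', j', d', hm', hd2, b1, b2⟩ := H.adj i k (-1) (Or.inr rfl)
  rw [← sub_eq_add_neg] at b2
  obtain ⟨n, a, s, hn, hs, c1, c2⟩ := H.adj m j (-d) hnd
  rw [← sub_eq_add_neg] at c2
  have notW : (P m).V (j - d) ≠ (P i).V (k - 1) := fun hW =>
    hm (H.same_corner hd' (Or.inl rfl) a1 a2 hW)
  have hni : n ≠ i := by
    rintro rfl
    have : a = k := (P n).V_inj (c1.trans a1)
    subst this
    rcases hs with rfl | rfl
    · exact z6' j d hd' ((P m).V_inj (c2.symm.trans a2.symm))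
    · rw [← sub_eq_add_neg] at c2; exact notW c2.symm
  have hmm : m ≠ m' := by
    rintro rfl
    have : j' = j := (P m).V_inj (b1.trans a1.symm)
    subst this
    rcases z6'' d' d hd2 hd' with rfl | rfl
    · exact (z6 k).1.1 ((P i).V_inj (a2.symm.trans b2))
    · rw [← sub_eq_add_neg] at b2; exact notW b2
  have z1 : (P i).V k ∈ (P m).C := a1 ▸ (P m).V_mem j
  have z2 : (P i).V k ∈ (P m').C := b1 ▸ (P m').V_mem j'
  have z3 : (P i).V k ∈ (P n).C := (c1.trans a1) ▸ (P n).V_mem a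
  have hnm : n = m' := by
    rcases H.vertex_other hm z1 with x | x <;> rcases H.vertex_other hm' z2 with y | y <;>
      rcases H.vertex_other hni z3 with w | w <;>
      first
        | exact H.eq_of_dir z3 z2 w y
        | exact absurd (H.eq_of_dir z1 z2 x y) hmm
        | exact absurd (H.eq_of_dir z3 z1 w x) hn
  subst hnm
  have : a = j' := (P n).V_inj ((c1.trans a1).trans b1.symm)
  subst this
  refine ⟨n, a, d', hd2, b1, b2, ?_⟩
  rcases z6'' s d' hs hd2 with rfl | rfl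
  · exact absurd (c2.symm.trans b2) notW
  · rw [← sub_eq_add_neg] at c2; exact c2

theorem IsTiling.connected (H : IsTiling P) [Countable ι] (S : Set ι) {i0 : ι} (h0 : i0 ∈ S)
    (hS : ∀ i ∈ S, ∀ k m j d, Nb P i k m j d → m ∈ S) (i : ι) : i ∈ S := by
  by_contra hi
  let N : Set ℂ := range fun p : ι × ZMod 6 => (P p.1).V p.2
  have hN : N.Countable := countable_range _
  have hconn := (hN.isConnected_compl_of_one_lt_rank (by simp)).isPreconnected
  have hdense : Dense Nᶜ := hN.dense_compl ℝ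
  have hne : ∀ l, ((P l).O).Nonempty := fun l =>
    let ⟨t, ht⟩ := (dir_enter ((P l).V_mem 0) (corner_dir 0)).exists; ⟨_, ht⟩
  have hA : IsClosed (⋃ l : S, (P l).C) :=
    (H.lf.comp_injective Subtype.val_injective).isClosed_iUnion fun l => (P l).isClosed_C
  have hB : IsClosed (⋃ l : (Sᶜ : Set ι), (P l).C) :=
    (H.lf.comp_injective Subtype.val_injective).isClosed_iUnion fun l => (P l).isClosed_C
  obtain ⟨z, hzN, hzA, hzB⟩ := isPreconnected_closed_iff.1 hconn _ _ hA hB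
    (fun z _ => by
      obtain ⟨l, hl⟩ := H.cov z
      by_cases h : l ∈ S
      · exact Or.inl (mem_iUnion.2 ⟨⟨l, h⟩, hl⟩)
      · exact Or.inr (mem_iUnion.2 ⟨⟨l, h⟩, hl⟩))
    (by
      obtain ⟨z, a, b⟩ := hdense.inter_open_nonempty _ (P i0).isOpen_O (hne i0)
      exact ⟨z, b, mem_iUnion.2 ⟨⟨i0, h0⟩, (P i0).O_subset_C a⟩⟩)
    (by
      obtain ⟨z, a, b⟩ := hdense.inter_open_nonempty _ (P i).isOpen_O (hne i)
      exact ⟨z, b, mem_iUnion.2 ⟨⟨i, hi⟩, (P i).O_subset_C a⟩⟩)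
  obtain ⟨⟨p, hp⟩, hzp⟩ := mem_iUnion.1 hzA
  obtain ⟨⟨q, hq⟩, hzq⟩ := mem_iUnion.1 hzB
  have hpq : q ≠ p := fun h => hq (h ▸ hp)
  rcases mem_cases hzp with h | ⟨k, τ, a, b, rfl⟩ | ⟨k, rfl⟩
  · rcases four_dirs hzq one_ne_zero with x | x | x | x <;>
      exact hpq (H.eq_of_dir hzq hzp x fun m hm => absurd hm (h m).ne')
  · obtain ⟨m, j, d, hnb⟩ := H.nb_exists p k
    have hmz : (P p).pt k τ ∈ (P m).C := by
      intro l
      have e : (P m).val l ((P p).pt k τ) =
          (1 - τ) * (P m).val l ((P p).V k) + τ * (P m).val l ((P p).V (k + 1)) := by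
        unfold pt val cross e; simp; ring
      rw [e, ← hnb.2.1, ← hnb.2.2.1]
      have := (P m).val_nonneg l j
      have := (P m).val_nonneg l (j + d)
      have : 0 ≤ 1 - τ := by linarith
      positivity
    have : m = q := H.side_unique a b hnb.1 hmz hpq hzq
    exact hq (this ▸ hS p hp k m j d hnb)
  · exact hzN ⟨(p, k), rfl⟩

end Pool.Agent.P.MP_365d4e_co
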