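import Mathlib

/-! Packings, uniform packings and their density in the Euclidean plane. -/

namespace Pool.Agent.P.MP_365d4e_co.U

open Set Filter MeasureTheory Metric

/-- The Euclidean plane. -/
abbrev E : Type := EuclideanSpace ℝ (Fin 2)

/-- A family of congruent copies of `K` with pairwise disjoint interiors. -/
def IsPacking {ι : Type} (K : Set E) (A : ι → Set E) : Prop :=
  (∀ i, ∃ e : E ≃ᵢ E, A i = e '' K) ∧
    Pairwise fun i j => Disjoint (interior (A i)) (interior (A j))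

/-- Each member lies in its own tile of a tiling by congruent copies of one compact set. -/
def IsUniform {ι : Type} (A : ι → Set E) : Prop :=
  ∃ (T : Set E) (B : ι → Set E), IsCompact T ∧ IsPacking T B ∧ (⋃ i, B i) = univ ∧ ∀ i, A i ⊆ B i

/-- The upper density. -/
noncomputable def density {ι : Type} (A : ι → Set E) : ENNReal :=
  limsup (fun r : ℝ => (∑' i, volume (A i ∩ ball 0 r)) / volume (ball (0 : E) r)) atTop

/-- The octagon. -/
def octagon : Set E :=
  {z | -2500 * z 0 - 771 * z 1 ≤ 1260000 ∧ -4 * z 0 - 3 * z 1 ≤ 0 ∧ 0 ≤ z 1 ∧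
    2500 * z 0 - 2829 * z 1 ≤ 6240000 ∧ 4 * z 0 - 3 * z 1 ≤ 12000 ∧ 4 * z 0 + 3 * z 1 ≤ 28800 ∧
    -28 * z 0 + 117 * z 1 ≤ 529800 ∧ -4 * z 0 + 3 * z 1 ≤ 12600}

end Pool.Agent.P.MP_365d4e_co.U
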