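import Mathlib

set_option autoImplicit false

open Set

namespace Pool.Agent.P.MP_365d4e_co

section Vis
variable {κ : Type} (W : κ → Set (ℝ × ℝ))

def pres (i : κ) (x : ℝ) : Prop := ∃ y, (x, y) ∈ W i
def below (i j : κ) : Prop := ∃ x y y', (x, y) ∈ W i ∧ (x, y') ∈ W j ∧ y < y'
def visAt (i j : κ) (x : ℝ) : Prop :=
  i ≠ j ∧ pres W i x ∧ pres W j x ∧ below W i j ∧
    ∀ m, m ≠ i → m ≠ j → below W i m → below W m j → ¬ pres W m x
def vis (i j : κ) : Prop := ∃ x, visAt W i j x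

variable {W}

lemma below_lt (hc : ∀ i, Convex ℝ (W i)) (hd : Pairwise fun i j => Disjoint (W i) (W j))
    {i j : κ} (hij : i ≠ j) (hb : below W i j) {x y y' : ℝ} (h1 : (x, y) ∈ W i)
    (h2 : (x, y') ∈ W j) : y < y' := by
  obtain ⟨x0, y0, y0', h3, h4, h5⟩ := hb
  by_contra hcon
  push Not at hcon
  have hden : 0 < (y0' - y0) + (y - y') := by linarith
  set s := (y0' - y0) / ((y0' - y0) + (y - y')) with hs
  have hs0 : 0 ≤ s := div_nonneg (by linarith) hden.le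
  have hs1 : 0 ≤ 1 - s := by
    rw [sub_nonneg, hs, div_le_one hden]; linarith
  have e1 := hc i h1 h3 hs0 hs1 (by ring)
  have e2 := hc j h2 h4 hs0 hs1 (by ring)
  have : s • ((x, y) : ℝ × ℝ) + (1 - s) • (x0, y0) = s • (x, y') + (1 - s) • (x0, y0') := by
    ext
    · simp
    · simp only [Prod.snd_add, Prod.smul_snd, smul_eq_mul]
      have : s * ((y0' - y0) + (y - y')) = y0' - y0 := by rw [hs]; field_simp
      linear_combination this
  rw [this] at e1
  exact Set.disjoint_left.1 (hd hij) e1 e2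

lemma pres_ord (hc : ∀ i, Convex ℝ (W i)) {i : κ} {x1 x2 x : ℝ} (h1 : pres W i x1)
    (h2 : pres W i x2) (hx1 : x1 ≤ x) (hx2 : x ≤ x2) : pres W i x := by
  obtain ⟨y1, h1⟩ := h1
  obtain ⟨y2, h2⟩ := h2
  have hconv : Convex ℝ (Prod.fst '' W i) := (hc i).linear_image (LinearMap.fst ℝ ℝ ℝ)
  have := hconv.ordConnected.out (⟨_, h1, rfl⟩ : x1 ∈ Prod.fst '' W i) (⟨_, h2, rfl⟩ : x2 ∈ Prod.fst '' W i)
    ⟨hx1, hx2⟩
  obtain ⟨p, hp, rfl⟩ := this
  exact ⟨p.2, hp⟩

lemma below_total (hd : Pairwise fun i j => Disjoint (W i) (W j)) {i j : κ} (hij : i ≠ j) {x : ℝ}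
    (h1 : pres W i x) (h2 : pres W j x) : below W i j ∨ below W j i := by
  obtain ⟨y, h1⟩ := h1
  obtain ⟨y', h2⟩ := h2
  rcases lt_trichotomy y y' with h | h | h
  · exact Or.inl ⟨x, y, y', h1, h2, h⟩
  · subst h; exact (Set.disjoint_left.1 (hd hij) h1 h2).elim
  · exact Or.inr ⟨x, y', y, h2, h1, h⟩

lemma below_trans_at (hc : ∀ i, Convex ℝ (W i)) (hd : Pairwise fun i j => Disjoint (W i) (W j))
    {a m b : κ} (h1 : below W a m) (h2 : below W m b) (ham : m ≠ a) (hmb : m ≠ b) {x : ℝ}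
    (hx : ∀ x', pres W m x' → x' < x) (ha : pres W a x) (hb : pres W b x) :
    a ≠ b ∧ below W a b := by
  have h1' := h1
  have h2' := h2
  obtain ⟨x1, y1, y1', p1, q1, -⟩ := h1'
  obtain ⟨x2, y2, y2', p2, q2, -⟩ := h2'
  have hm : pres W m (max x1 x2) := by
    rcases max_choice x1 x2 with h | h <;> rw [h]
    · exact ⟨_, q1⟩
    · exact ⟨_, p2⟩
  have hlt := (hx _ hm).le
  obtain ⟨ya, hya⟩ := pres_ord hc ⟨_, p1⟩ ha (le_max_left x1 x2) hlt
  obtain ⟨yb, hyb⟩ := pres_ord hc ⟨_, q2⟩ hb (le_max_right x1 x2) hlt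
  obtain ⟨ym, hym⟩ := hm
  have l1 := below_lt hc hd ham.symm h1 hya hym
  have l2 := below_lt hc hd hmb h2 hym hyb
  refine ⟨?_, _, _, _, hya, hyb, l1.trans l2⟩
  rintro rfl
  have l3 := below_lt hc hd ham.symm h1 hyb hym
  linarith

lemma vis_key (hd : Pairwise fun i j => Disjoint (W i) (W j)) {i j i' j' : κ} {x : ℝ}
    (h : visAt W i j x) (h' : visAt W i' j' x) (a1 : i' ≠ j) (a2 : below W i' j) (b1 : i ≠ j')
    (b2 : below W i j') : i = i' ∧ j = j' := by
  obtain ⟨-, pi, pj, -, hm⟩ := h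
  obtain ⟨-, pi', pj', -, hm'⟩ := h'
  constructor
  · by_contra hne
    rcases below_total hd hne pi pi' with h | h
    · exact hm i' (Ne.symm hne) a1 h a2 pi'
    · exact hm' i hne b1 h b2 pi
  · by_contra hne
    rcases below_total hd hne pj pj' with h | h
    · exact hm' j a1.symm hne a2 h pj
    · exact hm j' b1.symm (Ne.symm hne) b2 h pj'

open Classical in
theorem card_vis [Fintype κ] (hc : ∀ i, Convex ℝ (W i))
    (hd : Pairwise fun i j => Disjoint (W i) (W j)) :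
    (Finset.univ.filter (fun p : κ × κ => vis W p.1 p.2)).card ≤ 3 * Fintype.card κ := by
  let Lc : κ → LowerSet ℝ := fun i =>
    ⟨{x | ∀ x', pres W i x' → x < x'}, fun a b hab ha x' hx' => lt_of_le_of_lt hab (ha x' hx')⟩
  let Lm : κ → LowerSet ℝ := fun i =>
    ⟨{x | ∃ x', pres W i x' ∧ x ≤ x'}, fun a b hab ⟨x', h1, h2⟩ => ⟨x', h1, hab.trans h2⟩⟩
  let L : κ × Fin 3 → LowerSet ℝ := fun e => if e.2 = 2 then Lm e.1 else Lc e.1
  have main : ∀ p : κ × κ, vis W p.1 p.2 → ∃ (e : κ × Fin 3) (x0 : ℝ), x0 ∉ L e ∧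
      (∀ x, x ≤ x0 → x ∉ L e → visAt W p.1 p.2 x) ∧
      (e = (p.1, 0) ∨ e = (p.2, 1) ∨ (e.2 = 2 ∧ e.1 ≠ p.1 ∧ e.1 ≠ p.2 ∧ below W p.1 e.1 ∧
        below W e.1 p.2)) := by
    rintro ⟨i, j⟩ ⟨x0, hij, pi, pj, hb, hm⟩
    let S : Finset (κ × Fin 3) := Finset.univ.filter fun e => x0 ∉ L e ∧
      (e = (i, 0) ∨ e = (j, 1) ∨ (e.2 = 2 ∧ e.1 ≠ i ∧ e.1 ≠ j ∧ below W i e.1 ∧ below W e.1 j))
    have hi0 : (i, (0 : Fin 3)) ∈ S := by
      simp only [S, Finset.mem_filter, Finset.mem_univ, true_and, true_or, and_true]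
      intro h
      exact lt_irrefl _ (h x0 pi)
    have hj1 : (j, (1 : Fin 3)) ∈ S := by
      simp only [S, Finset.mem_filter, Finset.mem_univ, true_and, true_or, or_true, and_true]
      intro h
      exact lt_irrefl _ (h x0 pj)
    obtain ⟨e, he, hmax⟩ := S.exists_max_image L ⟨_, hi0⟩
    have he' := (Finset.mem_filter.1 he).2
    refine ⟨e, x0, he'.1, fun x hx hxe => ?_, he'.2⟩
    have hi : pres W i x := by
      have : x ∉ L (i, 0) := fun h => hxe (hmax _ hi0 h)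
      have h2 : ¬ ∀ x', pres W i x' → x < x' := this
      push Not at h2
      obtain ⟨x', h3, h4⟩ := h2
      exact pres_ord hc h3 pi h4 hx
    have hj : pres W j x := by
      have : x ∉ L (j, 1) := fun h => hxe (hmax _ hj1 h)
      have h2 : ¬ ∀ x', pres W j x' → x < x' := this
      push Not at h2
      obtain ⟨x', h3, h4⟩ := h2
      exact pres_ord hc h3 pj h4 hx
    refine ⟨hij, hi, hj, hb, fun m hmi hmj b1 b2 pm => ?_⟩
    have hmS : (m, (2 : Fin 3)) ∈ S := by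
      simp only [S, Finset.mem_filter, Finset.mem_univ, true_and]
      refine ⟨?_, Or.inr (Or.inr ⟨hmi, hmj, b1, b2⟩)⟩
      rintro ⟨x', h1, h2⟩
      exact hm m hmi hmj b1 b2 (pres_ord hc pm h1 hx h2)
    exact hxe (hmax _ hmS ⟨x, pm, le_rfl⟩)
  have main' : ∀ p : κ × κ, ∃ (e : κ × Fin 3) (x0 : ℝ), vis W p.1 p.2 → (x0 ∉ L e ∧
      (∀ x, x ≤ x0 → x ∉ L e → visAt W p.1 p.2 x) ∧
      (e = (p.1, 0) ∨ e = (p.2, 1) ∨ (e.2 = 2 ∧ e.1 ≠ p.1 ∧ e.1 ≠ p.2 ∧ below W p.1 e.1 ∧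
        below W e.1 p.2))) := by
    intro p
    by_cases hv : vis W p.1 p.2
    · obtain ⟨e, x0, h⟩ := main p hv
      exact ⟨e, x0, fun _ => h⟩
    · exact ⟨(p.1, 0), 0, fun h => (hv h).elim⟩
  choose e x0 hh using main'
  have h1 := fun p hv => (hh p hv).1
  have h2 := fun p hv => (hh p hv).2.1
  have h3 := fun p hv => (hh p hv).2.2
  have hcard : (Finset.univ : Finset (κ × Fin 3)).card = 3 * Fintype.card κ := by
    simp [mul_comm]
  rw [← hcard]
  refine Finset.card_le_card_of_injOn e (fun _ _ => Finset.mem_coe.2 (Finset.mem_univ _)) ?_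
  rintro ⟨i, j⟩ hp ⟨i', j'⟩ hp' hee
  have hv : vis W i j := (Finset.mem_filter.1 (Finset.mem_coe.1 hp)).2
  have hv' : vis W i' j' := (Finset.mem_filter.1 (Finset.mem_coe.1 hp')).2
  set x := min (x0 (i, j)) (x0 (i', j')) with hxdef
  have hx : x ∉ L (e (i, j)) := by
    rcases min_choice (x0 (i, j)) (x0 (i', j')) with h | h
    · rw [hxdef, h]; exact h1 (i, j) hv
    · rw [hxdef, h, hee]; exact h1 (i', j') hv'
  have v1 : visAt W i j x := h2 (i, j) hv x (min_le_left _ _) hx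
  have v2 : visAt W i' j' x := h2 (i', j') hv' x (min_le_right _ _) (hee ▸ hx)
  have key : i = i' ∧ j = j' := by
    have c1 := h3 (i, j) hv
    have c2 := h3 (i', j') hv'
    rw [← hee] at c2
    rcases c1 with c1 | c1 | ⟨c1, d1, d2, d3, d4⟩
    · rcases c2 with c2 | c2 | ⟨c2, -⟩
      · have : i = i' := by rw [c1] at c2; exact (Prod.ext_iff.1 c2).1
        subst this
        exact vis_key hd v1 v2 v1.1 v1.2.2.2.1 v2.1 v2.2.2.2.1
      · rw [c1] at c2; exact absurd (Prod.ext_iff.1 c2).2 (by simp)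
      · rw [c1] at c2; exact absurd c2 (by simp)
    · rcases c2 with c2 | c2 | ⟨c2, -⟩
      · rw [c1] at c2; exact absurd (Prod.ext_iff.1 c2).2 (by simp)
      · have : j = j' := by rw [c1] at c2; exact (Prod.ext_iff.1 c2).1
        subst this
        exact vis_key hd v1 v2 v2.1 v2.2.2.2.1 v1.1 v1.2.2.2.1
      · rw [c1] at c2; exact absurd c2 (by simp)
    · rcases c2 with c2 | c2 | ⟨-, f1, f2, f3, f4⟩
      · rw [c2] at c1; exact absurd c1 (by simp)
      · rw [c2] at c1; exact absurd c1 (by simp)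
      · have hx' : ∀ x', pres W (e (i, j)).1 x' → x' < x := by
          intro x' hx'
          by_contra hcon
          push Not at hcon
          apply hx
          simp only [L, c1, if_true]
          exact ⟨x', hx', hcon⟩
        have t1 := below_trans_at hc hd f3 d4 f1 d2 hx' v2.2.1 v1.2.2.1
        have t2 := below_trans_at hc hd d3 f4 d1 f2 hx' v1.2.1 v2.2.2.1
        exact vis_key hd v1 v2 t1.1 t1.2 t2.1 t2.2
  rw [key.1, key.2]

/-- on a vertical segment leaving `W i` the first set met is visible from `i` -/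
lemma exists_vis_up [Fintype κ] (hc : ∀ i, Convex ℝ (W i))
    (hd : Pairwise fun i j => Disjoint (W i) (W j)) {i j : κ} (hij : i ≠ j) {x y y' : ℝ}
    (h1 : (x, y) ∈ W i) (h2 : (x, y') ∈ W j) (hy : y < y') :
    ∃ m y'', vis W i m ∧ (x, y'') ∈ W m ∧ y ≤ y'' ∧ y'' ≤ y' := by
  classical
  have hch : ∀ m, pres W m x → ∃ y, (x, y) ∈ W m := fun m h => h
  choose! yy hyy using hch
  let S : Finset κ := Finset.univ.filter fun m => m ≠ i ∧ pres W m x ∧ below W i m
  have hjS : j ∈ S := by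
    simp only [S, Finset.mem_filter, Finset.mem_univ, true_and]
    exact ⟨hij.symm, ⟨_, h2⟩, ⟨x, y, y', h1, h2, hy⟩⟩
  obtain ⟨m, hm, hmin⟩ := S.exists_min_image yy ⟨_, hjS⟩
  obtain ⟨hmi, pm, bm⟩ := (Finset.mem_filter.1 hm).2
  have hv : vis W i m := by
    refine ⟨x, hmi.symm, ⟨_, h1⟩, pm, bm, fun n hni hnm b1 b2 pn => ?_⟩
    have hnS : n ∈ S := by
      simp only [S, Finset.mem_filter, Finset.mem_univ, true_and]
      exact ⟨hni, pn, b1⟩
    have := below_lt hc hd hnm b2 (hyy n pn) (hyy m pm)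
    exact absurd (hmin n hnS) (not_le.2 this)
  by_cases hmj : m = j
  · subst hmj
    exact ⟨m, y', hv, h2, hy.le, le_rfl⟩
  · refine ⟨m, yy m, hv, hyy m pm, (below_lt hc hd hmi.symm bm h1 (hyy m pm)).le, ?_⟩
    rcases below_total hd hmj pm ⟨_, h2⟩ with h | h
    · exact (below_lt hc hd hmj h (hyy m pm) h2).le
    · have := below_lt hc hd (Ne.symm hmj) h (hyy j ⟨_, h2⟩) (hyy m pm)
      exact absurd (hmin j hjS) (not_le.2 this)

lemma exists_vis_down [Fintype κ] (hc : ∀ i, Convex ℝ (W i))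
    (hd : Pairwise fun i j => Disjoint (W i) (W j)) {i j : κ} (hij : i ≠ j) {x y y' : ℝ}
    (h1 : (x, y) ∈ W i) (h2 : (x, y') ∈ W j) (hy : y' < y) :
    ∃ m y'', vis W m i ∧ (x, y'') ∈ W m ∧ y' ≤ y'' ∧ y'' ≤ y := by
  classical
  have hch : ∀ m, pres W m x → ∃ y, (x, y) ∈ W m := fun m h => h
  choose! yy hyy using hch
  let S : Finset κ := Finset.univ.filter fun m => m ≠ i ∧ pres W m x ∧ below W m i
  have hjS : j ∈ S := by
    simp only [S, Finset.mem_filter, Finset.mem_univ, true_and]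
    exact ⟨hij.symm, ⟨_, h2⟩, ⟨x, y', y, h2, h1, hy⟩⟩
  obtain ⟨m, hm, hmax⟩ := S.exists_max_image yy ⟨_, hjS⟩
  obtain ⟨hmi, pm, bm⟩ := (Finset.mem_filter.1 hm).2
  have hv : vis W m i := by
    refine ⟨x, hmi, pm, ⟨_, h1⟩, bm, fun n hnm hni b1 b2 pn => ?_⟩
    have hnS : n ∈ S := by
      simp only [S, Finset.mem_filter, Finset.mem_univ, true_and]
      exact ⟨hni, pn, b2⟩
    have := below_lt hc hd hnm.symm b1 (hyy m pm) (hyy n pn)
    exact absurd (hmax n hnS) (not_le.2 this)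
  by_cases hmj : m = j
  · subst hmj
    exact ⟨m, y', hv, h2, le_rfl, hy.le⟩
  · refine ⟨m, yy m, hv, hyy m pm, ?_, (below_lt hc hd hmi bm (hyy m pm) h1).le⟩
    rcases below_total hd hmj pm ⟨_, h2⟩ with h | h
    · have := below_lt hc hd hmj h (hyy m pm) (hyy j ⟨_, h2⟩)
      exact absurd (hmax j hjS) (not_le.2 this)
    · exact (below_lt hc hd (Ne.symm hmj) h h2 (hyy m pm)).le

end Vis

end Pool.Agent.P.MP_365d4e_co
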