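import Pool.Agent.P.MP_365d4e_co.Cell

set_option autoImplicit false

open Set Filter Topology MeasureTheory Metric

namespace Pool.Agent.P.MP_365d4e_co

/-- index of the grid cell containing a point -/
noncomputable def cellIx (x0 y0 a b : ℝ) (z : ℂ) : ℤ × ℤ := (⌊(z.re - x0) / a⌋, ⌊(z.im - y0) / b⌋)

lemma cellIx_eq {x0 y0 a b : ℝ} (ha : 0 < a) (hb : 0 < b) {z : ℂ} {p : ℤ × ℤ} :
    cellIx x0 y0 a b z = p ↔ z.re ∈ Ico (x0 + p.1 * a) (x0 + (p.1 + 1) * a) ∧
      z.im ∈ Ico (y0 + p.2 * b) (y0 + (p.2 + 1) * b) := by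
  simp only [cellIx, Prod.ext_iff, Int.floor_eq_iff, le_div_iff₀ ha, div_lt_iff₀ ha, le_div_iff₀ hb,
    div_lt_iff₀ hb, mem_Ico]
  constructor <;> rintro ⟨⟨a1, a2⟩, a3, a4⟩ <;>
    exact ⟨⟨by linarith, by linarith⟩, by linarith, by linarith⟩

lemma cell_eq {x0 y0 a b : ℝ} (ha : 0 < a) (hb : 0 < b) (p : ℤ × ℤ) :
    cellIx x0 y0 a b ⁻¹' {p} = {z : ℂ | z.re ∈ Ico (x0 + p.1 * a) (x0 + (p.1 + 1) * a) ∧
      z.im ∈ Ico (y0 + p.2 * b) (y0 + (p.2 + 1) * b)} := by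
  ext z; exact cellIx_eq ha hb

lemma measurableSet_cell {x0 y0 a b : ℝ} (ha : 0 < a) (hb : 0 < b) (p : ℤ × ℤ) :
    MeasurableSet (cellIx x0 y0 a b ⁻¹' {p}) := by
  rw [cell_eq ha hb]
  exact (Complex.measurable_re measurableSet_Ico).inter (Complex.measurable_im measurableSet_Ico)

lemma vol_cell {x0 y0 a b : ℝ} (ha : 0 < a) (hb : 0 < b) (p : ℤ × ℤ) :
    volume (cellIx x0 y0 a b ⁻¹' {p}) = ENNReal.ofReal (a * b) := by
  rw [cell_eq ha hb, volr_box, Real.volume_Ico, Real.volume_Ico, ← ENNReal.ofReal_mul (by linarith)]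
  congr 1; ring

lemma card_cells {x0 y0 a b : ℝ} (ha : 0 < a) (hb : 0 < b) (G : Finset (ℤ × ℤ)) :
    volume (cellIx x0 y0 a b ⁻¹' G) ≠ ⊤ ∧
    volume.real (cellIx x0 y0 a b ⁻¹' G) = G.card * (a * b) := by
  have := sum_measure_preimage_singleton (μ := volume) G fun p _ => measurableSet_cell
    (x0 := x0) (y0 := y0) ha hb p
  simp only [vol_cell ha hb, Finset.sum_const, nsmul_eq_mul] at this
  rw [Measure.real, ← this]
  refine ⟨by finiteness, ?_⟩
  rw [ENNReal.toReal_mul, ENNReal.toReal_ofReal (by positivity)]; simp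

lemma finite_centres {T : Set ℂ} (hK : Ko ⊆ T) {g : ℕ → Iso}
    (hdis : Pairwise fun i j => Disjoint (interior (g i '' T)) (interior (g j '' T))) (y : ℂ)
    (R : ℝ) : {i | dist (g i o) y ≤ R}.Finite := by
  refine ((finite_grid y (R + 2)).preimage (f := fun i => fl (g i o))
    fun i _ j _ h => eq_of_close hK hdis (dist_of_fl h)).subset fun i hi => ?_
  have := dist_triangle_left (zp (fl (g i o))) y (g i o)
  have := dist_fl (g i o)
  change dist _ _ ≤ _ at hi ⊢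
  linarith

lemma dense_cell {T : Set ℂ} (hK : Ko ⊆ T) {f : ℕ → Iso}
    (hdis : Pairwise fun i j => Disjoint (interior (f i '' T)) (interior (f j '' T)))
    {ε L R : ℝ} (hε : ε < 1) (hL : 0 < L) (hR : 0 < R) (s : Finset ℕ)
    (hs : ∀ i ∈ s, dist (f i o) 0 ≤ R)
    (hc : (1 - ε) * (Real.pi * (R + 3 * L) ^ 2) ≤ 23760000 * s.card) :
    ∃ (x0 y0 : ℝ) (J : Finset ℕ), (∀ i, i ∈ J ↔ (f i o).re ∈ Ico x0 (x0 + L) ∧
      (f i o).im ∈ Ico y0 (y0 + L)) ∧ (1 - ε) * L ^ 2 ≤ 23760000 * J.card := by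
  classical
  let ψ := cellIx 0 0 L L
  let G := s.image fun i => ψ (f i o)
  have hG : (G.card : ℝ) * (L * L) ≤ Real.pi * (R + 3 * L) ^ 2 := by
    rw [← (card_cells (x0 := 0) (y0 := 0) hL hL G).2, ← volr_ball 0 (by positivity)]
    refine measureReal_mono (fun z hz => ?_) measure_ball_lt_top.ne
    obtain ⟨i, hi, e⟩ := Finset.mem_image.1 hz
    obtain ⟨⟨a1, a2⟩, a3, a4⟩ := (cellIx_eq hL hL).1 e
    obtain ⟨⟨b1, b2⟩, b3, b4⟩ := (cellIx_eq (x0 := 0) (y0 := 0) hL hL (z := z)).1 rfl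
    have := dist_le_coord (z := z) (w := f i o) (a := L) (b := L)
      (abs_le.2 ⟨by linarith, by linarith⟩) (abs_le.2 ⟨by linarith, by linarith⟩)
    have := dist_triangle z (f i o) 0
    rw [mem_ball]; linarith [hs i hi]
  have hpos : 0 < (1 - ε) * (Real.pi * (R + 3 * L) ^ 2) :=
    mul_pos (by linarith) (by positivity)
  have hne : G.Nonempty := by
    rw [Finset.image_nonempty, ← Finset.card_pos]
    by_contra h
    have : s.card = 0 := by omega
    rw [this] at hc; simp only [Nat.cast_zero, mul_zero] at hc; linarith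
  have hsum : ∑ _p ∈ G, (1 - ε) * L ^ 2 ≤
      ∑ p ∈ G, (23760000 : ℝ) * (s.filter fun i => ψ (f i o) = p).card := by
    rw [Finset.sum_const, nsmul_eq_mul, ← Finset.mul_sum]
    have := Finset.card_eq_sum_card_image (fun i => ψ (f i o)) s
    have e : (∑ p ∈ G, ((s.filter fun i => ψ (f i o) = p).card : ℝ)) = s.card := by
      rw [this]; push_cast; rfl
    rw [e]
    nlinarith
  obtain ⟨p, -, hp⟩ := Finset.exists_le_of_sum_le hne hsum
  have hfin : {i | ψ (f i o) = p}.Finite := by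
    refine (finite_centres hK hdis ⟨p.1 * L, p.2 * L⟩ (L + L)).subset fun i hi => ?_
    obtain ⟨⟨a1, a2⟩, a3, a4⟩ := (cellIx_eq hL hL).1 hi
    exact dist_le_coord (abs_le.2 ⟨by simp only; linarith, by simp only; linarith⟩)
      (abs_le.2 ⟨by simp only; linarith, by simp only; linarith⟩)
  refine ⟨p.1 * L, p.2 * L, hfin.toFinset, fun i => ?_, hp.trans ?_⟩
  · rw [Finite.mem_toFinset, mem_ofPred_eq, cellIx_eq hL hL]
    simp only [zero_add, add_mul, one_mul]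
  · have : (s.filter fun i => ψ (f i o) = p).card ≤ hfin.toFinset.card :=
      Finset.card_le_card fun i hi => hfin.mem_toFinset.2 (Finset.mem_filter.1 hi).2
    have : ((s.filter fun i => ψ (f i o) = p).card : ℝ) ≤ hfin.toFinset.card := by exact_mod_cast this
    linarith

theorem good_window {T : Set ℂ} (hK : Ko ⊆ T) {f : ℕ → Iso}
    (hdis : Pairwise fun i j => Disjoint (interior (f i '' T)) (interior (f j '' T)))
    (hcount : ∀ ε M : ℝ, 0 < ε → 0 < M → ∃ R > 0, ∃ s : Finset ℕ, (∀ i ∈ s, dist (f i o) 0 ≤ R) ∧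
      (1 - ε) * (Real.pi * (R + M) ^ 2) ≤ 23760000 * s.card)
    {r δ : ℝ} (hr : 0 < r) (hδ : 0 < δ) :
    ∃ (x : ℂ) (c : ℕ → Fin 4), (∀ i j, i ≠ j → f i o ∈ ball x r → f j o ∈ ball x r →
      volume.real (f i '' (hexT (c i)).C ∩ f j '' (hexT (c j)).C) ≤ δ) ∧
      volume.real (ball x r \ ⋃ i, f i '' (hexT (c i)).C) ≤ δ := by
  classical
  set w := 2 * r with hw
  have hw0 : 0 < w := by positivity
  set θ := min 1 (δ / w ^ 2) with hθ
  have hθ0 : 0 < θ := lt_min one_pos (by positivity)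
  have hθ1 : θ ≤ 1 := min_le_left _ _
  have hθ2 : θ * w ^ 2 ≤ δ := by
    rw [← le_div_iff₀ (by positivity)]; exact min_le_right _ _
  set ε := θ ^ 2 / 1000 with hε
  have hε0 : 0 < ε := by positivity
  have hε1 : ε ≤ θ / 1000 := by rw [hε]; nlinarith
  obtain ⟨M, hM⟩ := exists_nat_gt ((10 ^ 9 / ε + 1) / w)
  rw [div_lt_iff₀ hw0] at hM
  set L := M * w with hL
  have hq : 0 < 10 ^ 9 / ε := by positivity
  have hL1 : 1 < L := by linarith
  have hL2 : 10 ^ 9 ≤ ε * L := by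
    have : 10 ^ 9 / ε ≤ L := by linarith
    rw [div_le_iff₀ hε0] at this; linarith
  have hM0 : 0 < M := by
    rcases Nat.eq_zero_or_pos M with h | h
    · rw [h] at hL; simp at hL; linarith
    · exact h
  obtain ⟨R, hR, s, hs, hc⟩ := hcount ε (3 * L) hε0 (by linarith)
  obtain ⟨x0, y0, J, hJ, hJc⟩ := dense_cell hK hdis (by linarith) (by linarith) hR s hs hc
  have hKi : Ko ⊆ interior T := interior_maximal hK isOpen_Ko
  obtain ⟨c, l, X, B, l0, Xm, Xfin, hov, hX, B0, hB, hl, hXv⟩ := cell_bound f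
    (fun i j hij => (hdis hij).mono (by rw [interior_iso]; exact image_mono hKi)
      (by rw [interior_iso]; exact image_mono hKi)) J (x0 + L / 2) (y0 + L / 2) (L := L / 2)
    (by linarith) hθ0 (fun i hi => by
      obtain ⟨⟨a1, a2⟩, a3, a4⟩ := (hJ i).1 hi
      exact ⟨abs_le.2 ⟨by linarith, by linarith⟩, abs_le.2 ⟨by linarith, by linarith⟩⟩)
  have tot : ∑ i ∈ J, l i + volume.real X ≤ θ * L ^ 2 := by
    have e1 : (2 * (L / 2 + 7000)) ^ 2 + 24 * 350000 ≤ L ^ 2 + ε * L ^ 2 := by nlinarith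
    have hL3 : 0 < L ^ 2 := by positivity
    have e2 : 10000 * B ≤ 2 * ε * L ^ 2 := by linarith
    have e3 : 23760000 * (J.card : ℝ) ≤ 2 * L ^ 2 := by nlinarith
    have e4 : B / θ ≤ θ * L ^ 2 / 5000000 := by
      rw [div_le_iff₀ hθ0]; rw [hε] at e2; nlinarith
    have e5 : θ * J.card ≤ θ * L ^ 2 / 11880000 := by nlinarith
    have e6 : ε * L ^ 2 ≤ θ / 1000 * L ^ 2 := mul_le_mul_of_nonneg_right hε1 hL3.le
    have e7 : 0 < θ * L ^ 2 := by positivity
    nlinarith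
  let ψ := cellIx x0 y0 w w
  let I : Finset (ℤ × ℤ) := Finset.Ico (0 : ℤ) M ×ˢ Finset.Ico (0 : ℤ) M
  have hI : (I.card : ℝ) = M ^ 2 := by simp [I, pow_two]
  have hIne : I.Nonempty := ⟨(0, 0), by simp [I, hM0]⟩
  have hsum : ∑ p ∈ I, (∑ i ∈ J.filter (fun i => ψ (f i o) = p), l i +
      volume.real (X ∩ ψ ⁻¹' {p})) ≤ ∑ _p ∈ I, θ * w ^ 2 := by
    rw [Finset.sum_add_distrib, Finset.sum_const, nsmul_eq_mul, hI]
    have a : ∑ p ∈ I, ∑ i ∈ J.filter (fun i => ψ (f i o) = p), l i ≤ ∑ i ∈ J, l i := by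
      rw [Finset.sum_fiberwise_eq_sum_filter]
      exact Finset.sum_le_sum_of_subset_of_nonneg (Finset.filter_subset _ _) fun i _ _ => l0 i
    have b : ∑ p ∈ I, volume.real (X ∩ ψ ⁻¹' {p}) ≤ volume.real X := by
      rw [← measureReal_biUnion_finset]
      · exact measureReal_mono (iUnion₂_subset fun _ _ => inter_subset_left) Xfin
      · intro p _ q _ hpq
        refine Set.disjoint_left.2 fun z h1 h2 => hpq ?_
        exact (mem_singleton_iff.1 h1.2).symm.trans h2.2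
      · exact fun p _ => Xm.inter (measurableSet_cell hw0 hw0 p)
    have : (M : ℝ) ^ 2 * (θ * w ^ 2) = θ * L ^ 2 := by rw [hL]; ring
    linarith
  obtain ⟨p, hp, hbad⟩ := Finset.exists_le_of_sum_le hIne hsum
  obtain ⟨⟨p1, p2⟩, p3, p4⟩ : ((0 : ℝ) ≤ p.1 ∧ (p.1 : ℝ) + 1 ≤ M) ∧ (0 : ℝ) ≤ p.2 ∧
      (p.2 : ℝ) + 1 ≤ M := by
    simp only [I, Finset.mem_product, Finset.mem_Ico] at hp
    obtain ⟨⟨a, b⟩, c, d⟩ := hp
    exact ⟨⟨by exact_mod_cast a, by exact_mod_cast b⟩, by exact_mod_cast c, by exact_mod_cast d⟩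
  have hball : ∀ z ∈ ball (⟨x0 + p.1 * w + r, y0 + p.2 * w + r⟩ : ℂ) r, ψ z = p ∧
      z.re ∈ Ico x0 (x0 + L) ∧ z.im ∈ Ico y0 (y0 + L) := by
    intro z hz
    have hz' := mem_ball.1 hz
    rw [Complex.dist_eq] at hz'
    have a := (Complex.abs_re_le_norm _).trans_lt hz'
    have b := (Complex.abs_im_le_norm _).trans_lt hz'
    simp only [Complex.sub_re, Complex.sub_im, abs_lt] at a b
    have q1 : 0 ≤ (p.1 : ℝ) * w := by positivity
    have q2 : 0 ≤ (p.2 : ℝ) * w := by positivity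
    have q3 : ((p.1 : ℝ) + 1) * w ≤ L := mul_le_mul_of_nonneg_right p2 hw0.le
    have q4 : ((p.2 : ℝ) + 1) * w ≤ L := mul_le_mul_of_nonneg_right p4 hw0.le
    exact ⟨(cellIx_eq hw0 hw0).2 ⟨⟨by linarith [a.1], by linarith [a.2]⟩, by linarith [b.1],
      by linarith [b.2]⟩, ⟨by linarith [a.1], by linarith [a.2]⟩, by linarith [b.1],
      by linarith [b.2]⟩
  have n1 : 0 ≤ ∑ i ∈ J.filter (fun i => ψ (f i o) = p), l i := Finset.sum_nonneg fun i _ => l0 i
  have n2 : 0 ≤ volume.real (X ∩ ψ ⁻¹' {p}) := measureReal_nonneg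
  refine ⟨⟨x0 + p.1 * w + r, y0 + p.2 * w + r⟩, c, fun i j hij hi hj => ?_, ?_⟩
  · have a := hball _ hi
    have b := hball _ hj
    have a' := (hJ i).2 a.2
    have b' := (hJ j).2 b.2
    have : l i + l j ≤ ∑ i ∈ J.filter (fun i => ψ (f i o) = p), l i := by
      rw [← Finset.sum_pair hij]
      refine Finset.sum_le_sum_of_subset_of_nonneg ?_ fun i _ _ => l0 i
      intro k hk
      rcases Finset.mem_insert.1 hk with rfl | hk
      · exact Finset.mem_filter.2 ⟨a', a.1⟩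
      · rw [Finset.mem_singleton.1 hk]; exact Finset.mem_filter.2 ⟨b', b.1⟩
    linarith [hov i a' j b' hij]
  · refine (measureReal_mono (s₂ := X ∩ ψ ⁻¹' {p}) ?_
      (ne_top_of_le_ne_top Xfin (measure_mono inter_subset_left))).trans (by linarith)
    rintro z ⟨h1, h2⟩
    obtain ⟨a, ⟨a1, a2⟩, a3, a4⟩ := hball z h1
    exact ⟨hX ⟨⟨abs_le.2 ⟨by linarith, by linarith⟩, abs_le.2 ⟨by linarith, by linarith⟩⟩, h2⟩, a⟩

theorem count_false {T : Set ℂ} (hT : IsCompact T) (hK : Ko ⊆ T) {f : ℕ → Iso}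
    (hcov : ∀ z, ∃ i, z ∈ f i '' T)
    (hdis : Pairwise fun i j => Disjoint (interior (f i '' T)) (interior (f j '' T)))
    (hcount : ∀ ε M : ℝ, 0 < ε → 0 < M → ∃ R > 0, ∃ s : Finset ℕ, (∀ i ∈ s, dist (f i o) 0 ≤ R) ∧
      (1 - ε) * (Real.pi * (R + M) ^ 2) ≤ 23760000 * s.card) : False := by
  choose x c h1 h2 using fun k : ℕ => good_window hK hdis hcount (r := k + 1)
    (δ := (1 / (k + 1)) ^ 2) (by positivity) (by positivity)
  let τ : ℕ → Iso := fun k => IsometryEquiv.addRight (-x k)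
  have hτ : ∀ k z, τ k z = z - x k := fun k z => by simp [τ, sub_eq_add_neg]
  have him : ∀ k i (S : Set ℂ), ((f i).trans (τ k) : Iso) '' S = τ k '' (f i '' S) := fun k i S => by
    rw [image_image]; rfl
  have hb : ∀ (k : ℕ) z, τ k z ∈ ball (0 : ℂ) k → z ∈ ball (x k) (k + 1) := by
    intro k z hz
    rw [mem_ball, hτ, dist_zero_right, ← dist_eq_norm] at hz
    rw [mem_ball]; linarith
  refine limit_false hT hK (fun k i => (f i).trans (τ k)) c (fun k z => ?_) (fun k i j hij => ?_)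
    (fun k i j hij hi hj => ?_) (fun k => ?_)
  · obtain ⟨i, hi⟩ := hcov ((τ k).symm z)
    exact ⟨i, by rw [him]; exact ⟨_, hi, by simp⟩⟩
  · beta_reduce
    rw [him, him, interior_iso (τ k), interior_iso (τ k)]
    exact (disjoint_image_iff (τ k).injective).2 (hdis hij)
  · rw [him, him, ← image_inter (τ k).injective, volr_iso]
    exact h1 k i j hij (hb k _ hi) (hb k _ hj)
  · refine le_trans ?_ (h2 k)
    rw [← volr_iso (τ k) (ball (x k) (k + 1) \ _)]
    refine measureReal_mono ?_ (by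
      rw [vol_iso]; exact ne_top_of_le_ne_top measure_ball_lt_top.ne (measure_mono sdiff_subset))
    intro z hz
    obtain ⟨w, rfl⟩ := (τ k).surjective z
    refine ⟨w, ⟨hb k w hz.1, fun h => hz.2 ?_⟩, rfl⟩
    obtain ⟨i, hi⟩ := mem_iUnion.1 h
    exact mem_iUnion.2 ⟨i, by rw [him]; exact ⟨w, hi, rfl⟩⟩

end Pool.Agent.P.MP_365d4e_co
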